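import Pool.Agent.Helper21_UR.Stmts

/-!
# Assembly of the proof (MP_c97607_co)
-/

namespace Pool.Agent.Helper21_UR

open Complex MeasureTheory

/-- AM-GM. -/
theorem amgm (c : ℝ) (m n : ℕ) (h : SS c m n < 0) :
    u ((m : ℤ) - 1) n * u ((m : ℤ) + 1) n < u (m : ℤ) n ^ 2 := by
  unfold SS at h
  set a : ℝ := (u ((m : ℤ) - 1) n : ℝ) with ha
  set b : ℝ := (u (m : ℤ) n : ℝ) with hb
  set d : ℝ := (u ((m : ℤ) + 1) n : ℝ) with hd
  have ha0 : 0 ≤ a := by rw [ha]; positivity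
  have hb0 : 0 ≤ b := by rw [hb]; positivity
  have hd0 : 0 ≤ d := by rw [hd]; positivity
  set x : ℝ := Real.exp c * a with hx
  set y : ℝ := Real.exp (-c) * d with hy
  have hx0 : 0 ≤ x := by positivity
  have hy0 : 0 ≤ y := by positivity
  have hxy : x * y = a * d := by
    have : Real.exp c * Real.exp (-c) = 1 := by rw [← Real.exp_add]; simp
    calc x * y = (Real.exp c * Real.exp (-c)) * (a * d) := by rw [hx, hy]; ring
      _ = a * d := by rw [this]; ring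
  have hlt : x + y < 2 * b := by linarith
  have h1 : a * d < b ^ 2 := by
    rw [← hxy]
    nlinarith [sq_nonneg (x - y)]
  have h2 : ((u ((m : ℤ) - 1) n * u ((m : ℤ) + 1) n : ℕ) : ℝ) < ((u (m : ℤ) n ^ 2 : ℕ) : ℝ) := by
    push_cast
    exact h1
  exact_mod_cast h2

theorem isCompact_box : IsCompact Box := by
  have : Box = Set.Icc (-Real.pi) Real.pi ×ˢ Set.Icc (-Real.pi) Real.pi := by
    ext p
    simp only [Box, Set.mem_setOf_eq, Set.mem_prod, Set.mem_Icc, abs_le]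
  rw [this]
  exact isCompact_Icc.prod isCompact_Icc

theorem tt_continuous (t0 : ℝ) : Continuous fun p : ℝ × ℝ => tt t0 p.1 := by
  unfold tt; fun_prop

theorem integrand_continuous (hC : ContStatement) (κ t0 c : ℝ) (m n : ℕ) (h0 : 0 < t0)
    (hκ : κ = 1 / 2 ∨ κ = 3 / 2) :
    Continuous fun p : ℝ × ℝ => cexp ((n : ℂ) * tt t0 p.1) * FF κ (tt t0 p.1) c m p.2 := by
  have h1 : Continuous fun p : ℝ × ℝ => cexp ((n : ℂ) * tt t0 p.1) :=
    (continuous_const.mul (tt_continuous t0)).cexp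
  rcases hκ with h | h
  · subst h; exact h1.mul (hC.1 t0 c h0 m)
  · subst h; exact h1.mul (hC.2.1 t0 c h0 m)

theorem measurable_abs1 : Measurable fun p : ℝ × ℝ => |p.1| := by fun_prop
theorem measurable_abs2 : Measurable fun p : ℝ × ℝ => |p.2| := by fun_prop

theorem meas_A0 (t0 : ℝ) : MeasurableSet (A0 t0) :=
  (measurableSet_le measurable_abs1 measurable_const).inter
    (measurableSet_le measurable_abs2 measurable_const)
theorem meas_A1 (t0 : ℝ) : MeasurableSet (A1 t0) :=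
  (measurableSet_le measurable_abs1 measurable_const).inter
    ((measurableSet_lt measurable_const measurable_abs2).inter
    (measurableSet_le measurable_abs2 measurable_const))
theorem meas_A2 (t0 : ℝ) : MeasurableSet (A2 t0) :=
  (measurableSet_lt measurable_const measurable_abs1).inter
    ((measurableSet_le measurable_abs1 measurable_const).inter
    (measurableSet_le measurable_abs2 measurable_const))
theorem meas_A3 (t0 : ℝ) : MeasurableSet (A3 t0) :=
  (measurableSet_le measurable_abs1 measurable_const).inter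
    ((measurableSet_lt measurable_const measurable_abs2).inter
    (measurableSet_le measurable_abs2 measurable_const))
theorem meas_A4 (t0 : ℝ) : MeasurableSet (A4 t0) :=
  (measurableSet_lt measurable_const measurable_abs1).inter
    ((measurableSet_le measurable_abs1 measurable_const).inter
    (measurableSet_le measurable_abs2 measurable_const))
theorem meas_A5 (t0 : ℝ) : MeasurableSet (A5 t0) :=
  (measurableSet_lt measurable_const measurable_abs1).inter
    ((measurableSet_le measurable_abs1 measurable_const).inter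
    (measurableSet_le measurable_abs2 measurable_const))

theorem box_split (hC : ContStatement) (κ t0 c : ℝ) (m n : ℕ) (h0 : 0 < t0) (h1 : t0 ≤ 1 / 50)
    (hκ : κ = 1 / 2 ∨ κ = 3 / 2) :
    JR κ t0 c m n Box = JR κ t0 c m n (A0 t0) + (JR κ t0 c m n (A1 t0) + (JR κ t0 c m n (A2 t0) +
      (JR κ t0 c m n (A3 t0) + (JR κ t0 c m n (A4 t0) + JR κ t0 c m n (A5 t0))))) := by
  have hpi := Real.pi_gt_three
  have hI : IntegrableOn (fun p : ℝ × ℝ => cexp ((n : ℂ) * tt t0 p.1) * FF κ (tt t0 p.1) c m p.2)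
      Box := (integrand_continuous hC κ t0 c m n h0 hκ).continuousOn.integrableOn_compact
        isCompact_box
  have hbox : Box = A0 t0 ∪ (A1 t0 ∪ (A2 t0 ∪ (A3 t0 ∪ (A4 t0 ∪ A5 t0)))) := by
    ext ⟨x, y⟩
    simp only [Box, A0, A1, A2, A3, A4, A5, Set.mem_setOf_eq, Set.mem_union]
    constructor
    · rintro ⟨hx, hy⟩
      by_cases a1 : |x| ≤ 3 / 10 * t0
      · by_cases b1 : |y| ≤ 5 * t0
        · exact Or.inl ⟨a1, b1⟩
        · by_cases b2 : |y| ≤ 1 / 2
          · exact Or.inr (Or.inl ⟨a1, lt_of_not_ge b1, b2⟩)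
          · exact Or.inr (Or.inr (Or.inr (Or.inl ⟨by linarith, lt_of_not_ge b2, hy⟩)))
      · by_cases a2 : |x| ≤ 3 / 5 * t0
        · by_cases b2 : |y| ≤ 1 / 2
          · exact Or.inr (Or.inr (Or.inl ⟨lt_of_not_ge a1, a2, b2⟩))
          · exact Or.inr (Or.inr (Or.inr (Or.inl ⟨a2, lt_of_not_ge b2, hy⟩)))
        · by_cases a3 : |x| ≤ 3 * t0
          · exact Or.inr (Or.inr (Or.inr (Or.inr (Or.inl ⟨lt_of_not_ge a2, a3, hy⟩))))
          · exact Or.inr (Or.inr (Or.inr (Or.inr (Or.inr ⟨lt_of_not_ge a3, hx, hy⟩))))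
    · rintro (⟨a, b⟩ | ⟨a, b, b'⟩ | ⟨a, a', b⟩ | ⟨a, b, b'⟩ | ⟨a, a', b⟩ | ⟨a, a', b⟩) <;>
        constructor <;> linarith
  have hsub : ∀ A : Set (ℝ × ℝ), A ⊆ Box → IntegrableOn (fun p : ℝ × ℝ =>
      cexp ((n : ℂ) * tt t0 p.1) * FF κ (tt t0 p.1) c m p.2) A := fun A hA => hI.mono_set hA
  have s5 : A5 t0 ⊆ Box := by rw [hbox]; intro p hp; simp [hp]
  have s4 : A4 t0 ⊆ Box := by rw [hbox]; intro p hp; simp [hp]
  have s3 : A3 t0 ⊆ Box := by rw [hbox]; intro p hp; simp [hp]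
  have s2 : A2 t0 ⊆ Box := by rw [hbox]; intro p hp; simp [hp]
  have s1 : A1 t0 ⊆ Box := by rw [hbox]; intro p hp; simp [hp]
  have s0 : A0 t0 ⊆ Box := by rw [hbox]; intro p hp; simp [hp]
  have s45 : A4 t0 ∪ A5 t0 ⊆ Box := Set.union_subset s4 s5
  have s345 : A3 t0 ∪ (A4 t0 ∪ A5 t0) ⊆ Box := Set.union_subset s3 s45
  have s2345 : A2 t0 ∪ (A3 t0 ∪ (A4 t0 ∪ A5 t0)) ⊆ Box := Set.union_subset s2 s345
  have s12345 : A1 t0 ∪ (A2 t0 ∪ (A3 t0 ∪ (A4 t0 ∪ A5 t0))) ⊆ Box := Set.union_subset s1 s2345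
  have m45 := (meas_A4 t0).union (meas_A5 t0)
  have m345 := (meas_A3 t0).union m45
  have m2345 := (meas_A2 t0).union m345
  have m12345 := (meas_A1 t0).union m2345
  have d45 : Disjoint (A4 t0) (A5 t0) := by
    rw [Set.disjoint_left]
    rintro ⟨x, y⟩ h h'
    simp only [A4, A5, Set.mem_setOf_eq] at h h'
    linarith [h.2.1, h'.1]
  have d345 : Disjoint (A3 t0) (A4 t0 ∪ A5 t0) := by
    rw [Set.disjoint_left]
    rintro ⟨x, y⟩ h h'
    simp only [A3, A4, A5, Set.mem_setOf_eq, Set.mem_union] at h h'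
    rcases h' with h' | h' <;> linarith [h.1, h'.1]
  have d2345 : Disjoint (A2 t0) (A3 t0 ∪ (A4 t0 ∪ A5 t0)) := by
    rw [Set.disjoint_left]
    rintro ⟨x, y⟩ h h'
    simp only [A2, A3, A4, A5, Set.mem_setOf_eq, Set.mem_union] at h h'
    rcases h' with h' | h' | h'
    · linarith [h.2.2, h'.2.1]
    · linarith [h.2.1, h'.1]
    · linarith [h.2.1, h'.1]
  have d12345 : Disjoint (A1 t0) (A2 t0 ∪ (A3 t0 ∪ (A4 t0 ∪ A5 t0))) := by
    rw [Set.disjoint_left]
    rintro ⟨x, y⟩ h h'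
    simp only [A1, A2, A3, A4, A5, Set.mem_setOf_eq, Set.mem_union] at h h'
    rcases h' with h' | h' | h' | h'
    · linarith [h.1, h'.1]
    · linarith [h.2.2, h'.2.1]
    · linarith [h.1, h'.1]
    · linarith [h.1, h'.1]
  have d012345 : Disjoint (A0 t0) (A1 t0 ∪ (A2 t0 ∪ (A3 t0 ∪ (A4 t0 ∪ A5 t0)))) := by
    rw [Set.disjoint_left]
    rintro ⟨x, y⟩ h h'
    simp only [A0, A1, A2, A3, A4, A5, Set.mem_setOf_eq, Set.mem_union] at h h'
    rcases h' with h' | h' | h' | h' | h'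
    · linarith [h.2, h'.2.1]
    · linarith [h.1, h'.1]
    · linarith [h.2, h'.2.1]
    · linarith [h.1, h'.1]
    · linarith [h.1, h'.1]
  unfold JR
  rw [← mul_add, ← mul_add, ← mul_add, ← mul_add, ← mul_add]
  congr 1
  rw [hbox, setIntegral_union d012345 m12345 (hsub _ s0) (hsub _ s12345),
    setIntegral_union d12345 m2345 (hsub _ s1) (hsub _ s2345),
    setIntegral_union d2345 m345 (hsub _ s2) (hsub _ s345),
    setIntegral_union d345 m45 (hsub _ s3) (hsub _ s45),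
    setIntegral_union d45 (meas_A5 t0) (hsub _ s4) (hsub _ s5)]

theorem W0_pos (t0 : ℝ) (h0 : 0 < t0) : 0 < W0 t0 := by
  unfold W0 zz
  have := Real.pi_pos
  positivity

theorem zz_ge (t0 : ℝ) (h0 : 0 < t0) (h1 : t0 ≤ 1 / 50) : 328 ≤ zz t0 := by
  unfold zz
  rw [le_div_iff₀ (by positivity)]
  have := Real.pi_gt_d4
  nlinarith

/-- The bound of the double integral. -/
theorem jr_bound (hC : ContStatement) (hR : R1Statement) (h1 : T1Statement) (h2 : T2Statement)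
    (h3 : T3Statement) (h4 : T4Statement) (h5 : T5Statement) (κ ch e t0 : ℝ) (m n : ℕ)
    (h0 : 0 < t0) (h50 : t0 ≤ 1 / 50) (ht : Tie κ t0 m n)
    (hh : (κ, ch, e) = (1 / 2, -3 / 10, 1 / 20) ∨ (κ, ch, e) = (1 / 2, -1 / 2, 1 / 20) ∨
      (κ, ch, e) = (3 / 2, -1, 17 / 100)) :
    ‖JR κ t0 (ch * t0) m n Box - W0 t0 * ∫ s in (-5 : ℝ)..5, mainD κ ch (m * t0) s‖ ≤
      (e + 9 / 1000) * W0 t0 := by
  have hκ : κ = 1 / 2 ∨ κ = 3 / 2 := by
    rcases hh with h | h | h <;> simp only [Prod.mk.injEq] at h <;> simp [h.1]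
  have hch : -1 ≤ ch ∧ ch ≤ 0 := by
    rcases hh with h | h | h <;> simp only [Prod.mk.injEq] at h <;> rw [h.2.1] <;> norm_num
  have hT : TailHyp κ ch t0 m n := ⟨h0, h50, ht, hκ, hch.1, hch.2⟩
  have r := hR κ ch e t0 m n h0 h50 ht hh
  have a1 := h1 κ ch t0 m n hT
  have a2 := h2 κ ch t0 m n hT
  have a3 := h3 κ ch t0 m n hT
  have a4 := h4 κ ch t0 m n hT
  have a5 := h5 κ ch t0 m n hT
  rw [box_split hC κ t0 (ch * t0) m n h0 h50 hκ]
  set J0 := JR κ t0 (ch * t0) m n (A0 t0)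
  set J1 := JR κ t0 (ch * t0) m n (A1 t0)
  set J2 := JR κ t0 (ch * t0) m n (A2 t0)
  set J3 := JR κ t0 (ch * t0) m n (A3 t0)
  set J4 := JR κ t0 (ch * t0) m n (A4 t0)
  set J5 := JR κ t0 (ch * t0) m n (A5 t0)
  set Q : ℂ := W0 t0 * ∫ s in (-5 : ℝ)..5, mainD κ ch (m * t0) s
  have e1 : J0 + (J1 + (J2 + (J3 + (J4 + J5)))) - Q = (J0 - Q) + (J1 + (J2 + (J3 + (J4 + J5)))) := by
    ring
  rw [e1]
  have n4 : ‖J4 + J5‖ ≤ 2 / 1000 * W0 t0 := (norm_add_le _ _).trans (by linarith)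
  have n3 : ‖J3 + (J4 + J5)‖ ≤ 3 / 1000 * W0 t0 := (norm_add_le _ _).trans (by linarith)
  have n2 : ‖J2 + (J3 + (J4 + J5))‖ ≤ 6 / 1000 * W0 t0 := (norm_add_le _ _).trans (by linarith)
  have n1 : ‖J1 + (J2 + (J3 + (J4 + J5)))‖ ≤ 9 / 1000 * W0 t0 :=
    (norm_add_le _ _).trans (by linarith)
  exact (norm_add_le _ _).trans (by linarith)

/-- Real part of the double integral, with the closed form `-P`. -/
theorem jr_re (J I0 : ℂ) (W P e : ℝ) (hW : 0 < W) (h : ‖J - W * I0‖ ≤ (e + 9 / 1000) * W)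
    (hI : ‖I0 - ((-P : ℝ) : ℂ)‖ ≤ 1 / 1000) (hP : e + 10 / 1000 < P) : J.re < 0 := by
  have h1 : ‖J - ((-(W * P) : ℝ) : ℂ)‖ ≤ (e + 10 / 1000) * W := by
    have e1 : J - ((-(W * P) : ℝ) : ℂ) = (J - W * I0) + W * (I0 - ((-P : ℝ) : ℂ)) := by
      push_cast; ring
    rw [e1]
    refine (norm_add_le _ _).trans ?_
    rw [norm_mul, Complex.norm_real, Real.norm_eq_abs, abs_of_pos hW]
    have := mul_le_mul_of_nonneg_left hI hW.le
    linarith
  have h2 := (abs_re_le_norm (J - ((-(W * P) : ℝ) : ℂ))).trans h1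
  rw [Complex.sub_re, Complex.ofReal_re] at h2
  have h3 := (abs_le.1 h2).2
  nlinarith

end Pool.Agent.Helper21_UR
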