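import Pool.Agent.Helper21_UR.ASM

/-!
# Assembly of the proof, second part (MP_c97607_co)
-/

namespace Pool.Agent.Helper21_UR

open Complex MeasureTheory

/-- Existence of `t0` with the tie. -/
theorem tie_exists (X : ℝ) (hX : 8225 ≤ X) :
    ∃ t : ℝ, 0 < t ∧ t ≤ 1 / 50 ∧ 3 * t ^ 2 * X = Real.pi ^ 2 := by
  have hpi := Real.pi_pos
  have hpi2 : Real.pi < 3.1416 := Real.pi_lt_d4
  have hX0 : 0 < X := by linarith
  refine ⟨Real.pi / Real.sqrt (3 * X), by positivity, ?_, ?_⟩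
  · rw [div_le_iff₀ (by positivity)]
    have h1 : (157.08 : ℝ) ≤ Real.sqrt (3 * X) := Real.le_sqrt_of_sq_le (by nlinarith)
    linarith
  · rw [div_pow, Real.sq_sqrt (by positivity)]
    field_simp

theorem large_A (hC : ContStatement) (hS : SplitStatement) (hR : R1Statement) (h1 : T1Statement)
    (h2 : T2Statement) (h3 : T3Statement) (h4 : T4Statement) (h5 : T5Statement)
    (hCl : ClosedStatement) (hN : AnumStatement) (m n : ℕ) (t0 : ℝ) (hn : 1 ≤ n) (h0 : 0 < t0)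
    (h50 : t0 ≤ 1 / 50) (ht : Tie (1 / 2) t0 m n) (hx : m * t0 ≤ 31 / 20) :
    ∃ c : ℝ, SS c m n < 0 := by
  have hx0 : 0 ≤ m * t0 := by positivity
  have hW := W0_pos t0 h0
  by_cases hx1 : m * t0 ≤ 1 / 5
  · refine ⟨-3 / 10 * t0, ?_⟩
    have hb := jr_bound hC hR h1 h2 h3 h4 h5 (1 / 2) (-3 / 10) (1 / 20) t0 m n h0 h50 ht
      (Or.inl rfl)
    have hc := (hCl (m * t0) hx0 _ rfl).1
    have hp := hN.1 (m * t0) hx0 hx1 _ rfl
    have := jr_re _ _ _ _ _ hW hb hc (by linarith)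
    rw [← hS.1 t0 (-3 / 10 * t0) m n h0 hn] at this
    simpa using this
  · refine ⟨-1 / 2 * t0, ?_⟩
    have hb := jr_bound hC hR h1 h2 h3 h4 h5 (1 / 2) (-1 / 2) (1 / 20) t0 m n h0 h50 ht
      (Or.inr (Or.inl rfl))
    have hc := (hCl (m * t0) hx0 _ rfl).2.1
    have hp := hN.2.1 (m * t0) (by linarith) hx _ rfl
    have := jr_re _ _ _ _ _ hW hb hc (by linarith)
    rw [← hS.1 t0 (-1 / 2 * t0) m n h0 hn] at this
    simpa using this

theorem large_A2 (hC : ContStatement) (hS : SplitStatement) (hR : R1Statement) (h1 : T1Statement)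
    (h2 : T2Statement) (h3 : T3Statement) (h4 : T4Statement) (h5 : T5Statement)
    (hCl : ClosedStatement) (hN : AnumStatement) (m N : ℕ) (t0 t1 : ℝ) (hn : 1 ≤ N) (h0 : 0 < t0)
    (h50 : t0 ≤ 1 / 50) (ht : Tie (3 / 2) t0 m (N + m)) (hx : 31 / 20 ≤ m * t0)
    (hx' : m * t0 ≤ 4) (h01 : 0 < t1) (hS0 : (S0i t1 (-t0) N).re ≤ 0) :
    ∃ c : ℝ, SS c m (N + m) < 0 := by
  have hx0 : 0 ≤ m * t0 := by positivity
  have hW := W0_pos t0 h0
  refine ⟨-t0, ?_⟩
  have hb := jr_bound hC hR h1 h2 h3 h4 h5 (3 / 2) (-1) (17 / 100) t0 m (N + m) h0 h50 ht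
    (Or.inr (Or.inr rfl))
  have hc := (hCl (m * t0) hx0 _ rfl).2.2
  have hp := hN.2.2 (m * t0) hx hx' _ rfl
  have hJ := jr_re _ _ _ _ _ hW hb hc (by linarith)
  have hs := congrArg Complex.re (hS.2.1 t0 t1 (-t0) m N h0 h01 hn)
  rw [Complex.ofReal_re, Complex.add_re] at hs
  rw [neg_one_mul] at hJ
  linarith

theorem large_B (hS : SplitStatement) (hB0 : B0Statement) (hB1 : B1Statement)
    (hB2 : B2Statement) (m N : ℕ) (t0 : ℝ) (hn : 1 ≤ N) (h0 : 0 < t0) (h50 : t0 ≤ 1 / 50)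
    (ht : 3 * t0 ^ 2 * ((N : ℝ) - 1 / 12) = Real.pi ^ 2) (hx : 39 / 10 ≤ m * t0) :
    ∃ c : ℝ, SS c m (N + m) < 0 := by
  have hW := W0_pos t0 h0
  have hz := zz_ge t0 h0 h50
  have hz0 : 0 < zz t0 := by linarith
  refine ⟨-t0, ?_⟩
  have a0 := (hB0 t0 (-t0) N h0 h50 ht).2 rfl
  have a1 := hB1 t0 m N h0 h50 ht hx
  have a2 := hB2 t0 m N h0 h50 ht hx
  have hs := congrArg Complex.re (hS.2.2 t0 (-t0) m N h0 hn)
  rw [Complex.ofReal_re, Complex.add_re, Complex.add_re] at hs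
  have r2 := (abs_re_le_norm (S2i t0 (-t0) m (N + m))).trans a2
  have r2' := (abs_le.1 r2).2
  have hE : 0 < Real.exp (-(m * t0)) := Real.exp_pos _
  have hWz : 0 < W0 t0 / zz t0 := by positivity
  have hWE : 0 < W0 t0 * Real.exp (-(m * t0)) := by positivity
  have ea : 0.7 * W0 t0 / zz t0 = 0.7 * (W0 t0 / zz t0) := by ring
  rw [ea] at a0
  by_cases hl : m * t0 ≤ Real.log (zz t0) + 1.6
  · have b1 := a1.2 hl
    nlinarith
  · have r1 := (abs_re_le_norm (S1i t0 (-t0) m (N + m))).trans a1.1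
    have r1' := (abs_le.1 r1).2
    push Not at hl
    have h2 : Real.exp (-(m * t0)) ≤ (zz t0)⁻¹ * Real.exp (-1.6) := by
      have : Real.exp (-(m * t0)) ≤ Real.exp (-(Real.log (zz t0)) + (-1.6)) :=
        Real.exp_le_exp.2 (by linarith)
      rwa [Real.exp_add, Real.exp_neg (Real.log _), Real.exp_log hz0] at this
    have h3 : Real.exp (-1.6) ≤ 0.21 := by
      have e1 : Real.exp (1.6 : ℝ) = Real.exp 1 * Real.exp 0.6 := by
        rw [← Real.exp_add]; norm_num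
      have e2 : (1 : ℝ) + 0.6 + 0.6 ^ 2 / 2 ≤ Real.exp 0.6 := Real.quadratic_le_exp_of_nonneg (by norm_num)
      have e3 := Real.exp_one_gt_d9
      rw [Real.exp_neg, inv_le_comm₀ (Real.exp_pos _) (by norm_num), e1]
      have e4 : (2.71 : ℝ) * 1.78 ≤ Real.exp 1 * Real.exp 0.6 :=
        mul_le_mul (by linarith) (by linarith) (by norm_num) (Real.exp_pos _).le
      norm_num at e4 ⊢
      linarith
    have h4 : W0 t0 * Real.exp (-(m * t0)) ≤ 0.21 * (W0 t0 / zz t0) := by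
      have h5 : (zz t0)⁻¹ * Real.exp (-1.6) ≤ (zz t0)⁻¹ * 0.21 :=
        mul_le_mul_of_nonneg_left h3 (by positivity)
      calc W0 t0 * Real.exp (-(m * t0)) ≤ W0 t0 * ((zz t0)⁻¹ * 0.21) :=
            mul_le_mul_of_nonneg_left (h2.trans h5) hW.le
        _ = 0.21 * (W0 t0 / zz t0) := by ring
    nlinarith

/-- The range `N = n - m ≥ 8400`, `m ≥ 0`. -/
theorem large (hC : ContStatement) (hS : SplitStatement) (hR : R1Statement) (h1 : T1Statement)
    (h2 : T2Statement) (h3 : T3Statement) (h4 : T4Statement) (h5 : T5Statement)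
    (hCl : ClosedStatement) (hN : AnumStatement) (hB0 : B0Statement) (hB1 : B1Statement)
    (hB2 : B2Statement) (m N : ℕ) (hNN : 8400 ≤ N) : ∃ c : ℝ, SS c m (N + m) < 0 := by
  have hNr : (8400 : ℝ) ≤ N := by exact_mod_cast hNN
  have hm0 : (0 : ℝ) ≤ m := by positivity
  have hpi := Real.pi_pos
  have hpi3 := Real.pi_gt_three
  have hpi4 : Real.pi < 3.1416 := Real.pi_lt_d4
  obtain ⟨ta, ha0, ha50, hat⟩ := tie_exists ((N : ℝ) + m / 2 - 1 / 12) (by linarith)
  by_cases hxa : m * ta ≤ 31 / 20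
  · refine large_A hC hS hR h1 h2 h3 h4 h5 hCl hN m (N + m) ta (by omega) ha0 ha50 ?_ hxa
    unfold Tie
    rw [← hat]; push_cast; ring
  push Not at hxa
  obtain ⟨tn, hn0, hn50, hnt⟩ := tie_exists ((N : ℝ) - 1 / 12) (by linarith)
  by_cases hxn : 39 / 10 ≤ m * tn
  · exact large_B hS hB0 hB1 hB2 m N tn (by omega) hn0 hn50 hnt hxn
  push Not at hxn
  -- middle region
  set Y : ℝ := (N : ℝ) - 1 / 12 with hY
  have hY0 : 8399 ≤ Y := by rw [hY]; linarith
  -- m/2 ≤ 0.012 Y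
  have hm1 : (m : ℝ) / 2 * (Real.pi ^ 2) ≤ 3 / 2 * 3.9 * tn * Y := by
    have : (m : ℝ) / 2 * (Real.pi ^ 2) = 3 / 2 * (m * tn) * tn * Y := by rw [← hnt]; ring
    rw [this]
    have : 0 ≤ tn * Y := by positivity
    nlinarith
  have hm2 : (m : ℝ) / 2 ≤ 0.65 * tn * Y := by
    have h9 : (9 : ℝ) ≤ Real.pi ^ 2 := by nlinarith
    have : 0 ≤ tn * Y := by positivity
    nlinarith [mul_nonneg hm0 (sub_nonneg.2 h9)]
  have hm3 : (m : ℝ) / 2 ≤ 0.013 * Y := by
    have : 0.65 * tn ≤ 0.013 := by linarith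
    nlinarith
  obtain ⟨tc, hc0, hc50, hct⟩ := tie_exists (Y - m / 2) (by linarith)
  have hrel : tc ^ 2 * (Y - m / 2) = tn ^ 2 * Y := by linarith
  have htc1 : tn ≤ tc := by
    by_contra hlt
    push Not at hlt
    have : tc ^ 2 < tn ^ 2 := by nlinarith
    have hYm : 0 < Y - m / 2 := by linarith
    nlinarith [mul_lt_mul_of_pos_right this hYm, mul_nonneg (sq_nonneg tn) hm0]
  -- upper bound for tc
  have htc2 : tc ≤ tn * (1 + 0.4 * tn) := by
    by_contra hlt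
    push Not at hlt
    have hsq : (tn * (1 + 0.4 * tn)) ^ 2 < tc ^ 2 := by
      apply pow_lt_pow_left₀ hlt (by positivity) (by norm_num)
    have hYm : 0 < Y - m / 2 := by linarith
    have h6 := mul_lt_mul_of_pos_right hsq hYm
    rw [hrel] at h6
    have h7 : (1 + 0.4 * tn) ^ 2 * (Y - m / 2) < Y := by
      have h8 : tn ^ 2 * ((1 + 0.4 * tn) ^ 2 * (Y - m / 2)) < tn ^ 2 * Y := by linarith
      exact lt_of_mul_lt_mul_left h8 (by positivity)
    have h9 : (1 + 0.4 * tn) ^ 2 * (Y - 0.65 * tn * Y) ≤ (1 + 0.4 * tn) ^ 2 * (Y - m / 2) :=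
      mul_le_mul_of_nonneg_left (by linarith) (by positivity)
    have h10 : (1 : ℝ) ≤ (1 + 0.4 * tn) ^ 2 * (1 - 0.65 * tn) := by nlinarith [mul_pos hn0 hn0]
    nlinarith
  have hxc1 : 31 / 20 ≤ m * tc := by
    have : ta ≤ tc := by
      by_contra hlt
      push Not at hlt
      have h6 : tc ^ 2 < ta ^ 2 := by nlinarith
      have hYm : 0 < Y - m / 2 := by linarith
      have h7 : ta ^ 2 * (Y + m / 2) = tc ^ 2 * (Y - m / 2) := by
        have e1 : 3 * ta ^ 2 * (Y + m / 2) = Real.pi ^ 2 := by rw [← hat, hY]; ring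
        linarith
      nlinarith [mul_lt_mul_of_pos_right h6 hYm, mul_nonneg (sq_nonneg ta) hm0]
    nlinarith
  have hxc2 : m * tc ≤ 4 := by
    have : m * tc ≤ m * tn * (1 + 0.4 * tn) := by
      have := mul_le_mul_of_nonneg_left htc2 hm0
      linarith
    have h11 : 1 + 0.4 * tn ≤ 1.008 := by linarith
    have h12 : 0 ≤ m * tn := by positivity
    nlinarith
  have hS0 : (S0i tn (-tc) N).re ≤ 0 := by
    refine (hB0 tn (-tc) N hn0 hn50 hnt).1 ?_
    rw [abs_le]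
    constructor <;> nlinarith
  refine large_A2 hC hS hR h1 h2 h3 h4 h5 hCl hN m N tc tn (by omega) hc0 hc50 ?_ hxc1 hxc2 hn0 hS0
  unfold Tie
  rw [← hct, hY]; push_cast; ring

/-- The main theorem from the modules. -/
theorem main_of (hSy : SymmStatement) (hF : FinStatement) (hC : ContStatement)
    (hS : SplitStatement) (hR : R1Statement) (h1 : T1Statement)
    (h2 : T2Statement) (h3 : T3Statement) (h4 : T4Statement) (h5 : T5Statement)
    (hCl : ClosedStatement) (hN : AnumStatement) (hB0 : B0Statement) (hB1 : B1Statement)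
    (hB2 : B2Statement) : MainStatement := by
  have key : ∀ (m n : ℕ), 37 ≤ n → m + 23 ≤ n →
      u ((m : ℤ) - 1) n * u ((m : ℤ) + 1) n < u (m : ℤ) n ^ 2 := by
    intro m n hn hm
    by_cases hlt : n < m + 8400
    · exact hF m n hn hm hlt
    · obtain ⟨N, rfl⟩ : ∃ N, n = N + m := ⟨n - m, by omega⟩
      obtain ⟨c, hc⟩ := large hC hS hR h1 h2 h3 h4 h5 hCl hN hB0 hB1 hB2 m N (by omega)
      exact amgm c m (N + m) hc
  intro n m hn hm
  rcases le_total 0 m with h | h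
  · obtain ⟨k, rfl⟩ := Int.eq_ofNat_of_zero_le h
    refine key k n hn ?_
    rw [abs_of_nonneg h] at hm
    omega
  · obtain ⟨k, hk⟩ := Int.eq_ofNat_of_zero_le (neg_nonneg.2 h)
    have hmk : m = -(k : ℤ) := by omega
    subst hmk
    rw [abs_of_nonpos h] at hm
    have := key k n hn (by omega)
    have e1 : u (-(k : ℤ) - 1) n = u ((k : ℤ) + 1) n := by
      rw [← hSy ((k : ℤ) + 1) n]; congr 1; ring
    have e2 : u (-(k : ℤ) + 1) n = u ((k : ℤ) - 1) n := by
      rw [← hSy ((k : ℤ) - 1) n]; congr 1; ring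
    rw [e1, e2, hSy, mul_comm]
    exact this

end Pool.Agent.Helper21_UR
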