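import Pool.Agent.Helper21_UR.B0

/-!
# Module B1 (MP_c97607_co)
-/

namespace Pool.Agent.Helper21_UR

open Complex MeasureTheory intervalIntegral

theorem ptNear (hP : Ptb1Statement) (t0 v : ℝ) (h0 : 0 < t0) (h50 : t0 ≤ 1 / 50)
    (hv : |v| ≤ 3 / 10) :
    ‖2 * pt (cexp (-tt t0 (t0 * v))) (cexp (-tt t0 (t0 * v)) ^ 4) - 1‖ ≤ 0.0652 := by
  set t : ℂ := tt t0 (t0 * v) with ht
  have hv2 : v ^ 2 ≤ 9 / 100 := by rw [← sq_abs]; nlinarith [abs_nonneg v]
  have htn : ‖t‖ ≤ 0.0209 := (tt_norm t0 v 1.045 h0 (by norm_num) (by nlinarith)).trans (by linarith)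
  have htre : t.re = t0 := tt_re _ _
  have hqn : ‖cexp (-t)‖ ≤ 1 := by
    rw [Complex.norm_exp, Complex.neg_re, htre]
    exact Real.exp_le_one_iff.2 (by linarith)
  have hzn : ‖cexp (-t) ^ 4‖ ≤ 1 := by
    rw [norm_pow]; exact pow_le_one₀ (norm_nonneg _) hqn
  have harg : |arg (cexp (-t) ^ 4)| ≤ 1 / 4 := by
    have e : cexp (-t) ^ 4 = cexp (-(((4 : ℕ) : ℂ) * t)) := q_pow _ _ _
    have him : (-(((4 : ℕ) : ℂ) * t)).im = -(4 * (t0 * v)) := by
      rw [Complex.neg_im]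
      have htim : t.im = t0 * v := tt_im _ _
      have : (((4 : ℕ) : ℂ) * t).im = 4 * (t0 * v) := by
        rw [Complex.mul_im, htim]; simp
      rw [this]
    have hsmall : |(-(((4 : ℕ) : ℂ) * t)).im| ≤ 1 / 40 := by
      rw [him, abs_neg, abs_mul, abs_mul, abs_of_pos h0, abs_of_pos (by norm_num : (0:ℝ) < 4)]
      have : t0 * |v| ≤ 1 / 50 * (3 / 10) := by gcongr
      linarith
    rw [e, arg_exp_eq _ (hsmall.trans (by norm_num))]
    exact hsmall.trans (by norm_num)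
  have h1 := hP t0 v (cexp (-t) ^ 4) h0 h50 hv hzn harg (cexp (-t)) rfl
  have hq2 : cexp (-t) * cexp (-t) ^ 4 = cexp (-(((5 : ℕ) : ℂ) * t)) := by
    rw [← q_pow, pow_succ]; ring
  rw [hq2] at h1
  set w : ℂ := cexp (-(((5 : ℕ) : ℂ) * t)) with hw
  have hw1 : ‖1 - w‖ ≤ 5 * 0.0209 := by
    have h1 := one_sub_exp_le (((5 : ℕ) : ℂ) * t) (by
      rw [Complex.mul_re, htre]; simp; linarith)
    refine h1.trans ?_
    rw [norm_mul, Complex.norm_natCast]
    push_cast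
    gcongr
  have hw2 : 2 - 5 * 0.0209 ≤ ‖1 + w‖ := by
    have : (2 : ℂ) = (1 + w) + (1 - w) := by ring
    have h3 : ‖(2 : ℂ)‖ ≤ ‖1 + w‖ + ‖1 - w‖ := by
      conv_lhs => rw [this]
      exact norm_add_le _ _
    rw [show ‖(2 : ℂ)‖ = 2 by simp] at h3
    linarith
  have hne : (1 + w) ≠ 0 := by
    intro h; rw [h, norm_zero] at hw2; linarith
  have e : 2 * pt (cexp (-t)) (cexp (-t) ^ 4) - 1 =
      2 * (pt (cexp (-t)) (cexp (-t) ^ 4) - 1 / (1 + w)) + (1 - w) / (1 + w) := by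
    field_simp; ring
  rw [e]
  refine (norm_add_le _ _).trans ?_
  rw [norm_mul, norm_div, show ‖(2 : ℂ)‖ = 2 by simp]
  have h5 : ‖1 - w‖ / ‖1 + w‖ ≤ 5 * 0.0209 / (2 - 5 * 0.0209) := by
    gcongr
  have h6 : (5 : ℝ) * 0.0209 / (2 - 5 * 0.0209) ≤ 0.0552 := by norm_num
  linarith

theorem exp_ia_pos (a : ℝ) (ha : 0 ≤ a) : ‖cexp (-(I * a)) - 1 + I * a‖ ≤ a ^ 2 / 2 := by
  have hd : ∀ s ∈ Set.uIcc (0 : ℝ) a, HasDerivAt (fun s : ℝ => cexp (-(I * s)) - 1 + I * s)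
      (-I * (cexp (-(I * s)) - 1)) s := by
    intro s _
    have h1 : HasDerivAt (fun s : ℝ => (s : ℂ)) 1 s := Complex.ofRealCLM.hasDerivAt
    have h2 : HasDerivAt (fun s : ℝ => -(I * (s : ℂ))) (-(I * 1)) s := (h1.const_mul I).neg
    have h3 := h2.cexp
    have h4 := (h3.sub_const 1).add (h1.const_mul I)
    refine h4.congr_deriv ?_
    ring
  have hc : Continuous fun s : ℝ => -I * (cexp (-(I * s)) - 1) := by fun_prop
  have h := intervalIntegral.integral_eq_sub_of_hasDerivAt hd (hc.intervalIntegrable _ _)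
  have e : cexp (-(I * a)) - 1 + I * a = ∫ s in (0:ℝ)..a, -I * (cexp (-(I * s)) - 1) := by
    rw [h]; simp
  rw [e]
  have h2 := intervalIntegral.norm_integral_le_of_norm_le (f := fun s : ℝ => -I * (cexp (-(I * s)) - 1))
    (g := fun s : ℝ => s) (a := 0) (b := a) (μ := volume) ha
    (Filter.Eventually.of_forall fun s hs => by
      rw [norm_mul, norm_neg, norm_I, one_mul]
      have := Real.norm_exp_I_mul_ofReal_sub_one_le (x := -s)
      rw [show -(I * (s : ℂ)) = I * ((-s : ℝ) : ℂ) by push_cast; ring]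
      refine this.trans ?_
      rw [Real.norm_eq_abs, abs_neg, abs_of_pos hs.1]) (continuous_id.intervalIntegrable _ _)
  refine h2.trans (le_of_eq ?_)
  rw [integral_id]; ring

theorem exp_ia (a : ℝ) : ‖cexp (-(I * a)) - 1 + I * a‖ ≤ a ^ 2 / 2 := by
  rcases le_total 0 a with h | h
  · exact exp_ia_pos a h
  · have h1 := exp_ia_pos (-a) (by linarith)
    rw [← Complex.norm_conj]
    have e : (starRingEnd ℂ) (cexp (-(I * a)) - 1 + I * a) =
        cexp (-(I * ((-a : ℝ) : ℂ))) - 1 + I * ((-a : ℝ) : ℂ) := by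
      rw [map_add, map_sub, ← Complex.exp_conj]
      simp
    rw [e]
    refine h1.trans (le_of_eq (by ring))

/-- growth of the phase loss -/
theorem loss (z x : ℝ) (hz : 328.9 ≤ z) (hx0 : 0 ≤ x) (hx : x ≤ Real.log z + 1.6) :
    21.42 + 9.04 * x + 0.57 * x ^ 2 ≤ 0.38 * z := by
  have hz0 : 0 < z := by linarith
  set r := Real.sqrt z with hr
  have hr2 : r ^ 2 = z := Real.sq_sqrt hz0.le
  have hr0 : 0 < r := Real.sqrt_pos.2 hz0
  have hr1 : 18.13 ≤ r := by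
    rw [hr]; exact Real.le_sqrt_of_sq_le (by norm_num; linarith)
  have hlog : Real.log z = 2 * Real.log r := by
    rw [← hr2, Real.log_pow]; norm_num
  have h1 : Real.log r ≤ 2.92 + r / 18.13 - 1 := by
    have h2 : Real.log (r / 18.13) ≤ r / 18.13 - 1 := Real.log_le_sub_one_of_pos (by positivity)
    rw [Real.log_div hr0.ne' (by norm_num)] at h2
    have h3 : Real.log 18.13 ≤ 2.92 := by
      rw [Real.log_le_iff_le_exp (by norm_num)]
      have e3 : Real.exp 3 = Real.exp 1 ^ 3 := by rw [← Real.exp_nat_mul]; norm_num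
      have e4 : (2.718 : ℝ) ^ 3 ≤ Real.exp 1 ^ 3 :=
        pow_le_pow_left₀ (by norm_num) (by linarith [Real.exp_one_gt_d9]) 3
      have e5 : (0.92 : ℝ) ≤ Real.exp (-0.08) := by
        have := Real.one_sub_le_exp_neg 0.08
        linarith
      have e6 : Real.exp (2.92 : ℝ) = Real.exp 3 * Real.exp (-0.08) := by
        rw [← Real.exp_add]; norm_num
      rw [e6, e3]
      have e7 : (2.718 : ℝ) ^ 3 * 0.92 ≤ Real.exp 1 ^ 3 * Real.exp (-0.08) :=
        mul_le_mul e4 e5 (by norm_num) (by positivity)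
      refine le_trans ?_ e7
      norm_num
    linarith
  set ξ := r / 18.13 with hξ
  have hξ1 : 1 ≤ ξ := by rw [hξ, le_div_iff₀ (by norm_num)]; linarith
  have hzξ : z = 328.6969 * ξ ^ 2 := by
    rw [hξ, ← hr2]; ring
  have hx1 : x ≤ 5.44 + 2 * ξ := by rw [hlog] at hx; linarith
  have hx2 : x ^ 2 ≤ (5.44 + 2 * ξ) ^ 2 := pow_le_pow_left₀ hx0 hx1 2
  rw [hzξ]
  nlinarith

theorem mainLoss (hLm : LapmStatement) (hL : Lap0Statement) (z x : ℝ) (hz : 328 ≤ z)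
    (hx : 3.9 ≤ x) :
    Real.sqrt (2 * Real.pi / z) * (1 - (21.42 + 9.04 * x + 0.57 * x ^ 2) * (1 / z)) ≤
    (∫ v in (-(3 / 10 : ℝ))..(3 / 10), (KK z v : ℂ) * cexp (I * psi z v) *
      (cexp (-(I * x * v)) * ((1 + (v : ℂ) * I) ^ 2 * (1 + 2 * (v : ℂ) * I) ^ 2))).re := by
  have hz0 : 0 < z := by linarith
  obtain ⟨l0, l1, -, -⟩ := hL z hz
  obtain ⟨-, m2, m4⟩ := mom_even hLm z hz
  set Rt := Real.sqrt (2 * Real.pi / z) with hRt
  have hRt0 : 0 ≤ Rt := Real.sqrt_nonneg _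
  have hK := KKe_continuous z
  set Φ : ℝ → ℂ := fun v => (KK z v : ℂ) * cexp (I * psi z v) with hΦ
  set G : ℝ → ℂ := fun v =>
    cexp (-(I * x * v)) * ((1 + (v : ℂ) * I) ^ 2 * (1 + 2 * (v : ℂ) * I) ^ 2) with hG
  have hGc : Continuous G := by rw [hG]; fun_prop
  set r : ℝ → ℂ := fun v => G v - 1 - (6 - x) * I * v with hr
  have hrc : Continuous r := by rw [hr]; fun_prop
  have e1 : (∫ v in (-(3 / 10 : ℝ))..(3 / 10), (KK z v : ℂ) * cexp (I * psi z v) *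
      (cexp (-(I * x * v)) * ((1 + (v : ℂ) * I) ^ 2 * (1 + 2 * (v : ℂ) * I) ^ 2))) =
      (∫ v in (-(3 / 10 : ℝ))..(3 / 10), Φ v) +
      ((6 - x) * I) * (∫ v in (-(3 / 10 : ℝ))..(3 / 10), Φ v * v) +
      (∫ v in (-(3 / 10 : ℝ))..(3 / 10), Φ v * r v) := by
    have i0 : IntervalIntegrable Φ volume (-(3 / 10 : ℝ)) (3 / 10) := hK.intervalIntegrable _ _
    have i1 : IntervalIntegrable (fun v : ℝ => Φ v * (v : ℂ)) volume (-(3 / 10 : ℝ)) (3 / 10) :=
      Continuous.intervalIntegrable (hK.mul (by fun_prop)) _ _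
    have i2 : IntervalIntegrable (fun v : ℝ => Φ v * r v) volume (-(3 / 10 : ℝ)) (3 / 10) :=
      Continuous.intervalIntegrable (hK.mul hrc) _ _
    rw [← intervalIntegral.integral_const_mul, ← intervalIntegral.integral_add i0 (i1.const_mul _),
      ← intervalIntegral.integral_add (i0.add (i1.const_mul _)) i2]
    congr 1
    ext v
    rw [hr, hG, hΦ]
    ring
  have hrb : ∀ v : ℝ, |v| ≤ 3 / 10 → ‖r v‖ ≤ (x ^ 2 / 2 + 6 * x + 13.36) * v ^ 2 + 104.1 * v ^ 4 := by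
    intro v hv
    set E : ℂ := cexp (-(I * x * v)) with hE
    have hEn : ‖E‖ = 1 := by
      rw [hE, show -(I * x * v) = ((-(x * v) : ℝ) : ℂ) * I by push_cast; ring]
      exact Complex.norm_exp_ofReal_mul_I _
    have b1 : ‖E - 1‖ ≤ x * |v| := by
      have := Real.norm_exp_I_mul_ofReal_sub_one_le (x := -(x * v))
      rw [hE, show -(I * x * v) = I * ((-(x * v) : ℝ) : ℂ) by push_cast; ring]
      refine this.trans ?_
      rw [Real.norm_eq_abs, abs_neg, abs_mul, abs_of_nonneg (by linarith : (0:ℝ) ≤ x)]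
    have b2 : ‖E - 1 + I * x * v‖ ≤ x ^ 2 * v ^ 2 / 2 := by
      have := exp_ia (x * v)
      rw [hE, show -(I * x * v) = -(I * ((x * v : ℝ) : ℂ)) by push_cast; ring,
        show I * (x : ℂ) * v = I * ((x * v : ℝ) : ℂ) by push_cast; ring]
      refine this.trans (le_of_eq (by ring))
    have hI2 : (I : ℂ) ^ 2 = -1 := I_sq
    have hI3 : (I : ℂ) ^ 3 = -I := by rw [show (I : ℂ) ^ 3 = I ^ 2 * I by ring, hI2]; ring
    have hI4 : (I : ℂ) ^ 4 = 1 := by rw [show (I : ℂ) ^ 4 = I ^ 2 * I ^ 2 by ring, hI2]; ring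
    have hh : (1 + (v : ℂ) * I) ^ 2 * (1 + 2 * (v : ℂ) * I) ^ 2 =
        1 + 6 * v * I + (-13 * v ^ 2 - 12 * v ^ 3 * I + 4 * v ^ 4) := by
      ring_nf
      rw [hI2, hI3, hI4]
      ring
    have e2 : r v = (E - 1 + I * x * v) + (-13 * (v : ℂ) ^ 2 - 12 * v ^ 3 * I + 4 * v ^ 4) * E +
        6 * v * I * (E - 1) := by
      rw [hr, hG]
      simp only
      rw [hh, ← hE]
      ring
    rw [e2]
    have n1 : ‖(-13 * (v : ℂ) ^ 2 - 12 * v ^ 3 * I + 4 * v ^ 4) * E‖ ≤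
        13 * v ^ 2 + 12 * |v| ^ 3 + 4 * v ^ 4 := by
      rw [norm_mul, hEn, mul_one]
      refine (norm_add_le _ _).trans ((add_le_add (norm_sub_le _ _) le_rfl).trans ?_)
      simp only [norm_mul, norm_neg, norm_pow, Complex.norm_real, norm_I, mul_one, Real.norm_eq_abs]
      have h13 : ‖(13 : ℂ)‖ = 13 := by simp
      have h12 : ‖(12 : ℂ)‖ = 12 := by simp
      have h4 : ‖(4 : ℂ)‖ = 4 := by simp
      rw [h13, h12, h4, sq_abs, show |v| ^ 4 = (|v| ^ 2) ^ 2 by ring, sq_abs]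
      apply le_of_eq; ring
    have n2 : ‖6 * (v : ℂ) * I * (E - 1)‖ ≤ 6 * x * v ^ 2 := by
      rw [norm_mul, norm_mul, norm_mul, norm_I, mul_one, Complex.norm_real, Real.norm_eq_abs]
      have h6 : ‖(6 : ℂ)‖ = 6 := by simp
      rw [h6]
      calc 6 * |v| * ‖E - 1‖ ≤ 6 * |v| * (x * |v|) := by gcongr
        _ = 6 * x * |v| ^ 2 := by ring
        _ = 6 * x * v ^ 2 := by rw [sq_abs]
    have n3 : |v| ^ 3 ≤ 0.03 * v ^ 2 + 8.34 * v ^ 4 := by
      have h1 : v ^ 2 = |v| ^ 2 := (sq_abs v).symm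
      have h2 : v ^ 4 = |v| ^ 4 := by rw [show v ^ 4 = (v ^ 2) ^ 2 by ring, h1]; ring
      rw [h1, h2]
      have h3 : 0 ≤ |v| := abs_nonneg v
      have h4 : 0 ≤ |v| ^ 2 * (|v| - 0.06) ^ 2 := by positivity
      nlinarith [pow_nonneg h3 4, pow_nonneg h3 2, pow_nonneg h3 3]
    refine (norm_add_le _ _).trans ((add_le_add (norm_add_le _ _) le_rfl).trans ?_)
    nlinarith
  have l2 : ‖∫ v in (-(3 / 10 : ℝ))..(3 / 10), Φ v * r v‖ ≤
      ((x ^ 2 / 2 + 6 * x + 13.36) * (1.14 * (1 / z)) + 104.1 * (3.73 * (1 / z) ^ 2)) * Rt := by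
    have i2 : IntervalIntegrable (fun v : ℝ => KK z v * v ^ 2) volume (-(3 / 10 : ℝ)) (3 / 10) :=
      Continuous.intervalIntegrable ((KK_continuous z).mul (continuous_pow 2)) _ _
    have i4 : IntervalIntegrable (fun v : ℝ => KK z v * v ^ 4) volume (-(3 / 10 : ℝ)) (3 / 10) :=
      Continuous.intervalIntegrable ((KK_continuous z).mul (continuous_pow 4)) _ _
    have := intervalIntegral.norm_integral_le_of_norm_le (f := fun v => Φ v * r v)
      (g := fun v => (x ^ 2 / 2 + 6 * x + 13.36) * (KK z v * v ^ 2) + 104.1 * (KK z v * v ^ 4))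
      (a := -(3 / 10 : ℝ)) (b := 3 / 10) (μ := volume) (by norm_num)
      (Filter.Eventually.of_forall fun v hv => by
        have hv' : |v| ≤ 3 / 10 := abs_le.2 ⟨hv.1.le, hv.2⟩
        rw [hΦ]
        simp only
        rw [norm_mul, norm_mul, Complex.norm_real, mul_comm I, Complex.norm_exp_ofReal_mul_I,
          Real.norm_of_nonneg (KK_pos _ _).le, mul_one]
        have := mul_le_mul_of_nonneg_left (hrb v hv') (KK_pos z v).le
        linarith) ((i2.const_mul _).add (i4.const_mul _))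
    rw [intervalIntegral.integral_add (i2.const_mul _) (i4.const_mul _),
      intervalIntegral.integral_const_mul, intervalIntegral.integral_const_mul] at this
    refine this.trans ?_
    have c1 : 0 ≤ x ^ 2 / 2 + 6 * x + 13.36 := by positivity
    have := mul_le_mul_of_nonneg_left m2 c1
    nlinarith
  rw [e1]
  simp only [Complex.add_re]
  set a := 1 / z with ha
  have ha0 : 0 < a := by positivity
  have ha1 : a ≤ 1 / 328 := by rw [ha]; exact one_div_le_one_div_of_le (by norm_num) hz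
  have e5 : 5 / z = 5 * a := by rw [ha]; ring
  have e22 : 2.2 / z = 2.2 * a := by rw [ha]; ring
  rw [e5] at l0
  rw [e22] at l1
  set L0 := ∫ v in (-(3 / 10 : ℝ))..(3 / 10), Φ v
  set L1 := ∫ v in (-(3 / 10 : ℝ))..(3 / 10), Φ v * (v : ℂ)
  set L2 := ∫ v in (-(3 / 10 : ℝ))..(3 / 10), Φ v * r v
  have t0 : Rt * (1 - 5 * a) ≤ L0.re := by
    have r := (abs_le.1 ((abs_re_le_norm (L0 - (Rt : ℂ))).trans l0)).1
    rw [Complex.sub_re, Complex.ofReal_re] at r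
    linarith
  have t1 : -(2.2 * x * a * Rt) ≤ (((6 - x) * I) * L1 : ℂ).re := by
    have h1 : ‖(((6 - x) * I) * L1 : ℂ)‖ ≤ 2.2 * x * a * Rt := by
      rw [norm_mul, norm_mul, norm_I, mul_one]
      have : ‖(6 - (x : ℂ))‖ ≤ x := by
        rw [show (6 - (x : ℂ)) = ((6 - x : ℝ) : ℂ) by push_cast; ring, Complex.norm_real,
          Real.norm_eq_abs, abs_le]
        constructor <;> linarith
      calc ‖(6 - (x : ℂ))‖ * ‖L1‖ ≤ x * (2.2 * a * Rt) := by gcongr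
        _ = 2.2 * x * a * Rt := by ring
    have := (abs_le.1 ((abs_re_le_norm _).trans h1)).1
    exact this
  have t2 := (abs_le.1 ((abs_re_le_norm _).trans l2)).1
  have h9 : 104.1 * (3.73 * a ^ 2) * Rt ≤ 1.19 * a * Rt := by
    have : 0 ≤ a * Rt := by positivity
    have h10 : 104.1 * 3.73 * a ≤ 1.19 := by
      have : (1 : ℝ) / 328 ≤ 0.00305 := by norm_num
      linarith
    nlinarith
  nlinarith

/-- R for B1 -/
noncomputable def R1f (t0 : ℝ) (m : ℕ) (θ : ℝ) : ℂ :=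
  -(cexp (-((m : ℂ) * tt t0 θ)) * cexp (-(((3 : ℕ) : ℂ) * tt t0 θ)) *
    (1 - cexp (-(((2 : ℕ) : ℂ) * tt t0 θ))) *
    pt (cexp (-tt t0 θ)) (cexp (-tt t0 θ) ^ 4) *
    (4 * sinh ((((-t0 : ℝ) : ℂ) + 2 * tt t0 θ) / 2) ^ 2))

theorem R1f_sk (t0 : ℝ) (m N : ℕ) (θ : ℝ) :
    (QP (cexp (-tt t0 θ)))⁻¹ ^ 2 * cexp (((N + m : ℕ) : ℂ) * tt t0 θ) * sk (tt t0 θ) (-t0) m 1 =
    (QP (cexp (-tt t0 θ)))⁻¹ ^ 2 * cexp ((N : ℂ) * tt t0 θ) * R1f t0 m θ := by
  unfold R1f sk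
  set t := tt t0 θ
  have e1 : cexp (-t) ^ ((1 + 1) * (m + 1) + 1 * (1 + 1) / 2) =
      cexp (-((2 * m + 3 : ℕ) * t)) := by
    rw [← Complex.exp_nat_mul]
    congr 1
    have : (1 + 1) * (m + 1) + 1 * (1 + 1) / 2 = 2 * m + 3 := by omega
    rw [this]; ring
  have e2 : cexp (-t) ^ (1 + 1) = cexp (-(((2 : ℕ) : ℂ) * t)) := by
    rw [← Complex.exp_nat_mul]; congr 1; push_cast; ring
  have e3 : cexp (((N + m : ℕ) : ℂ) * t) * cexp (-((2 * m + 3 : ℕ) * t)) =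
      cexp ((N : ℂ) * t) * (cexp (-((m : ℂ) * t)) * cexp (-(((3 : ℕ) : ℂ) * t))) := by
    rw [← Complex.exp_add, ← Complex.exp_add, ← Complex.exp_add]
    congr 1; push_cast; ring
  rw [e1, e2]
  norm_num at e3 ⊢
  linear_combination ((QP (cexp (-t)) ^ 2)⁻¹ * (1 - cexp (-(2 * t))) *
    pt (cexp (-t)) (cexp (-t) ^ 4) * (4 * sinh ((-(t0 : ℂ) + 2 * t) / 2) ^ 2)) * e3

/-- B1 -/
theorem b1 (hE : EtaStatement) (hM : MinorStatement) (hP1 : Ptb1Statement)
    (hP2 : Ptb2Statement) (hP3 : Ptb3Statement) (hLm : LapmStatement) (hL : Lap0Statement)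
    (hC : ContStatement) : B1Statement := by
  intro t0 m N h0 h50 ht hx
  have hpi := Real.pi_gt_three
  have hz := zz_lower t0 h0 h50
  have hz0 : 0 < zz t0 := by linarith
  have hRt := Rt_pos t0 h0
  have hW := W0_pos t0 h0
  set x : ℝ := m * t0 with hxd
  set E : ℝ := Real.exp (-x) with hEd
  have hE0 : 0 < E := Real.exp_pos _
  set H : ℝ → ℂ := fun θ => (QP (cexp (-tt t0 θ)))⁻¹ ^ 2 * cexp ((N : ℂ) * tt t0 θ) *
    R1f t0 m θ with hH
  have hS : S1i t0 (-t0) m (N + m) = 1 / (2 * (Real.pi : ℂ)) * ∫ θ in (-Real.pi)..Real.pi, H θ := by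
    unfold S1i
    congr 1
    apply intervalIntegral.integral_congr
    intro θ _
    exact R1f_sk t0 m N θ
  have hHc : Continuous H := by
    have h1 := hC.2.2.1 t0 (-t0) h0 m 1
    have h2 : Continuous fun θ : ℝ => cexp (((N + m : ℕ) : ℂ) * tt t0 θ) := by
      unfold tt; fun_prop
    have h3 := h2.mul h1
    refine h3.congr fun θ => ?_
    change cexp (((N + m : ℕ) : ℂ) * tt t0 θ) *
      ((QP (cexp (-tt t0 θ)))⁻¹ ^ 2 * sk (tt t0 θ) (-t0) m 1) = _
    rw [hH]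
    simp only
    rw [← R1f_sk]
    ring
  have hyv : ∀ v : ℝ, ((-t0 : ℝ) : ℂ) + 2 * tt t0 (t0 * v) = (t0 : ℂ) * (1 + 2 * (v : ℂ) * I) :=
    fun v => by rw [tt_eq]; push_cast; ring
  have hyn : ∀ v : ℝ, ‖((-t0 : ℝ) : ℂ) + 2 * tt t0 (t0 * v)‖ ^ 2 = t0 ^ 2 * (1 + 4 * v ^ 2) :=
    fun v => by
    rw [hyv, norm_mul, Complex.norm_real, Real.norm_of_nonneg h0.le, mul_pow]
    congr 1
    rw [← Complex.normSq_eq_norm_sq, Complex.normSq_apply]
    simp; ring
  have hynorm : ∀ v : ℝ, |v| ≤ 3 → ‖((-t0 : ℝ) : ℂ) + 2 * tt t0 (t0 * v)‖ ≤ 0.13 := fun v hv => by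
    have hv2 : v ^ 2 ≤ 9 := by rw [← sq_abs]; nlinarith [abs_nonneg v]
    have h1 := hyn v
    have h2 : t0 ^ 2 * (1 + 4 * v ^ 2) ≤ 0.13 ^ 2 := by
      have : t0 ^ 2 ≤ (1 / 50) ^ 2 := pow_le_pow_left₀ h0.le h50 2
      nlinarith [sq_nonneg v]
    rw [← h1] at h2
    exact le_of_sq_le_sq h2 (by norm_num)
  have hmn : ∀ θ : ℝ, ‖cexp (-((m : ℂ) * tt t0 θ))‖ = E := fun θ => by
    rw [Complex.norm_exp, hEd]
    congr 1
    rw [Complex.neg_re, Complex.mul_re, tt_re]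
    simp [hxd]
  have h3n : ∀ θ : ℝ, ‖cexp (-(((3 : ℕ) : ℂ) * tt t0 θ))‖ ≤ 1 := fun θ => by
    rw [Complex.norm_exp]
    apply Real.exp_le_one_iff.2
    rw [Complex.neg_re, Complex.mul_re, tt_re]
    simp; linarith
  have h2n : ∀ θ : ℝ, ‖1 - cexp (-(((2 : ℕ) : ℂ) * tt t0 θ))‖ ≤ 2 * ‖tt t0 θ‖ := fun θ => by
    refine (one_sub_exp_le _ (by rw [Complex.mul_re, tt_re]; simp; linarith)).trans ?_
    rw [norm_mul]; simp
  -- normalised mid bounds
  have hmid : ∀ v : ℝ, 3 / 10 ≤ |v| → |v| ≤ 3 / 5 → ‖R1f t0 m (t0 * v)‖ ≤ t0 ^ 3 / 2 * (11.6 * E) := by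
    intro v hv1 hv
    have hv2 : v ^ 2 ≤ 9 / 25 := by rw [← sq_abs]; nlinarith [abs_nonneg v]
    unfold R1f
    rw [norm_neg, norm_mul, norm_mul, norm_mul, norm_mul, hmn]
    have a1 := h3n (t0 * v)
    have a2 : ‖1 - cexp (-(((2 : ℕ) : ℂ) * tt t0 (t0 * v)))‖ ≤ 2 * (t0 * 1.17) :=
      (h2n _).trans (by
        have := tt_norm t0 v 1.17 h0 (by norm_num) (by nlinarith)
        gcongr)
    have a3 := ptA hP2 t0 v h0 h50 hv 2 le_rfl
    rw [show 2 * 2 = 4 from rfl] at a3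
    have a4 : ‖4 * sinh ((((-t0 : ℝ) : ℂ) + 2 * tt t0 (t0 * v)) / 2) ^ 2‖ ≤
        1.01 * (t0 ^ 2 * (1 + 4 * (9 / 25))) := by
      refine (sinh4_le _ ((hynorm v (by linarith)).trans (by norm_num))).trans ?_
      rw [hyn]
      gcongr
    calc E * ‖cexp (-(((3 : ℕ) : ℂ) * tt t0 (t0 * v)))‖ *
          ‖1 - cexp (-(((2 : ℕ) : ℂ) * tt t0 (t0 * v)))‖ *
          ‖pt (cexp (-tt t0 (t0 * v))) (cexp (-tt t0 (t0 * v)) ^ 4)‖ *
          ‖4 * sinh ((((-t0 : ℝ) : ℂ) + 2 * tt t0 (t0 * v)) / 2) ^ 2‖ ≤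
        E * 1 * (2 * (t0 * 1.17)) * 1 * (1.01 * (t0 ^ 2 * (1 + 4 * (9 / 25)))) := by gcongr
      _ = (2 * 1.17 * 1.01 * (1 + 4 * (9 / 25))) * (t0 ^ 3 * E) := by ring
      _ ≤ 5.8 * (t0 ^ 3 * E) := by
        refine mul_le_mul_of_nonneg_right (by norm_num) (by positivity)
      _ = t0 ^ 3 / 2 * (11.6 * E) := by ring
  have hmid2 : ∀ v : ℝ, 3 / 5 ≤ |v| → |v| ≤ 3 →
      ‖R1f t0 m (t0 * v)‖ ≤ t0 ^ 3 / 2 * ((474 * E) / t0) := by
    intro v hv1 hv
    have hv2 : v ^ 2 ≤ 9 := by rw [← sq_abs]; nlinarith [abs_nonneg v]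
    unfold R1f
    rw [norm_neg, norm_mul, norm_mul, norm_mul, norm_mul, hmn]
    have a1 := h3n (t0 * v)
    have a2 : ‖1 - cexp (-(((2 : ℕ) : ℂ) * tt t0 (t0 * v)))‖ ≤ 2 * (t0 * 3.17) :=
      (h2n _).trans (by
        have := tt_norm t0 v 3.17 h0 (by norm_num) (by nlinarith)
        gcongr)
    have a3 := ptB hP3 t0 (t0 * v) h0 h50 2 (by norm_num)
    rw [show 2 * 2 = 4 from rfl] at a3
    have a4 : ‖4 * sinh ((((-t0 : ℝ) : ℂ) + 2 * tt t0 (t0 * v)) / 2) ^ 2‖ ≤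
        1.01 * (t0 ^ 2 * (1 + 4 * 9)) := by
      refine (sinh4_le _ ((hynorm v hv).trans (by norm_num))).trans ?_
      rw [hyn]
      gcongr
    calc E * ‖cexp (-(((3 : ℕ) : ℂ) * tt t0 (t0 * v)))‖ *
          ‖1 - cexp (-(((2 : ℕ) : ℂ) * tt t0 (t0 * v)))‖ *
          ‖pt (cexp (-tt t0 (t0 * v))) (cexp (-tt t0 (t0 * v)) ^ 4)‖ *
          ‖4 * sinh ((((-t0 : ℝ) : ℂ) + 2 * tt t0 (t0 * v)) / 2) ^ 2‖ ≤
        E * 1 * (2 * (t0 * 3.17)) * (1 / t0) * (1.01 * (t0 ^ 2 * (1 + 4 * 9))) := by gcongr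
      _ = (2 * 3.17 * 1.01 * (1 + 4 * 9)) * (t0 ^ 2 * E) := by field_simp
      _ ≤ 237 * (t0 ^ 2 * E) := by
        refine mul_le_mul_of_nonneg_right (by norm_num) (by positivity)
      _ = t0 ^ 3 / 2 * ((474 * E) / t0) := by field_simp; norm_num
  have hmin : ∀ θ : ℝ, 3 * t0 ≤ |θ| → |θ| ≤ Real.pi → ‖R1f t0 m θ‖ ≤ (8.2 * E) / t0 := by
    intro θ _ _
    unfold R1f
    rw [norm_neg, norm_mul, norm_mul, norm_mul, norm_mul, hmn]
    have a1 := h3n θ
    have a2 : ‖1 - cexp (-(((2 : ℕ) : ℂ) * tt t0 θ))‖ ≤ 2 := by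
      refine (norm_sub_le _ _).trans ?_
      rw [norm_one]
      have : ‖cexp (-(((2 : ℕ) : ℂ) * tt t0 θ))‖ ≤ 1 := by
        rw [Complex.norm_exp]
        apply Real.exp_le_one_iff.2
        rw [Complex.neg_re, Complex.mul_re, tt_re]
        simp; linarith
      linarith
    have a3 := ptB hP3 t0 θ h0 h50 2 (by norm_num)
    rw [show 2 * 2 = 4 from rfl] at a3
    have a4 : ‖4 * sinh ((((-t0 : ℝ) : ℂ) + 2 * tt t0 θ) / 2) ^ 2‖ ≤ 4.1 := by
      apply sinh4_crude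
      have : (((-t0 : ℝ) : ℂ) + 2 * tt t0 θ).re = t0 := by
        rw [Complex.add_re, Complex.ofReal_re, Complex.mul_re, tt_re]; simp; ring
      rw [this, abs_of_pos h0]; linarith
    calc E * ‖cexp (-(((3 : ℕ) : ℂ) * tt t0 θ))‖ *
          ‖1 - cexp (-(((2 : ℕ) : ℂ) * tt t0 θ))‖ *
          ‖pt (cexp (-tt t0 θ)) (cexp (-tt t0 θ) ^ 4)‖ *
          ‖4 * sinh ((((-t0 : ℝ) : ℂ) + 2 * tt t0 θ) / 2) ^ 2‖ ≤
        E * 1 * 2 * (1 / t0) * 4.1 := by gcongr
      _ = (8.2 * E) / t0 := by field_simp; ring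
  obtain ⟨m0, m2, -⟩ := mom_even hLm (zz t0) (by linarith)
  have hKi := (KK_continuous (zz t0)).intervalIntegrable (μ := volume) (-(3 / 10 : ℝ)) (3 / 10)
  have hKi2 : IntervalIntegrable (fun v : ℝ => KK (zz t0) v * v ^ 2) volume
    (-(3 / 10 : ℝ)) (3 / 10) :=
    Continuous.intervalIntegrable ((KK_continuous (zz t0)).mul (continuous_pow 2)) _ _
  have hinv : 1 / zz t0 ≤ 1 / 328.9 := one_div_le_one_div_of_le (by norm_num) hz
  have htail : (0.003 * (11.6 * E) + 0.000001 * (474 * E) + 0.000001 * (8.2 * E)) / zz t0 ≤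
      0.0002 * E := by
    have e : (0.003 * (11.6 * E) + 0.000001 * (474 * E) + 0.000001 * (8.2 * E)) / zz t0 =
      (0.003 * 11.6 + 0.000001 * 474 + 0.000001 * 8.2) * E * (1 / zz t0) := by ring
    rw [e]
    calc (0.003 * 11.6 + 0.000001 * 474 + 0.000001 * 8.2) * E * (1 / zz t0) ≤
        (0.003 * 11.6 + 0.000001 * 474 + 0.000001 * 8.2) * E * (1 / 328.9) := by gcongr
      _ = ((0.003 * 11.6 + 0.000001 * 474 + 0.000001 * 8.2) / 328.9) * E := by ring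
      _ ≤ 0.0002 * E := mul_le_mul_of_nonneg_right (by norm_num) hE0.le
  constructor
  · -- upper bound
    have key := bcore hE hM t0 N h0 h50 ht H (R1f t0 m) (fun _ => 0)
      (fun v => 2.227 * E * (1 + 4 * v ^ 2)) (11.6 * E) (474 * E) (8.2 * E) hHc
      continuous_const (by fun_prop) (fun θ => rfl) ?_ hmid hmid2 hmin (by positivity)
      (by positivity) (by positivity)
    · rw [← hS] at key
      simp only [mul_zero, norm_zero, add_zero, intervalIntegral.integral_zero, sub_zero] at key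
      refine key.trans ?_
      have e3 : (∫ v in (-(3 / 10 : ℝ))..(3 / 10), KK (zz t0) v *
          (1.047 * (2.227 * E * (1 + 4 * v ^ 2)))) =
          2.331669 * E * (∫ v in (-(3 / 10 : ℝ))..(3 / 10), KK (zz t0) v) +
          9.326676 * E * (∫ v in (-(3 / 10 : ℝ))..(3 / 10), KK (zz t0) v * v ^ 2) := by
        rw [← intervalIntegral.integral_const_mul, ← intervalIntegral.integral_const_mul,
          ← intervalIntegral.integral_add (hKi.const_mul _) (hKi2.const_mul _)]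
        congr 1
        ext v
        ring
      rw [e3]
      set Rt := Real.sqrt (2 * Real.pi / zz t0) with hRtd
      have e4 : Rt⁻¹ * (2.331669 * E * (∫ v in (-(3 / 10 : ℝ))..(3 / 10), KK (zz t0) v) +
          9.326676 * E * (∫ v in (-(3 / 10 : ℝ))..(3 / 10), KK (zz t0) v * v ^ 2)) ≤ 2.49 * E := by
        rw [inv_mul_le_iff₀ hRt]
        have c1 : 2.331669 * E * (∫ v in (-(3 / 10 : ℝ))..(3 / 10), KK (zz t0) v) ≤
            2.331669 * E * (1.05 * Rt) := by gcongr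
        have c2 : 9.326676 * E * (∫ v in (-(3 / 10 : ℝ))..(3 / 10), KK (zz t0) v * v ^ 2) ≤
            9.326676 * E * (1.14 * (1 / 328.9) * Rt) := by
          refine mul_le_mul_of_nonneg_left (m2.trans ?_) (by positivity)
          gcongr
        have c3 : 0 < E * Rt := by positivity
        have c4 : 2.331669 * E * (1.05 * Rt) + 9.326676 * E * (1.14 * (1 / 328.9) * Rt) =
          (2.331669 * 1.05 + 9.326676 * 1.14 / 328.9) * (E * Rt) := by ring
        have c5 : (2.331669 * 1.05 + 9.326676 * 1.14 / 328.9 : ℝ) ≤ 2.49 := by norm_num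
        nlinarith
      calc W0 t0 * (Rt⁻¹ * (2.331669 * E * (∫ v in (-(3 / 10 : ℝ))..(3 / 10), KK (zz t0) v) +
          9.326676 * E * (∫ v in (-(3 / 10 : ℝ))..(3 / 10), KK (zz t0) v * v ^ 2)) +
          (0.003 * (11.6 * E) + 0.000001 * (474 * E) + 0.000001 * (8.2 * E)) / zz t0) ≤
          W0 t0 * (2.49 * E + 0.0002 * E) := by gcongr
        _ ≤ 2.5 * W0 t0 * E := by
          have : 0 < W0 t0 * E := by positivity
          nlinarith
    · intro v hv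
      have hv2 : v ^ 2 ≤ 9 / 100 := by rw [← sq_abs]; nlinarith [abs_nonneg v]
      rw [mul_zero, sub_zero]
      unfold R1f
      rw [norm_neg, norm_mul, norm_mul, norm_mul, norm_mul, hmn]
      have a1 := h3n (t0 * v)
      have a2 : ‖1 - cexp (-(((2 : ℕ) : ℂ) * tt t0 (t0 * v)))‖ ≤ 2 * (t0 * 1.045) :=
        (h2n _).trans (by
          have := tt_norm t0 v 1.045 h0 (by norm_num) (by nlinarith)
          gcongr)
      have a3 : ‖pt (cexp (-tt t0 (t0 * v))) (cexp (-tt t0 (t0 * v)) ^ 4)‖ ≤ 1.0652 / 2 := by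
        have h1 := ptNear hP1 t0 v h0 h50 hv
        have h2 : ‖2 * pt (cexp (-tt t0 (t0 * v))) (cexp (-tt t0 (t0 * v)) ^ 4)‖ ≤ 1.0652 := by
          have e : 2 * pt (cexp (-tt t0 (t0 * v))) (cexp (-tt t0 (t0 * v)) ^ 4) =
              (2 * pt (cexp (-tt t0 (t0 * v))) (cexp (-tt t0 (t0 * v)) ^ 4) - 1) + 1 := by ring
          rw [e]
          refine (norm_add_le _ _).trans ?_
          rw [norm_one]; linarith
        rw [norm_mul, show ‖(2 : ℂ)‖ = 2 by simp] at h2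
        linarith
      have a4 : ‖4 * sinh ((((-t0 : ℝ) : ℂ) + 2 * tt t0 (t0 * v)) / 2) ^ 2‖ ≤
          1.0001 * (t0 ^ 2 * (1 + 4 * v ^ 2)) := by
        have hy : ‖((-t0 : ℝ) : ℂ) + 2 * tt t0 (t0 * v)‖ ^ 2 ≤ 0.0009 := by
          rw [hyn]
          have : t0 ^ 2 ≤ (1 / 50) ^ 2 := pow_le_pow_left₀ h0.le h50 2
          nlinarith [sq_nonneg v]
        have h1 := sinh4_sub (((-t0 : ℝ) : ℂ) + 2 * tt t0 (t0 * v))
          ((hynorm v (by linarith)).trans (by norm_num))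
        have e : 4 * sinh ((((-t0 : ℝ) : ℂ) + 2 * tt t0 (t0 * v)) / 2) ^ 2 =
          (4 * sinh ((((-t0 : ℝ) : ℂ) + 2 * tt t0 (t0 * v)) / 2) ^ 2 -
            (((-t0 : ℝ) : ℂ) + 2 * tt t0 (t0 * v)) ^ 2) +
            (((-t0 : ℝ) : ℂ) + 2 * tt t0 (t0 * v)) ^ 2 := by ring
        rw [e]
        refine (norm_add_le _ _).trans ?_
        rw [norm_pow, ← hyn]
        set Y := ‖((-t0 : ℝ) : ℂ) + 2 * tt t0 (t0 * v)‖ with hY
        have : Y ^ 4 = Y ^ 2 * Y ^ 2 := by ring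
        rw [this] at h1
        nlinarith [sq_nonneg Y]
      calc E * ‖cexp (-(((3 : ℕ) : ℂ) * tt t0 (t0 * v)))‖ *
            ‖1 - cexp (-(((2 : ℕ) : ℂ) * tt t0 (t0 * v)))‖ *
            ‖pt (cexp (-tt t0 (t0 * v))) (cexp (-tt t0 (t0 * v)) ^ 4)‖ *
            ‖4 * sinh ((((-t0 : ℝ) : ℂ) + 2 * tt t0 (t0 * v)) / 2) ^ 2‖ ≤
          E * 1 * (2 * (t0 * 1.045)) * (1.0652 / 2) * (1.0001 * (t0 ^ 2 * (1 + 4 * v ^ 2))) := by
            gcongr
        _ = (1.045 * 1.0652 * 1.0001) * (t0 ^ 3 * (E * (1 + 4 * v ^ 2))) := by ring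
        _ ≤ 1.1135 * (t0 ^ 3 * (E * (1 + 4 * v ^ 2))) := by
          refine mul_le_mul_of_nonneg_right (by norm_num) (by positivity)
        _ = t0 ^ 3 / 2 * (2.227 * E * (1 + 4 * v ^ 2)) := by ring
  · -- real part
    intro hxl
    set g : ℝ → ℂ := fun v => -(2 * E : ℝ) * (cexp (-(I * x * v)) * (1 + 2 * (v : ℂ) * I) ^ 2) with hg
    have hgc : Continuous g := by rw [hg]; fun_prop
    have hgn : ∀ v : ℝ, ‖g v‖ = 2 * E * (1 + 4 * v ^ 2) := fun v => by
      rw [hg]; simp only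
      rw [norm_mul, norm_mul, norm_neg, Complex.norm_real, Real.norm_of_nonneg (by positivity),
        norm_pow, ← Complex.normSq_eq_norm_sq, Complex.normSq_apply,
        show -(I * x * v) = ((-(x * v) : ℝ) : ℂ) * I by push_cast; ring,
        Complex.norm_exp_ofReal_mul_I, one_mul]
      congr 1
      simp; ring
    have key := bcore hE hM t0 N h0 h50 ht H (R1f t0 m) g
      (fun v => 0.351 * E * (1 + 4 * v ^ 2)) (11.6 * E) (474 * E) (8.2 * E) hHc
      hgc (by fun_prop) (fun θ => rfl) ?_ hmid hmid2 hmin (by positivity)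
      (by positivity) (by positivity)
    · rw [← hS] at key
      have hre := (abs_le.1 ((abs_re_le_norm _).trans key)).2
      rw [Complex.sub_re] at hre
      set Rt := Real.sqrt (2 * Real.pi / zz t0) with hRtd
      have hml := mainLoss hLm hL (zz t0) x (by linarith) (by linarith)
      rw [← hRtd] at hml
      set J := ∫ v in (-(3 / 10 : ℝ))..(3 / 10), (KK (zz t0) v : ℂ) * cexp (I * psi (zz t0) v) *
        (1 + (v : ℂ) * I) ^ 2 * g v with hJ
      have e1 : ((W0 t0 : ℂ) * (Rt⁻¹ : ℝ) * J).re = W0 t0 * (Rt⁻¹ * J.re) := by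
        rw [← Complex.ofReal_mul, Complex.re_ofReal_mul]; ring
      rw [e1] at hre
      have e2 : J = ((-(2 * E) : ℝ) : ℂ) * ∫ v in (-(3 / 10 : ℝ))..(3 / 10),
          (KK (zz t0) v : ℂ) * cexp (I * psi (zz t0) v) *
          (cexp (-(I * x * v)) * ((1 + (v : ℂ) * I) ^ 2 * (1 + 2 * (v : ℂ) * I) ^ 2)) := by
        rw [hJ, ← intervalIntegral.integral_const_mul]
        congr 1
        ext v
        rw [hg]
        push_cast
        ring
      have hlo := loss (zz t0) x hz (by linarith) hxl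
      have hlo2 : (21.42 + 9.04 * x + 0.57 * x ^ 2) * (1 / zz t0) ≤ 0.38 := by
        rw [mul_one_div, div_le_iff₀ hz0]; exact hlo
      have e3 : J.re ≤ -(1.24 * E * Rt) := by
        rw [e2, Complex.re_ofReal_mul]
        have : Rt * 0.62 ≤ (∫ v in (-(3 / 10 : ℝ))..(3 / 10),
          (KK (zz t0) v : ℂ) * cexp (I * psi (zz t0) v) *
          (cexp (-(I * x * v)) * ((1 + (v : ℂ) * I) ^ 2 * (1 + 2 * (v : ℂ) * I) ^ 2))).re := by
          refine le_trans ?_ hml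
          apply mul_le_mul_of_nonneg_left _ hRt.le
          linarith
        nlinarith
      have e4 : (∫ v in (-(3 / 10 : ℝ))..(3 / 10), KK (zz t0) v *
          (1.047 * (0.351 * E * (1 + 4 * v ^ 2)) + 0.0011 * ‖g v‖)) ≤ 0.42 * E * Rt := by
        have e3 : (∫ v in (-(3 / 10 : ℝ))..(3 / 10), KK (zz t0) v *
          (1.047 * (0.351 * E * (1 + 4 * v ^ 2)) + 0.0011 * ‖g v‖)) =
          0.369697 * E * (∫ v in (-(3 / 10 : ℝ))..(3 / 10), KK (zz t0) v) +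
          1.478788 * E * (∫ v in (-(3 / 10 : ℝ))..(3 / 10), KK (zz t0) v * v ^ 2) := by
          rw [← intervalIntegral.integral_const_mul, ← intervalIntegral.integral_const_mul,
            ← intervalIntegral.integral_add (hKi.const_mul _) (hKi2.const_mul _)]
          congr 1
          ext v
          rw [hgn]
          ring
        rw [e3]
        have c1 : 0.369697 * E * (∫ v in (-(3 / 10 : ℝ))..(3 / 10), KK (zz t0) v) ≤
            0.369697 * E * (1.05 * Rt) := by gcongr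
        have c2 : 1.478788 * E * (∫ v in (-(3 / 10 : ℝ))..(3 / 10), KK (zz t0) v * v ^ 2) ≤
            1.478788 * E * (1.14 * (1 / 328.9) * Rt) := by
          refine mul_le_mul_of_nonneg_left (m2.trans ?_) (by positivity)
          gcongr
        have c3 : 0 < E * Rt := by positivity
        have c4 : 0.369697 * E * (1.05 * Rt) + 1.478788 * E * (1.14 * (1 / 328.9) * Rt) =
          (0.369697 * 1.05 + 1.478788 * 1.14 / 328.9) * (E * Rt) := by ring
        have c5 : (0.369697 * 1.05 + 1.478788 * 1.14 / 328.9 : ℝ) ≤ 0.42 := by norm_num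
        nlinarith
      have e5 : Rt⁻¹ * J.re ≤ -(1.24 * E) := by
        rw [inv_mul_le_iff₀ hRt]; linarith
      have e6 : Rt⁻¹ * (∫ v in (-(3 / 10 : ℝ))..(3 / 10), KK (zz t0) v *
          (1.047 * (0.351 * E * (1 + 4 * v ^ 2)) + 0.0011 * ‖g v‖)) ≤ 0.42 * E := by
        rw [inv_mul_le_iff₀ hRt]; linarith
      have e7 := mul_le_mul_of_nonneg_left e5 hW.le
      have e8 := mul_le_mul_of_nonneg_left (add_le_add e6 htail) hW.le
      have : 0 < W0 t0 * E := by positivity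
      nlinarith
    · intro v hv
      have hv2 : v ^ 2 ≤ 9 / 100 := by rw [← sq_abs]; nlinarith [abs_nonneg v]
      have hy : ‖((-t0 : ℝ) : ℂ) + 2 * tt t0 (t0 * v)‖ ≤ 0.03 := by
        have h1 := hyn v
        have h2 : t0 ^ 2 * (1 + 4 * v ^ 2) ≤ 0.03 ^ 2 := by
          have : t0 ^ 2 ≤ (1 / 50) ^ 2 := pow_le_pow_left₀ h0.le h50 2
          nlinarith [sq_nonneg v]
        rw [← h1] at h2
        exact le_of_sq_le_sq h2 (by norm_num)
      have f := fac hP1 t0 v h0 h50 hv 3 2 (by norm_num) le_rfl _ hy 0.0652 (by norm_num)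
      have hm : cexp (-((m : ℂ) * tt t0 (t0 * v))) = (E : ℂ) * cexp (-(I * x * v)) := by
        rw [hEd, Complex.ofReal_exp, ← Complex.exp_add, tt_eq, hxd]
        congr 1
        push_cast
        ring
      have e1 : R1f t0 m (t0 * v) - (t0 ^ 3 / 2 : ℝ) * (1 + (v : ℂ) * I) * g v =
          -(cexp (-((m : ℂ) * tt t0 (t0 * v))) / 2) *
          (cexp (-(((3 : ℕ) : ℂ) * tt t0 (t0 * v))) *
            (1 - cexp (-(((2 : ℕ) : ℂ) * tt t0 (t0 * v)))) *
          (2 * pt (cexp (-tt t0 (t0 * v))) (cexp (-tt t0 (t0 * v)) ^ (2 * 2))) *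
          (4 * sinh ((((-t0 : ℝ) : ℂ) + 2 * tt t0 (t0 * v)) / 2) ^ 2) -
          ((2 : ℕ) : ℂ) * tt t0 (t0 * v) * (((-t0 : ℝ) : ℂ) + 2 * tt t0 (t0 * v)) ^ 2) := by
        have hlast : -(cexp (-((m : ℂ) * tt t0 (t0 * v))) / 2) *
            (((2 : ℕ) : ℂ) * tt t0 (t0 * v) * (((-t0 : ℝ) : ℂ) + 2 * tt t0 (t0 * v)) ^ 2) =
            (t0 ^ 3 / 2 : ℝ) * (1 + (v : ℂ) * I) * g v := by
          rw [hyv, hm, tt_eq, hg]
          push_cast
          ring
        rw [mul_sub, hlast]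
        unfold R1f
        rw [show 2 * 2 = 4 from rfl]
        ring
      rw [e1, norm_mul, norm_neg, norm_div, hmn, show ‖(2 : ℂ)‖ = 2 by simp]
      have e2 : ‖((2 : ℕ) : ℂ) * tt t0 (t0 * v) * (((-t0 : ℝ) : ℂ) + 2 * tt t0 (t0 * v)) ^ 2‖ ≤
          2 * (t0 * 1.045) * (t0 ^ 2 * (1 + 4 * v ^ 2)) := by
        rw [norm_mul, norm_mul, norm_pow, hyn, Complex.norm_natCast]
        have := tt_norm t0 v 1.045 h0 (by norm_num) (by nlinarith)
        push_cast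
        gcongr
      have e3 : ((1 + ((3 : ℕ) : ℝ) * 0.0209) * (1 + ((2 : ℕ) : ℝ) * 0.0157) * (1 + 0.0652) * 1.0001 - 1 : ℝ) ≤
          0.1678 := by norm_num
      have e4 := f.trans (mul_le_mul e3 e2 (norm_nonneg _) (by norm_num))
      calc E / 2 * _ ≤ E / 2 * (0.1678 * (2 * (t0 * 1.045) * (t0 ^ 2 * (1 + 4 * v ^ 2)))) := by
            gcongr
        _ = (0.1678 * 1.045) * (t0 ^ 3 * (E * (1 + 4 * v ^ 2))) := by ring
        _ ≤ 0.1755 * (t0 ^ 3 * (E * (1 + 4 * v ^ 2))) := by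
          refine mul_le_mul_of_nonneg_right (by norm_num) (by positivity)
        _ = t0 ^ 3 / 2 * (0.351 * E * (1 + 4 * v ^ 2)) := by ring

end Pool.Agent.Helper21_UR
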