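import Pool.Agent.Helper21_UR.Defs

/-!
# Statements of the modules (MP_c97607_co)
-/

namespace Pool.Agent.Helper21_UR

open Complex MeasureTheory

/-! ## Part C: combinatorics -/

/-- SYMM -/
def SymmStatement : Prop := ∀ (m : ℤ) (n : ℕ), u (-m) n = u m n

/-- MONO: append a part `1` on the right. -/
def MonoStatement : Prop :=
  (∀ (m : ℤ) (n : ℕ), (Uni m n).Finite) ∧
  (∀ (m n : ℕ), u (m : ℤ) n ≤ u ((m : ℤ) + 1) (n + 1)) ∧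
  (∀ (m n : ℕ), n ≤ 2 * m + 2 → u (m : ℤ) n = u ((m : ℤ) + 1) (n + 1))

/-- UCOUNT -/
def UcountStatement : Prop :=
  ∀ (m n : ℕ), u (m : ℤ) n = ∑ c ∈ Finset.range n, ∑ r ∈ Finset.range (n + 1),
    ∑ p ∈ Finset.HasAntidiagonal.antidiagonal (n - 1 - c), Lc (c + 1) r p.1 * Lc (c + 1) (r + m) p.2

/-- GFU: generating function of `u(m, ·)`, `m ≥ 0`. -/
def GfuStatement : Prop :=
  ∀ (m : ℕ) (q : ℂ), ‖q‖ < 1 →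
    (∀ c : ℕ, Summable fun r : ℕ => ‖hh q (c + 1) r * hh q (c + 1) (r + m)‖) ∧
    HasSum (fun n : ℕ => (u (m : ℤ) n : ℂ) * q ^ n) (∑' c : ℕ, q ^ (c + 1) * Yf q (c + 1) m) ∧
    Summable (fun c : ℕ => ‖q ^ (c + 1) * Yf q (c + 1) m‖)

/-- QBIN: the finite q-binomial theorem. -/
def QbinStatement : Prop :=
  ∀ (q x : ℂ), ‖q‖ < 1 → ∀ n : ℕ, ∏ l ∈ Finset.range n, (1 - x * q ^ l) =
    ∑ j ∈ Finset.range (n + 1),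
      (-1) ^ j * q ^ (j * (j - 1) / 2) * x ^ j * (qp q n / (qp q j * qp q (n - j)))

/-- The number of pairs of partitions with parts at most `J` and total size `n`. -/
def bp : ℕ → ℕ → ℕ
  | 0, n => if n = 0 then 1 else 0
  | J + 1, n => ∑ i ∈ Finset.range (n / (J + 1) + 1), (i + 1) * bp J (n - (J + 1) * i)

/-- P2: generating function of the pairs of partitions. -/
def P2Statement : Prop :=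
  ∀ q : ℂ, ‖q‖ < 1 → HasSum (fun n : ℕ => ((bp n n : ℕ) : ℂ) * q ^ n) ((QP q)⁻¹ ^ 2)

/-- CB: lower bounds of `cosh`. -/
def CbStatement : Prop :=
  ∀ s v : ℝ,
    (|v| ≤ 3 → 0.3 * Real.exp (Real.pi * |s| / (1 + v ^ 2)) ≤
      ‖cosh ((Real.pi : ℂ) * s / (1 + (v : ℂ) * I))‖) ∧
    (|v| ≤ 3 / 5 → 0.46 * Real.exp (Real.pi * |s| / (1 + v ^ 2)) ≤
      ‖cosh ((Real.pi : ℂ) * s / (1 + (v : ℂ) * I))‖) ∧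
    (|v| ≤ 3 / 10 → 0.485 * Real.exp (Real.pi * |s| / (1 + v ^ 2)) ≤
      ‖cosh ((Real.pi : ℂ) * s / (1 + (v : ℂ) * I))‖)

/-- YF0: an identity of Lagrange type. -/
def Yf0Statement : Prop :=
  ∀ (q : ℂ), q ≠ 0 → ‖q‖ < 1 → ∀ c : ℕ, 1 ≤ c →
    ∑ i ∈ Finset.range c, Ac q c i * ((q ^ (i + 1))⁻¹ - q ^ (i + 1)) = if c = 1 then q⁻¹ else 0

/-- YF: partial fraction formula for `Y`. -/
def YfStatement : Prop :=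
  ∀ (q : ℂ), q ≠ 0 → ‖q‖ < 1 → ∀ c m : ℕ, 1 ≤ c →
    Yf q c m = ∑ i ∈ Finset.range c, Ac q c i * q ^ ((i + 1) * m)

/-- SER -/
def SerStatement : Prop :=
  ∀ (q : ℂ), ‖q‖ < 1 → ∀ i : ℕ,
    HasSum (fun r : ℕ => q ^ (i + 1 + r) / (qp q r * qp q (2 * (i + 1) + r)))
      ((QP q)⁻¹ ^ 2 * q ^ (i + 1) * pt q (q ^ (2 * (i + 1))))

/-- MAINGF -/
def MaingfStatement : Prop :=
  ∀ (q : ℂ), q ≠ 0 → ‖q‖ < 1 →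
    (∀ M : ℕ, Summable fun k : ℕ => ‖tk q M k‖) ∧
    (∀ m : ℕ, HasSum (fun n : ℕ => (u (m : ℤ) n : ℂ) * q ^ n) ((QP q)⁻¹ ^ 2 * Th q (m + 1))) ∧
    HasSum (fun n : ℕ => (u 1 n : ℂ) * q ^ n) ((QP q)⁻¹ ^ 2 * Th q 0 - 1)

/-- COEFINT: extraction of coefficients by an integral over a circle. -/
def CoefintStatement : Prop :=
  ∀ (a : ℕ → ℂ) (F : ℂ → ℂ), (∀ q : ℂ, q ≠ 0 → ‖q‖ < 1 → HasSum (fun n : ℕ => a n * q ^ n) (F q)) →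
    ∀ (t0 : ℝ), 0 < t0 → ∀ n : ℕ,
      a n = (1 / (2 * (Real.pi : ℂ))) * ∫ θ in (-Real.pi)..Real.pi,
        F (cexp (-tt t0 θ)) * cexp ((n : ℂ) * tt t0 θ)

/-- COEF: the formula for `u(m,n)` by the bipartition numbers. -/
def CoefStatement : Prop :=
  ∀ (p2 : ℕ → ℤ), (∀ q : ℂ, ‖q‖ < 1 → HasSum (fun n : ℕ => (p2 n : ℂ) * q ^ n) ((QP q)⁻¹ ^ 2)) →
    ∀ (m n : ℕ), 1 ≤ n → (u (m : ℤ) n : ℤ) =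
      ∑ k ∈ Finset.range (n + 1), ∑ j ∈ Finset.range (n + 1), (-1) ^ (k + j) *
        ((if (k + 1) * (m + 1) + k * (k + 1) / 2 + j * (j + 1) / 2 + 2 * j * (k + 1) ≤ n then
            p2 (n - ((k + 1) * (m + 1) + k * (k + 1) / 2 + j * (j + 1) / 2 + 2 * j * (k + 1)))
          else 0) -
        (if (k + 1) * (m + 1) + k * (k + 1) / 2 + j * (j + 1) / 2 + 2 * j * (k + 1) + (k + 1) ≤ n then
            p2 (n - ((k + 1) * (m + 1) + k * (k + 1) / 2 + j * (j + 1) / 2 + 2 * j * (k + 1) +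
              (k + 1)))
          else 0))

/-- FIN: the finite check (by kernel computation). -/
def FinStatement : Prop :=
  ∀ (m n : ℕ), 37 ≤ n → m + 23 ≤ n → n < m + 8400 →
    u ((m : ℤ) - 1) n * u ((m : ℤ) + 1) n < u (m : ℤ) n ^ 2

/-! ## Part F: Fourier and theta identities -/

/-- YCOEF: the Laurent coefficients of `C`. -/
def YcoefStatement : Prop :=
  ∀ (q : ℂ) (ρ : ℝ) (μ : ℕ), q ≠ 0 → ‖q‖ < 1 → ‖q‖ < ρ → ρ < ‖q‖⁻¹ →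
    (1 / (2 * (Real.pi : ℂ))) * ∫ φ in (-Real.pi)..Real.pi,
        (((ρ : ℂ) * cexp (I * φ)) ^ μ)⁻¹ * Cp q ((ρ : ℂ) * cexp (I * φ)) =
      (QP q)⁻¹ ^ 2 * ∑' k : ℕ, (-1) ^ k * q ^ ((k + 1) * μ + k * (k + 1) / 2) * (1 - q ^ (k + 1))

/-- FOUR1: the inner integral on the line `κ = 1/2`. -/
def Four1Statement : Prop :=
  ∀ (t : ℂ) (c : ℝ) (m : ℕ), 0 < t.re →
    (QP (cexp (-t)))⁻¹ ^ 2 * ∑' k : ℕ, sk t c m k =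
      (1 / (2 * (Real.pi : ℂ))) * ∫ φ in (-Real.pi)..Real.pi, FF (1 / 2) t c m φ

/-- FOUR2: the inner integral on the line `κ = 3/2`. -/
def Four2Statement : Prop :=
  ∀ (t : ℂ) (c : ℝ) (m : ℕ), 0 < t.re →
    (QP (cexp (-t)))⁻¹ ^ 2 * ∑' k : ℕ, sk t c m (k + 1) =
      (1 / (2 * (Real.pi : ℂ))) * ∫ φ in (-Real.pi)..Real.pi, FF (3 / 2) t c m φ

/-- CONT: continuity and crude facts used for splitting integrals. -/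
def ContStatement : Prop :=
  (∀ t0 c : ℝ, 0 < t0 → ∀ m : ℕ,
    Continuous fun p : ℝ × ℝ => FF (1 / 2) (tt t0 p.1) c m p.2) ∧
  (∀ t0 c : ℝ, 0 < t0 → ∀ m : ℕ,
    Continuous fun p : ℝ × ℝ => FF (3 / 2) (tt t0 p.1) c m p.2) ∧
  (∀ t0 c : ℝ, 0 < t0 → ∀ m k : ℕ, Continuous fun θ : ℝ =>
    (QP (cexp (-tt t0 θ)))⁻¹ ^ 2 * sk (tt t0 θ) c m k) ∧
  (∀ t0 c : ℝ, 0 < t0 → ∀ m k : ℕ, Continuous fun θ : ℝ =>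
    (QP (cexp (-tt t0 θ)))⁻¹ ^ 2 * ∑' j : ℕ, sk (tt t0 θ) c m (j + k)) ∧
  (∀ t : ℂ, ∀ c : ℝ, 0 < t.re → ∀ m : ℕ, Summable fun k : ℕ => ‖sk t c m k‖)

/-- SPLIT: the three representations of `SS`. -/
def SplitStatement : Prop :=
  (∀ (t0 c : ℝ) (m n : ℕ), 0 < t0 → 1 ≤ n → (SS c m n : ℂ) = JR (1 / 2) t0 c m n Box) ∧
  (∀ (t0 t1 c : ℝ) (m N : ℕ), 0 < t0 → 0 < t1 → 1 ≤ N →
    (SS c m (N + m) : ℂ) = S0i t1 c N + JR (3 / 2) t0 c m (N + m) Box) ∧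
  (∀ (t0 c : ℝ) (m N : ℕ), 0 < t0 → 1 ≤ N →
    (SS c m (N + m) : ℂ) = S0i t0 c N + S1i t0 c m (N + m) + S2i t0 c m (N + m))

/-- TRIPLE: the Jacobi triple product. -/
def TripleStatement : Prop :=
  ∀ (q ζ : ℂ), q ≠ 0 → ‖q‖ < 1 → ζ ≠ 0 →
    (∀ j : ℕ, ζ * q ^ (j + 1) ≠ 1) → (∀ j : ℕ, ζ⁻¹ * q ^ (j + 1) ≠ 1) →
    HasSum (fun n : ℤ => (-1 : ℂ) ^ n * q ^ (n * (n - 1) / 2) * ζ ^ n)
      (QP q * (1 - ζ) * (Cp q ζ)⁻¹)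

/-- THETA -/
def ThetaStatement : Prop :=
  ∀ (t0 v φ κ : ℝ), 0 < t0 → t0 ≤ 1 / 50 → |v| ≤ 3 → |φ| ≤ Real.pi → (κ = 1 / 2 ∨ κ = 3 / 2) →
    ∀ t w : ℂ, t = tt t0 (t0 * v) → w = ww κ t φ →
    ∃ ε : ℂ, ‖ε‖ ≤ 1 / 1000 ∧ Cp (cexp (-t)) (cexp (I * w)) =
      cexp ((Real.pi : ℂ) ^ 2 / (3 * t) - t / 12 + w ^ 2 / (2 * t)) * sin (w / 2) /
        sinh ((Real.pi : ℂ) * w / t) * (1 + ε)

/-- ETA -/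
def EtaStatement : Prop :=
  ∀ (t0 v : ℝ), 0 < t0 → t0 ≤ 1 / 50 → |v| ≤ 3 → ∀ t : ℂ, t = tt t0 (t0 * v) →
    ∃ ε : ℂ, ‖ε‖ ≤ 1 / 1000 ∧ (QP (cexp (-t)))⁻¹ ^ 2 =
      t / (2 * (Real.pi : ℂ)) * cexp ((Real.pi : ℂ) ^ 2 / (3 * t) - t / 12) * (1 + ε)

/-- MINOR -/
def MinorStatement : Prop :=
  ∀ (t0 θ φ κ : ℝ), 0 < t0 → t0 ≤ 1 / 50 → 3 * t0 ≤ |θ| → |θ| ≤ Real.pi →
    (κ = 1 / 2 ∨ κ = 3 / 2) →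
    ‖Cp (cexp (-tt t0 θ)) (cexp (I * ww κ (tt t0 θ) φ))‖ ≤
      4 / t0 * Real.exp (Real.pi ^ 2 / (3 * t0) - 1.3 / t0) ∧
    ‖(QP (cexp (-tt t0 θ)))⁻¹ ^ 2‖ ≤ Real.exp (Real.pi ^ 2 / (3 * t0) - 1.3 / t0)

/-! ## Part P: the partial theta function -/

/-- PTB1 -/
def Ptb1Statement : Prop :=
  ∀ (t0 v : ℝ) (z : ℂ), 0 < t0 → t0 ≤ 1 / 50 → |v| ≤ 3 / 10 → ‖z‖ ≤ 1 → |arg z| ≤ 1 / 4 →
    ∀ q : ℂ, q = cexp (-tt t0 (t0 * v)) → ‖pt q z - 1 / (1 + q * z)‖ ≤ 1 / 200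

/-- PTB2 -/
def Ptb2Statement : Prop :=
  ∀ (t0 v : ℝ) (z : ℂ), 0 < t0 → t0 ≤ 1 / 50 → |v| ≤ 3 / 5 → 9 / 10 ≤ ‖z‖ → ‖z‖ ≤ 1 →
    |arg z| ≤ 11 / 10 → ‖pt (cexp (-tt t0 (t0 * v))) z‖ ≤ 1

/-- PTB3 (trivial bound) -/
def Ptb3Statement : Prop :=
  ∀ (q z : ℂ), ‖q‖ < 1 → ‖z‖ < 1 → ‖pt q z‖ ≤ 1 / (1 - ‖z‖)

/-- XB: all slowly varying factors together. -/
def XbStatement : Prop :=
  ∀ (t0 v s κ ch : ℝ) (ε t w y : ℂ), 0 < t0 → t0 ≤ 1 / 50 → |v| ≤ 3 / 10 → |s| ≤ 5 →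
    (κ = 1 / 2 ∨ κ = 3 / 2) → -1 ≤ ch → ch ≤ 0 → ‖ε‖ ≤ 1 / 1000 →
    t = tt t0 (t0 * v) → w = (t0 : ℂ) * (sg κ s + κ * v) → y = (t0 : ℂ) * (bt κ ch s + I * κ * v) →
    ‖2 * PT t w * sin (w / 2) * (4 * sinh (y / 2) ^ 2) * cexp (w ^ 2 / (2 * t)) * (1 + ε) -
        w / 2 * y ^ 2‖ ≤ (1 / 40 + ‖sg κ s‖ ^ 2 / 50) * (‖w / 2‖ * ‖y‖ ^ 2)

/-! ## Part L: Laplace method -/

/-- LAPM: absolute moments. -/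
def LapmStatement : Prop :=
  ∀ z : ℝ, 328 ≤ z → ∀ j : ℕ, ∀ μ : ℝ,
    ((j, μ) = (0, 1.05) ∨ (j, μ) = (1, 0.87) ∨ (j, μ) = (2, 1.14) ∨ (j, μ) = (3, 1.9) ∨
      (j, μ) = (4, 3.73) ∨ (j, μ) = (6, 20.3) ∨ (j, μ) = (8, 155)) →
    ∫ v in (-(3 / 10 : ℝ))..(3 / 10), KK z v * |v| ^ j ≤
      μ * Real.sqrt (2 * Real.pi / z) * (Real.sqrt z)⁻¹ ^ j

/-- LAPE: absolute moments with the factor `E`. -/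
def LapeStatement : Prop :=
  ∀ z s : ℝ, 328 ≤ z → |s| ≤ 5 → ∀ j : ℕ, ∀ μ : ℝ,
    ((j, μ) = (0, 1.1) ∨ (j, μ) = (1, 0.97) ∨ (j, μ) = (2, 1.33) ∨ (j, μ) = (3, 2.33)) →
    ∫ v in (-(3 / 10 : ℝ))..(3 / 10), KK z v * EE s v * |v| ^ j ≤
      μ * Real.sqrt (2 * Real.pi / z) * (Real.sqrt z)⁻¹ ^ j

/-- LAP0: moments with the phase. -/
def Lap0Statement : Prop :=
  ∀ z : ℝ, 328 ≤ z →
    ‖(∫ v in (-(3 / 10 : ℝ))..(3 / 10), (KK z v : ℂ) * cexp (I * psi z v)) -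
        Real.sqrt (2 * Real.pi / z)‖ ≤ 5 / z * Real.sqrt (2 * Real.pi / z) ∧
    ‖∫ v in (-(3 / 10 : ℝ))..(3 / 10), (KK z v : ℂ) * cexp (I * psi z v) * v‖ ≤
      2.2 / z * Real.sqrt (2 * Real.pi / z) ∧
    ‖(∫ v in (-(3 / 10 : ℝ))..(3 / 10), (KK z v : ℂ) * cexp (I * psi z v) * v ^ 2) -
        1 / z * Real.sqrt (2 * Real.pi / z)‖ ≤ 30 / z ^ 2 * Real.sqrt (2 * Real.pi / z) ∧
    ‖∫ v in (-(3 / 10 : ℝ))..(3 / 10), (KK z v : ℂ) * cexp (I * psi z v) * v ^ 3‖ ≤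
      10.2 / z ^ 2 * Real.sqrt (2 * Real.pi / z)

/-- ELL -/
def EllStatement : Prop :=
  ∀ s v : ℝ, |v| ≤ 3 / 10 →
    ‖ell s v‖ ≤ 1.03 * EE s v ∧
    ‖ell s v - 1‖ ≤ 1.06 * Real.pi * |s| * |v| * EE s v ∧
    ‖ell s v - 1 - I * (Real.pi * s * Real.tanh (Real.pi * s) * v : ℝ)‖ ≤
      v ^ 2 / 2 * (Real.pi ^ 2 * s ^ 2 + 6.7 * |s| + 1.2) * 1.03 * EE s v

/-- QINT: the error integral of the refined region. -/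
def QintStatement : Prop :=
  ∀ κ ch e : ℝ, ((κ, ch, e) = (1 / 2, -3 / 10, 1 / 20) ∨ (κ, ch, e) = (1 / 2, -1 / 2, 1 / 20) ∨
      (κ, ch, e) = (3 / 2, -1, 17 / 100)) →
    ∫ s in (-5 : ℝ)..5, Qf κ ch s / (2 * Real.cosh (Real.pi * s)) ≤ e

/-- MOM: moments of the hyperbolic secant. -/
def MomStatement : Prop :=
  ∀ j : ℕ, ∀ μ : ℝ, ((j, μ) = (0, 1 / 2) ∨ (j, μ) = (2, 1 / 8) ∨ (j, μ) = (4, 5 / 32) ∨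
      (j, μ) = (6, 61 / 128)) →
    Integrable (fun s : ℝ => s ^ j / (2 * Real.cosh (Real.pi * s))) ∧
    ∫ s : ℝ, s ^ j / (2 * Real.cosh (Real.pi * s)) = μ

/-- SECH: Fourier transform of the hyperbolic secant. -/
def SechStatement : Prop :=
  ∀ x : ℝ, ∫ s : ℝ, cexp (-(I * x * s)) / (2 * cosh ((Real.pi : ℂ) * s)) =
    ((1 / (2 * Real.cosh (x / 2)) : ℝ) : ℂ)

/-- CLOSED: the main terms in closed form, with truncated integral. -/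
def ClosedStatement : Prop :=
  ∀ x : ℝ, 0 ≤ x → ∀ y : ℝ, y = Real.exp (-x) →
    ‖(∫ s in (-5 : ℝ)..5, mainD (1 / 2) (-3 / 10) x s) -
      ((-(Real.sqrt y * (3.82 * y - 0.49 - 1.69 * y ^ 2) / (1 + y) ^ 4) : ℝ) : ℂ)‖ ≤ 1 / 1000 ∧
    ‖(∫ s in (-5 : ℝ)..5, mainD (1 / 2) (-1 / 2) x s) -
      ((-(Real.sqrt y * (3.5 * y - 0.25 - 2.25 * y ^ 2) / (1 + y) ^ 4) : ℝ) : ℂ)‖ ≤ 1 / 1000 ∧
    ‖(∫ s in (-5 : ℝ)..5, mainD (3 / 2) (-1) x s) -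
      ((-(Real.sqrt y * (2 - 4 * y) / (1 + y) ^ 4) : ℝ) : ℂ)‖ ≤ 1 / 1000

/-! ## Part R: regions -/

/-- FORM: the integrand for `|v| ≤ 3` in real variables. -/
def FormStatement : Prop :=
  ∀ (κ t0 ch v s : ℝ) (m n : ℕ), 0 < t0 → t0 ≤ 1 / 50 → (κ = 1 / 2 ∨ κ = 3 / 2) →
    |v| ≤ 3 → |t0 * s| ≤ Real.pi → Tie κ t0 m n →
    ∀ t w y : ℂ, t = tt t0 (t0 * v) → w = (t0 : ℂ) * (sg κ s + κ * v) →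
      y = (t0 : ℂ) * (bt κ ch s + I * κ * v) →
    ∃ ε : ℂ, ‖ε‖ ≤ 1 / 1000 ∧
      cexp ((n : ℂ) * t) * FF κ t (ch * t0) m (t0 * s) =
        Real.exp (zz t0) * KK (zz t0) v * cexp (I * psi (zz t0) v) *
          cexp (-(I * (m * t0 : ℝ) * s)) * vs κ /
          cosh ((Real.pi : ℂ) * s / (1 + (v : ℂ) * I)) *
          (PT t w * sin (w / 2) * (4 * sinh (y / 2) ^ 2) * cexp (w ^ 2 / (2 * t)) * (1 + ε))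

/-- R1V: the inner integral over `v` in the refined region, for fixed `s`. -/
def R1vStatement : Prop :=
  ∀ (κ t0 ch s : ℝ), 0 < t0 → t0 ≤ 1 / 50 → (κ = 1 / 2 ∨ κ = 3 / 2) → -1 ≤ ch → ch ≤ 0 → |s| ≤ 5 →
    ∀ X : ℝ → ℂ, ContinuousOn X (Set.Icc (-(3 / 10)) (3 / 10)) →
    (∀ v : ℝ, |v| ≤ 3 / 10 →
      ‖X v - (sg κ s + κ * v) * (bt κ ch s + I * κ * v) ^ 2‖ ≤ (1 / 40 + ‖sg κ s‖ ^ 2 / 50) *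
        (‖sg κ s + κ * v‖ * ‖bt κ ch s + I * κ * v‖ ^ 2)) →
    ‖(∫ v in (-(3 / 10 : ℝ))..(3 / 10), (KK (zz t0) v : ℂ) * cexp (I * psi (zz t0) v) * ell s v *
        X v) - sg κ s * bt κ ch s ^ 2 * Real.sqrt (2 * Real.pi / zz t0)‖ ≤
      Real.sqrt (2 * Real.pi / zz t0) * Qf κ ch s

/-- R1: the refined region. -/
def R1Statement : Prop :=
  ∀ (κ ch e t0 : ℝ) (m n : ℕ), 0 < t0 → t0 ≤ 1 / 50 → Tie κ t0 m n →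
    ((κ, ch, e) = (1 / 2, -3 / 10, 1 / 20) ∨ (κ, ch, e) = (1 / 2, -1 / 2, 1 / 20) ∨
      (κ, ch, e) = (3 / 2, -1, 17 / 100)) →
    ‖JR κ t0 (ch * t0) m n (A0 t0) - W0 t0 * ∫ s in (-5 : ℝ)..5, mainD κ ch (m * t0) s‖ ≤ e * W0 t0

/-- Common hypotheses of the tail regions. -/
def TailHyp (κ ch t0 : ℝ) (m n : ℕ) : Prop :=
  0 < t0 ∧ t0 ≤ 1 / 50 ∧ Tie κ t0 m n ∧ (κ = 1 / 2 ∨ κ = 3 / 2) ∧ -1 ≤ ch ∧ ch ≤ 0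

def T1Statement : Prop :=
  ∀ (κ ch t0 : ℝ) (m n : ℕ), TailHyp κ ch t0 m n →
    ‖JR κ t0 (ch * t0) m n (A1 t0)‖ ≤ 3 / 1000 * W0 t0

def T2Statement : Prop :=
  ∀ (κ ch t0 : ℝ) (m n : ℕ), TailHyp κ ch t0 m n →
    ‖JR κ t0 (ch * t0) m n (A2 t0)‖ ≤ 3 / 1000 * W0 t0

def T3Statement : Prop :=
  ∀ (κ ch t0 : ℝ) (m n : ℕ), TailHyp κ ch t0 m n →
    ‖JR κ t0 (ch * t0) m n (A3 t0)‖ ≤ 1 / 1000 * W0 t0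

def T4Statement : Prop :=
  ∀ (κ ch t0 : ℝ) (m n : ℕ), TailHyp κ ch t0 m n →
    ‖JR κ t0 (ch * t0) m n (A4 t0)‖ ≤ 1 / 1000 * W0 t0

def T5Statement : Prop :=
  ∀ (κ ch t0 : ℝ) (m n : ℕ), TailHyp κ ch t0 m n →
    ‖JR κ t0 (ch * t0) m n (A5 t0)‖ ≤ 1 / 1000 * W0 t0

/-- ANUM: lower bounds of the main terms. -/
def AnumStatement : Prop :=
  (∀ x : ℝ, 0 ≤ x → x ≤ 1 / 5 → ∀ y : ℝ, y = Real.exp (-x) →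
    1 / 10 ≤ Real.sqrt y * (3.82 * y - 0.49 - 1.69 * y ^ 2) / (1 + y) ^ 4) ∧
  (∀ x : ℝ, 1 / 5 ≤ x → x ≤ 31 / 20 → ∀ y : ℝ, y = Real.exp (-x) →
    2 / 25 ≤ Real.sqrt y * (3.5 * y - 0.25 - 2.25 * y ^ 2) / (1 + y) ^ 4) ∧
  (∀ x : ℝ, 31 / 20 ≤ x → x ≤ 4 → ∀ y : ℝ, y = Real.exp (-x) →
    11 / 50 ≤ Real.sqrt y * (2 - 4 * y) / (1 + y) ^ 4)

/-! ## Part B: large `m` -/

/-- B0 -/
def B0Statement : Prop :=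
  ∀ (t0 c : ℝ) (N : ℕ), 0 < t0 → t0 ≤ 1 / 50 → 3 * t0 ^ 2 * ((N : ℝ) - 1 / 12) = Real.pi ^ 2 →
    (|c + t0| ≤ 0.62 * t0 ^ 2 → (S0i t0 c N).re ≤ 0) ∧
    (c = -t0 → (S0i t0 c N).re ≤ -(0.7 * W0 t0 / zz t0))

/-- B1 -/
def B1Statement : Prop :=
  ∀ (t0 : ℝ) (m N : ℕ), 0 < t0 → t0 ≤ 1 / 50 → 3 * t0 ^ 2 * ((N : ℝ) - 1 / 12) = Real.pi ^ 2 →
    39 / 10 ≤ m * t0 →
    ‖S1i t0 (-t0) m (N + m)‖ ≤ 2.5 * W0 t0 * Real.exp (-(m * t0)) ∧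
    (m * t0 ≤ Real.log (zz t0) + 1.6 →
      (S1i t0 (-t0) m (N + m)).re ≤ -(0.8 * W0 t0 * Real.exp (-(m * t0))))

/-- B2 -/
def B2Statement : Prop :=
  ∀ (t0 : ℝ) (m N : ℕ), 0 < t0 → t0 ≤ 1 / 50 → 3 * t0 ^ 2 * ((N : ℝ) - 1 / 12) = Real.pi ^ 2 →
    39 / 10 ≤ m * t0 → ‖S2i t0 (-t0) m (N + m)‖ ≤ 0.45 * W0 t0 * Real.exp (-(m * t0))

/-! ## Assembly -/

/-- The main theorem. -/
def MainStatement : Prop :=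
  ∀ (n : ℕ) (m : ℤ), 37 ≤ n → |m| ≤ (n : ℤ) - 23 → u (m - 1) n * u (m + 1) n < u m n ^ 2

end Pool.Agent.Helper21_UR
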