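import Pool.Agent.Helper21_UR.ASM2
import Pool.Agent.Helper21_UR.B1
import Pool.Agent.Helper85_UR.Anum
import Pool.Agent.Helper85_UR.T25
import Pool.Agent.Helper45_UR.Cb
import Pool.Agent.Helper45_UR.R1v
import Pool.Agent.Helper15_UR.CLOSED
import Pool.Agent.Helper15_UR.QINT
import Pool.Agent.Helper15_UR.COEFINT
import Pool.Agent.Helper15_UR.SECH
import Pool.Agent.Helper42_UR.COEF
import Pool.Agent.Helper92_UR.CONT
import Pool.Agent.Helper97_UR.FORM
import Pool.Agent.Helper97_UR.MINOR
import Pool.Agent.Helper48_UR.P2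
import Pool.Agent.Helper34_UR.PTB2
import Pool.Agent.Helper34_UR.PTB3
import Pool.Agent.Helper34_UR.XB
import Pool.Agent.Helper80_UR.Four1
import Pool.Agent.Helper80_UR.Four2
import Pool.Agent.Helper97_UR.B2
import Pool.Agent.Helper53_UR.R1
import Pool.Agent.Helper53_UR.Split

/-!
# All modules together (MP_c97607_co)
-/

namespace Pool.Agent.Helper21_UR

theorem qbinS : QbinStatement := Pool.Agent.UR.H80.qbin
theorem yf0S : Yf0Statement := Pool.Agent.UR.H80.yf0 qbinS
theorem yfS : YfStatement := Pool.Agent.UR.H80.yf yf0S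
theorem maingfS : MaingfStatement :=
  H42.maingf Pool.Agent.Helper48_UR.gfu yfS yf0S
theorem coefintS : CoefintStatement := H15.coefint
theorem coefS : CoefStatement := H42.coef maingfS coefintS
theorem ycoefS : YcoefStatement := Pool.Agent.UR.H80.ycoef yfS
theorem contS : ContStatement := Pool.Agent.Helper92_UR.cont
theorem tripleS : TripleStatement := H97.triple qbinS
theorem thetaS : ThetaStatement := H97.theta tripleS Pool.Agent.Helper45_UR.cb
theorem etaS : EtaStatement := H97.eta
theorem minorS : MinorStatement := H97.minor thetaS etaS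
theorem formS : FormStatement := H97.form thetaS
theorem momS : MomStatement := H15.mom H15.sech
theorem qintS : QintStatement := H15.qint momS
theorem r1S : R1Statement := Pool.Agent.Helper53_UR.r1 formS H34.xb Pool.Agent.Helper45_UR.r1v
  qintS contS
theorem t1S : T1Statement := H85.t1 formS Pool.Agent.Helper45_UR.cb H34.ptb2
  Pool.Agent.Helper45_UR.lapm
theorem t2S : T2Statement := H85.t2 formS Pool.Agent.Helper45_UR.cb H34.ptb2
theorem t3S : T3Statement := H85.t3 formS Pool.Agent.Helper45_UR.cb H34.ptb3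
theorem t4S : T4Statement := H85.t4 formS Pool.Agent.Helper45_UR.cb H34.ptb3
theorem t5S : T5Statement := H85.t5 minorS H34.ptb3
theorem b0S : B0Statement := b0 etaS minorS H34.ptb1 H34.ptb2 H34.ptb3 Pool.Agent.Helper45_UR.lapm
  Pool.Agent.Helper45_UR.lap0 contS
theorem b1S : B1Statement := b1 etaS minorS H34.ptb1 H34.ptb2 H34.ptb3 Pool.Agent.Helper45_UR.lapm
  Pool.Agent.Helper45_UR.lap0 contS

theorem b2S : B2Statement := H97.b2 etaS minorS H34.ptb1 H34.ptb2 H34.ptb3
  Pool.Agent.Helper45_UR.lapm contS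

theorem main_of2 (hF : FinStatement) : MainStatement :=
  main_of Pool.Agent.Helper48_UR.symm hF contS
    (Pool.Agent.Helper53_UR.Split.split Pool.Agent.Helper48_UR.symm maingfS coefintS
      Pool.Agent.Helper48_UR.p2 contS (Pool.Agent.UR.H80.four1 ycoefS)
      (Pool.Agent.UR.H80.four2 ycoefS)) r1S t1S t2S t3S t4S t5S (H15.closed H15.sech) H85.anum
    b0S b1S b2S

end Pool.Agent.Helper21_UR
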