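import Pool.Agent.Helper21_UR.BFac

/-!
# Module B0 (MP_c97607_co)
-/

namespace Pool.Agent.Helper21_UR

open Complex MeasureTheory intervalIntegral

theorem mom_even (hL : LapmStatement) (z : ℝ) (hz : 328 ≤ z) :
    (∫ v in (-(3 / 10 : ℝ))..(3 / 10), KK z v) ≤ 1.05 * Real.sqrt (2 * Real.pi / z) ∧
    (∫ v in (-(3 / 10 : ℝ))..(3 / 10), KK z v * v ^ 2) ≤
      1.14 * (1 / z) * Real.sqrt (2 * Real.pi / z) ∧
    (∫ v in (-(3 / 10 : ℝ))..(3 / 10), KK z v * v ^ 4) ≤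
      3.73 * (1 / z) ^ 2 * Real.sqrt (2 * Real.pi / z) := by
  have hz0 : 0 < z := by linarith
  have hs : (Real.sqrt z)⁻¹ ^ 2 = 1 / z := by
    rw [inv_pow, Real.sq_sqrt hz0.le, one_div]
  have h0 := hL z hz 0 1.05 (Or.inl rfl)
  have h2 := hL z hz 2 1.14 (Or.inr (Or.inr (Or.inl rfl)))
  have h4 := hL z hz 4 3.73 (Or.inr (Or.inr (Or.inr (Or.inr (Or.inl rfl)))))
  refine ⟨?_, ?_, ?_⟩
  · simpa using h0
  · simp only [sq_abs] at h2
    rw [hs] at h2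
    linarith
  · have e : ∀ v : ℝ, |v| ^ 4 = v ^ 4 := fun v => by
      rw [show |v| ^ 4 = (|v| ^ 2) ^ 2 by ring, sq_abs]; ring
    simp only [e] at h4
    have : (Real.sqrt z)⁻¹ ^ 4 = (1 / z) ^ 2 := by rw [← hs]; ring
    rw [this] at h4
    linarith

theorem main_re (hLm : LapmStatement) (hL : Lap0Statement) (z d : ℝ) (hz : 328 ≤ z)
    (hd : |d| ≤ 0.0125) :
    (∫ v in (-(3 / 10 : ℝ))..(3 / 10), (KK z v : ℂ) * cexp (I * psi z v) *
      (1 + (v : ℂ) * I) ^ 2 * ((d : ℂ) + (v : ℂ) * I) ^ 2).re ≤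
    Real.sqrt (2 * Real.pi / z) * (d ^ 2 * (1 + 5 * (1 / z)) + 4.5 * |d| * (1 / z)
      - (1 - 4 * |d|) * (1 / z) + (31.6 + 20.7 + 3.73) * (1 / z) ^ 2) := by
  have hz0 : 0 < z := by linarith
  obtain ⟨l0, l1, l2, l3⟩ := hL z hz
  obtain ⟨-, -, m4⟩ := mom_even hLm z hz
  set Rt := Real.sqrt (2 * Real.pi / z) with hRt
  have hRt0 : 0 ≤ Rt := Real.sqrt_nonneg _
  have hK := KKe_continuous z
  set Φ : ℝ → ℂ := fun v => (KK z v : ℂ) * cexp (I * psi z v) with hΦ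
  have hi : ∀ (n : ℕ), IntervalIntegrable (fun v : ℝ => Φ v * (v : ℂ) ^ n) volume
      (-(3 / 10 : ℝ)) (3 / 10) := fun n => by
    apply Continuous.intervalIntegrable
    exact hK.mul (by fun_prop)
  have e1 : (∫ v in (-(3 / 10 : ℝ))..(3 / 10), (KK z v : ℂ) * cexp (I * psi z v) *
      (1 + (v : ℂ) * I) ^ 2 * ((d : ℂ) + (v : ℂ) * I) ^ 2) =
      (d : ℂ) ^ 2 * (∫ v in (-(3 / 10 : ℝ))..(3 / 10), Φ v) +
      (2 * d * (1 + d) * I) * (∫ v in (-(3 / 10 : ℝ))..(3 / 10), Φ v * v) -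
      (1 + 4 * d + d ^ 2) * (∫ v in (-(3 / 10 : ℝ))..(3 / 10), Φ v * v ^ 2) -
      (2 * (1 + d) * I) * (∫ v in (-(3 / 10 : ℝ))..(3 / 10), Φ v * v ^ 3) +
      (∫ v in (-(3 / 10 : ℝ))..(3 / 10), Φ v * v ^ 4) := by
    have h0 := hi 0
    have h1 := hi 1
    have h2 := hi 2
    have h3 := hi 3
    have h4 := hi 4
    simp only [pow_zero, mul_one] at h0
    simp only [pow_one] at h1
    rw [← intervalIntegral.integral_const_mul, ← intervalIntegral.integral_const_mul, ← intervalIntegral.integral_const_mul, ← intervalIntegral.integral_const_mul,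
      ← intervalIntegral.integral_add (h0.const_mul _) (h1.const_mul _),
      ← intervalIntegral.integral_sub ((h0.const_mul _).add (h1.const_mul _)) (h2.const_mul _),
      ← intervalIntegral.integral_sub (((h0.const_mul _).add (h1.const_mul _)).sub (h2.const_mul _))
        (h3.const_mul _),
      ← intervalIntegral.integral_add ((((h0.const_mul _).add (h1.const_mul _)).sub (h2.const_mul _)).sub
        (h3.const_mul _)) h4]
    congr 1
    ext v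
    rw [hΦ]
    have hI2 : (I : ℂ) ^ 2 = -1 := I_sq
    have hI3 : (I : ℂ) ^ 3 = -I := by rw [show (I : ℂ) ^ 3 = I ^ 2 * I by ring, hI2]; ring
    have hI4 : (I : ℂ) ^ 4 = 1 := by rw [show (I : ℂ) ^ 4 = I ^ 2 * I ^ 2 by ring, hI2]; ring
    have : (1 + (v : ℂ) * I) ^ 2 * ((d : ℂ) + (v : ℂ) * I) ^ 2 =
        (d : ℂ) ^ 2 + 2 * d * (1 + d) * I * v - (1 + 4 * d + d ^ 2) * v ^ 2 -
        2 * (1 + d) * I * v ^ 3 + v ^ 4 := by
      ring_nf
      rw [hI2, hI3, hI4]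
      ring
    rw [mul_assoc ((KK z v : ℂ) * cexp (I * psi z v)), this]
    ring
  have l4 : ‖∫ v in (-(3 / 10 : ℝ))..(3 / 10), Φ v * (v : ℂ) ^ 4‖ ≤ 3.73 * (1 / z) ^ 2 * Rt := by
    refine (intervalIntegral.norm_integral_le_of_norm_le (by norm_num)
      (Filter.Eventually.of_forall fun v _ => ?_) (Continuous.intervalIntegrable
        ((KK_continuous z).mul (continuous_pow 4)) _ _)).trans m4
    change _ ≤ KK z v * v ^ 4
    rw [hΦ]
    simp only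
    rw [norm_mul, norm_mul, norm_pow, Complex.norm_real, Complex.norm_real,
      mul_comm I, Complex.norm_exp_ofReal_mul_I, Real.norm_of_nonneg (KK_pos _ _).le, mul_one,
      Real.norm_eq_abs, show |v| ^ 4 = (|v| ^ 2) ^ 2 by ring, sq_abs]
    apply le_of_eq; ring
  rw [e1]
  simp only [Complex.add_re, Complex.sub_re]
  set a := 1 / z with ha
  have ha0 : 0 < a := by positivity
  have ha1 : a ≤ 1 / 328 := by rw [ha]; exact one_div_le_one_div_of_le (by norm_num) hz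
  have hdd : 0 ≤ |d| := abs_nonneg d
  have e5 : 5 / z = 5 * a := by rw [ha]; ring
  have e22 : 2.2 / z = 2.2 * a := by rw [ha]; ring
  have e30 : 30 / z ^ 2 = 30 * a ^ 2 := by rw [ha]; field_simp
  have e10 : 10.2 / z ^ 2 = 10.2 * a ^ 2 := by rw [ha]; field_simp
  rw [e5] at l0
  rw [e22] at l1
  rw [e30] at l2
  rw [e10] at l3
  set L0 := ∫ v in (-(3 / 10 : ℝ))..(3 / 10), Φ v
  set L1 := ∫ v in (-(3 / 10 : ℝ))..(3 / 10), Φ v * (v : ℂ)
  set L2 := ∫ v in (-(3 / 10 : ℝ))..(3 / 10), Φ v * (v : ℂ) ^ 2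
  set L3 := ∫ v in (-(3 / 10 : ℝ))..(3 / 10), Φ v * (v : ℂ) ^ 3
  set L4 := ∫ v in (-(3 / 10 : ℝ))..(3 / 10), Φ v * (v : ℂ) ^ 4
  have dabs : d ≤ |d| := le_abs_self d
  have dabs' : -|d| ≤ d := neg_abs_le d
  -- term 0
  have t0 : ((d : ℂ) ^ 2 * L0).re ≤ d ^ 2 * (Rt * (1 + 5 * a)) := by
    have r := (abs_le.1 ((abs_re_le_norm (L0 - (Rt : ℂ))).trans l0)).2
    rw [Complex.sub_re, Complex.ofReal_re] at r
    have : ((d : ℂ) ^ 2 * L0).re = d ^ 2 * L0.re := by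
      rw [← Complex.ofReal_pow, Complex.re_ofReal_mul]
    rw [this]
    have : L0.re ≤ Rt * (1 + 5 * a) := by linarith
    exact mul_le_mul_of_nonneg_left this (sq_nonneg d)
  have t1 : ((2 * d * (1 + d) * I) * L1).re ≤ 4.5 * |d| * a * Rt := by
    refine (re_le_norm _).trans ?_
    have : ‖(2 * d * (1 + d) * I : ℂ)‖ ≤ 2 * |d| * 1.0125 := by
      rw [norm_mul, norm_mul, norm_mul, norm_I, mul_one, Complex.norm_real, Real.norm_eq_abs]
      have h1 : ‖(1 + (d : ℂ))‖ ≤ 1.0125 := by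
        refine (norm_add_le _ _).trans ?_
        rw [norm_one, Complex.norm_real, Real.norm_eq_abs]; linarith
      have h2 : ‖(2 : ℂ)‖ = 2 := by simp
      rw [h2]
      gcongr
    rw [norm_mul]
    calc ‖(2 * d * (1 + d) * I : ℂ)‖ * ‖L1‖ ≤ (2 * |d| * 1.0125) * (2.2 * a * Rt) := by gcongr
      _ ≤ 4.5 * |d| * a * Rt := by
        have : 0 ≤ |d| * a * Rt := by positivity
        nlinarith
  have t2 : -(((1 + 4 * (d : ℂ) + (d : ℂ) ^ 2) * L2).re) ≤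
      (-(1 - 4 * |d|) * a + 31.6 * a ^ 2) * Rt := by
    have r := (abs_le.1 ((abs_re_le_norm _).trans l2)).1
    have e : (L2 - 1 / (z : ℂ) * (Rt : ℂ)).re = L2.re - a * Rt := by
      rw [Complex.sub_re, show (1 / (z : ℂ) * (Rt : ℂ)) = ((a * Rt : ℝ) : ℂ) by
        rw [ha]; push_cast; ring, Complex.ofReal_re]
    rw [e] at r
    have : ((1 + 4 * (d : ℂ) + (d : ℂ) ^ 2) * L2).re = (1 + 4 * d + d ^ 2) * L2.re := by
      rw [show (1 + 4 * (d : ℂ) + (d : ℂ) ^ 2) = ((1 + 4 * d + d ^ 2 : ℝ) : ℂ) by push_cast; ring,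
        Complex.re_ofReal_mul]
    rw [this]
    have h1 : (a - 30 * a ^ 2) * Rt ≤ L2.re := by linarith
    have h2 : 1 - 4 * |d| ≤ 1 + 4 * d + d ^ 2 := by nlinarith [sq_nonneg d]
    have h3 : 0 ≤ 1 - 4 * |d| := by linarith
    have h4 : 0 ≤ (a - 30 * a ^ 2) * Rt := mul_nonneg (by nlinarith) hRt0
    have h5 : (1 - 4 * |d|) * ((a - 30 * a ^ 2) * Rt) ≤ (1 + 4 * d + d ^ 2) * L2.re :=
      mul_le_mul h2 h1 h4 (by linarith)
    have h6 : 0 ≤ a ^ 2 * Rt := by positivity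
    have h7 : (1 - 4 * |d|) * (30 * (a ^ 2 * Rt)) ≤ 31.6 * (a ^ 2 * Rt) := by
      nlinarith
    nlinarith
  have t3 : -(((2 * (1 + (d : ℂ)) * I) * L3).re) ≤ 20.7 * a ^ 2 * Rt := by
    rw [← Complex.neg_re]
    refine (re_le_norm _).trans ?_
    rw [norm_neg]
    have : ‖(2 * (1 + (d : ℂ)) * I)‖ ≤ 2 * 1.0125 := by
      rw [norm_mul, norm_mul, norm_I, mul_one]
      have h1 : ‖(1 + (d : ℂ))‖ ≤ 1.0125 := by
        refine (norm_add_le _ _).trans ?_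
        rw [norm_one, Complex.norm_real, Real.norm_eq_abs]; linarith
      have h2 : ‖(2 : ℂ)‖ = 2 := by simp
      rw [h2]
      gcongr
    rw [norm_mul]
    calc ‖(2 * (1 + (d : ℂ)) * I)‖ * ‖L3‖ ≤ (2 * 1.0125) * (10.2 * a ^ 2 * Rt) := by gcongr
      _ ≤ 20.7 * a ^ 2 * Rt := by
        have : 0 ≤ a ^ 2 * Rt := by positivity
        nlinarith
  have t4 : L4.re ≤ 3.73 * a ^ 2 * Rt := (re_le_norm _).trans l4
  have e9 : Rt * (d ^ 2 * (1 + 5 * a) + 4.5 * |d| * a - (1 - 4 * |d|) * a +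
      (31.6 + 20.7 + 3.73) * a ^ 2) = d ^ 2 * (Rt * (1 + 5 * a)) + 4.5 * |d| * a * Rt +
      (-(1 - 4 * |d|) * a + 31.6 * a ^ 2) * Rt + 20.7 * a ^ 2 * Rt + 3.73 * a ^ 2 * Rt := by ring
  rw [e9]
  linarith

/-- Master inequality for B0. -/
theorem b0_master (hE : EtaStatement) (hM : MinorStatement) (hP1 : Ptb1Statement)
    (hP2 : Ptb2Statement) (hP3 : Ptb3Statement) (hLm : LapmStatement) (hL : Lap0Statement)
    (hC : ContStatement) (t0 c d : ℝ) (N : ℕ) (h0 : 0 < t0) (h50 : t0 ≤ 1 / 50)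
    (ht : 3 * t0 ^ 2 * ((N : ℝ) - 1 / 12) = Real.pi ^ 2) (hc : c + t0 = t0 * d)
    (hd : |d| ≤ 0.0125) :
    (S0i t0 c N).re ≤ W0 t0 * ((d ^ 2 * (1 + 5 * (1 / zz t0)) + 4.5 * |d| * (1 / zz t0)
      - (1 - 4 * |d|) * (1 / zz t0) + 56.03 * (1 / zz t0) ^ 2) +
      0.0901 * (1.05 * d ^ 2 + 1.14 * (1 / zz t0)) + 0.0027 * (1 / zz t0)) := by
  have hpi := Real.pi_gt_three
  have hz := zz_lower t0 h0 h50
  have hz0 : 0 < zz t0 := by linarith
  have hRt := Rt_pos t0 h0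
  have hW := W0_pos t0 h0
  set R : ℝ → ℂ := fun θ => cexp (-tt t0 θ) * (1 - cexp (-tt t0 θ)) *
    pt (cexp (-tt t0 θ)) (cexp (-tt t0 θ) ^ 2) * (4 * sinh (((c : ℂ) + tt t0 θ) / 2) ^ 2) with hR
  set H : ℝ → ℂ := fun θ => (QP (cexp (-tt t0 θ)))⁻¹ ^ 2 * cexp ((N : ℂ) * tt t0 θ) * R θ with hH
  have hHc : Continuous H := by
    have h1 := hC.2.2.1 t0 c h0 0 0
    have h2 : Continuous fun θ : ℝ => cexp ((N : ℂ) * tt t0 θ) := by
      unfold tt; fun_prop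
    have h3 := h2.mul h1
    refine h3.congr fun θ => ?_
    rw [hH, hR]
    simp only [sk]
    norm_num
    ring
  set g : ℝ → ℂ := fun v => ((d : ℂ) + (v : ℂ) * I) ^ 2 with hg
  have hyv : ∀ v : ℝ, (c : ℂ) + tt t0 (t0 * v) = (t0 : ℂ) * ((d : ℂ) + (v : ℂ) * I) := fun v => by
    have : (c : ℂ) = ((t0 * d - t0 : ℝ) : ℂ) := by congr 1; linarith
    rw [this, tt_eq]; push_cast; ring
  have hyn : ∀ v : ℝ, ‖(c : ℂ) + tt t0 (t0 * v)‖ ^ 2 = t0 ^ 2 * (d ^ 2 + v ^ 2) := fun v => by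
    rw [hyv, norm_mul, Complex.norm_real, Real.norm_of_nonneg h0.le, mul_pow]
    congr 1
    rw [← Complex.normSq_eq_norm_sq, Complex.normSq_apply]
    simp; ring
  have hgn : ∀ v : ℝ, ‖g v‖ = d ^ 2 + v ^ 2 := fun v => by
    rw [hg]; simp only
    rw [norm_pow, ← Complex.normSq_eq_norm_sq, Complex.normSq_apply]
    simp; ring
  have hd2 : d ^ 2 ≤ 0.00016 := by rw [← sq_abs]; nlinarith [abs_nonneg d]
  have hynorm : ∀ v : ℝ, |v| ≤ 3 → ‖(c : ℂ) + tt t0 (t0 * v)‖ ≤ 0.061 := fun v hv => by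
    have hv2 : v ^ 2 ≤ 9 := by rw [← sq_abs]; nlinarith [abs_nonneg v]
    have h1 := hyn v
    have h2 : t0 ^ 2 * (d ^ 2 + v ^ 2) ≤ 0.061 ^ 2 := by
      have : t0 ^ 2 ≤ (1 / 50) ^ 2 := pow_le_pow_left₀ h0.le h50 2
      nlinarith [sq_nonneg d, sq_nonneg v]
    rw [← h1] at h2
    exact le_of_sq_le_sq h2 (by norm_num)
  have key := bcore hE hM t0 N h0 h50 ht H R g (fun v => 0.085 * (d ^ 2 + v ^ 2)) 0.86 58 8.2 hHc
    (by rw [hg]; fun_prop) (by fun_prop) (fun θ => rfl) ?_ ?_ ?_ ?_ (by norm_num) (by norm_num)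
    (by norm_num)
  · -- conclusion
    have hS : S0i t0 c N = 1 / (2 * (Real.pi : ℂ)) * ∫ θ in (-Real.pi)..Real.pi, H θ := rfl
    rw [← hS] at key
    have hre := (abs_le.1 ((abs_re_le_norm _).trans key)).2
    rw [Complex.sub_re] at hre
    set Rt := Real.sqrt (2 * Real.pi / zz t0) with hRtd
    have hmr := main_re hLm hL (zz t0) d (by linarith) hd
    rw [← hRtd] at hmr
    set J := ∫ v in (-(3 / 10 : ℝ))..(3 / 10), (KK (zz t0) v : ℂ) * cexp (I * psi (zz t0) v) *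
      (1 + (v : ℂ) * I) ^ 2 * g v with hJ
    have e1 : ((W0 t0 : ℂ) * (Rt⁻¹ : ℝ) * J).re = W0 t0 * (Rt⁻¹ * J.re) := by
      rw [← Complex.ofReal_mul, Complex.re_ofReal_mul]; ring
    rw [e1] at hre
    have e2 : (∫ v in (-(3 / 10 : ℝ))..(3 / 10), KK (zz t0) v *
        (1.047 * (0.085 * (d ^ 2 + v ^ 2)) + 0.0011 * ‖g v‖)) ≤
        0.0901 * (1.05 * d ^ 2 + 1.14 * (1 / zz t0)) * Rt := by
      obtain ⟨m0, m2, -⟩ := mom_even hLm (zz t0) (by linarith)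
      rw [← hRtd] at m0 m2
      have hKi := (KK_continuous (zz t0)).intervalIntegrable (μ := volume) (-(3 / 10 : ℝ)) (3 / 10)
      have hKi2 : IntervalIntegrable (fun v : ℝ => KK (zz t0) v * v ^ 2) volume
        (-(3 / 10 : ℝ)) (3 / 10) :=
        Continuous.intervalIntegrable ((KK_continuous (zz t0)).mul (continuous_pow 2)) _ _
      have e3 : (∫ v in (-(3 / 10 : ℝ))..(3 / 10), KK (zz t0) v *
        (1.047 * (0.085 * (d ^ 2 + v ^ 2)) + 0.0011 * ‖g v‖)) =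
        0.090095 * d ^ 2 * (∫ v in (-(3 / 10 : ℝ))..(3 / 10), KK (zz t0) v) +
        0.090095 * (∫ v in (-(3 / 10 : ℝ))..(3 / 10), KK (zz t0) v * v ^ 2) := by
        rw [← intervalIntegral.integral_const_mul, ← intervalIntegral.integral_const_mul,
          ← intervalIntegral.integral_add (hKi.const_mul _) (hKi2.const_mul _)]
        congr 1
        ext v
        rw [hgn]; ring
      rw [e3]
      have hz1 : 0 < 1 / zz t0 := by positivity
      nlinarith [mul_nonneg (sq_nonneg d) hRt.le, mul_nonneg hz1.le hRt.le,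
        mul_le_mul_of_nonneg_left m0 (sq_nonneg d)]
    have e4 : Rt⁻¹ * (∫ v in (-(3 / 10 : ℝ))..(3 / 10), KK (zz t0) v *
        (1.047 * (0.085 * (d ^ 2 + v ^ 2)) + 0.0011 * ‖g v‖)) ≤
        0.0901 * (1.05 * d ^ 2 + 1.14 * (1 / zz t0)) := by
      rw [inv_mul_le_iff₀ hRt]; linarith
    have e5 : Rt⁻¹ * J.re ≤ d ^ 2 * (1 + 5 * (1 / zz t0)) + 4.5 * |d| * (1 / zz t0)
      - (1 - 4 * |d|) * (1 / zz t0) + (31.6 + 20.7 + 3.73) * (1 / zz t0) ^ 2 := by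
      rw [inv_mul_le_iff₀ hRt]; exact hmr
    have e6 : (0.003 * 0.86 + 0.000001 * 58 + 0.000001 * 8.2) / zz t0 ≤ 0.0027 * (1 / zz t0) := by
      rw [mul_one_div]
      exact div_le_div_of_nonneg_right (by norm_num) hz0.le
    have e7 := mul_le_mul_of_nonneg_left e5 hW.le
    have e8 := mul_le_mul_of_nonneg_left (add_le_add e4 e6) hW.le
    have e10 : W0 t0 * ((d ^ 2 * (1 + 5 * (1 / zz t0)) + 4.5 * |d| * (1 / zz t0)
      - (1 - 4 * |d|) * (1 / zz t0) + 56.03 * (1 / zz t0) ^ 2) +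
      0.0901 * (1.05 * d ^ 2 + 1.14 * (1 / zz t0)) + 0.0027 * (1 / zz t0)) =
      W0 t0 * (d ^ 2 * (1 + 5 * (1 / zz t0)) + 4.5 * |d| * (1 / zz t0)
      - (1 - 4 * |d|) * (1 / zz t0) + (31.6 + 20.7 + 3.73) * (1 / zz t0) ^ 2) +
      W0 t0 * (0.0901 * (1.05 * d ^ 2 + 1.14 * (1 / zz t0)) + 0.0027 * (1 / zz t0)) := by
      norm_num
      ring
    rw [e10]
    linarith
  · -- refined
    intro v hv
    have hv2 : v ^ 2 ≤ 9 / 100 := by rw [← sq_abs]; nlinarith [abs_nonneg v]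
    have hy : ‖(c : ℂ) + tt t0 (t0 * v)‖ ≤ 0.03 := by
      have h1 := hyn v
      have h2 : t0 ^ 2 * (d ^ 2 + v ^ 2) ≤ 0.03 ^ 2 := by
        have : t0 ^ 2 ≤ (1 / 50) ^ 2 := pow_le_pow_left₀ h0.le h50 2
        nlinarith [sq_nonneg d, sq_nonneg v]
      rw [← h1] at h2
      exact le_of_sq_le_sq h2 (by norm_num)
    have f := fac hP1 t0 v h0 h50 hv 1 1 le_rfl (by norm_num) _ hy 0.0424 (by norm_num)
    have e1 : R (t0 * v) - (t0 ^ 3 / 2 : ℝ) * (1 + (v : ℂ) * I) * g v =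
        (1 / 2 : ℂ) * (cexp (-(((1 : ℕ) : ℂ) * tt t0 (t0 * v))) *
          (1 - cexp (-(((1 : ℕ) : ℂ) * tt t0 (t0 * v)))) *
        (2 * pt (cexp (-tt t0 (t0 * v))) (cexp (-tt t0 (t0 * v)) ^ (2 * 1))) *
        (4 * sinh (((c : ℂ) + tt t0 (t0 * v)) / 2) ^ 2) -
        ((1 : ℕ) : ℂ) * tt t0 (t0 * v) * ((c : ℂ) + tt t0 (t0 * v)) ^ 2) := by
      rw [hyv v, hR, hg]
      simp only [Nat.cast_one, one_mul, mul_one]
      rw [hyv v, tt_eq]
      push_cast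
      ring
    rw [e1, norm_mul]
    have e2 : ‖((1 : ℕ) : ℂ) * tt t0 (t0 * v) * ((c : ℂ) + tt t0 (t0 * v)) ^ 2‖ ≤
        t0 * 1.045 * (t0 ^ 2 * (d ^ 2 + v ^ 2)) := by
      rw [Nat.cast_one, one_mul, norm_mul, norm_pow, hyn]
      have := tt_norm t0 v 1.045 h0 (by norm_num) (by nlinarith)
      gcongr
    have e3 : ((1 + ((1 : ℕ) : ℝ) * 0.0209) * (1 + ((1 : ℕ) : ℝ) * 0.0157) * (1 + 0.0424) * 1.0001 - 1 : ℝ) ≤
        0.08102 := by norm_num
    have e4 := f.trans (mul_le_mul e3 e2 (norm_nonneg _) (by norm_num))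
    have e5 : ‖(1 / 2 : ℂ)‖ = 1 / 2 := by simp
    rw [e5]
    have e6 : 0 ≤ t0 ^ 3 * (d ^ 2 + v ^ 2) := by positivity
    nlinarith
  · -- mid
    intro v hv1 hv
    have hv2 : v ^ 2 ≤ 9 / 25 := by rw [← sq_abs]; nlinarith [abs_nonneg v]
    rw [hR]; simp only
    rw [norm_mul, norm_mul, norm_mul]
    have a1 : ‖cexp (-tt t0 (t0 * v))‖ ≤ 1 := by
      rw [q_norm]; exact Real.exp_le_one_iff.2 (by linarith)
    have a2 : ‖1 - cexp (-tt t0 (t0 * v))‖ ≤ t0 * 1.17 :=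
      (one_sub_exp_le _ (by rw [tt_re]; exact h0.le)).trans
        (tt_norm t0 v 1.17 h0 (by norm_num) (by nlinarith))
    have a3 := ptA hP2 t0 v h0 h50 hv 1 (by norm_num)
    rw [mul_one] at a3
    have a4 : ‖4 * sinh (((c : ℂ) + tt t0 (t0 * v)) / 2) ^ 2‖ ≤ 1.01 * (t0 ^ 2 * (0.00016 + 9 / 25)) := by
      refine (sinh4_le _ ((hynorm v (by linarith)).trans (by norm_num))).trans ?_
      rw [hyn]
      gcongr
    calc ‖cexp (-tt t0 (t0 * v))‖ * ‖1 - cexp (-tt t0 (t0 * v))‖ *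
          ‖pt (cexp (-tt t0 (t0 * v))) (cexp (-tt t0 (t0 * v)) ^ 2)‖ *
          ‖4 * sinh (((c : ℂ) + tt t0 (t0 * v)) / 2) ^ 2‖ ≤
        1 * (t0 * 1.17) * 1 * (1.01 * (t0 ^ 2 * (0.00016 + 9 / 25))) := by gcongr
      _ ≤ t0 ^ 3 / 2 * 0.86 := by
        have : 0 < t0 ^ 3 := by positivity
        nlinarith
  · intro v hv1 hv
    have hv2 : v ^ 2 ≤ 9 := by rw [← sq_abs]; nlinarith [abs_nonneg v]
    rw [hR]; simp only
    rw [norm_mul, norm_mul, norm_mul]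
    have a1 : ‖cexp (-tt t0 (t0 * v))‖ ≤ 1 := by
      rw [q_norm]; exact Real.exp_le_one_iff.2 (by linarith)
    have a2 : ‖1 - cexp (-tt t0 (t0 * v))‖ ≤ t0 * 3.17 :=
      (one_sub_exp_le _ (by rw [tt_re]; exact h0.le)).trans
        (tt_norm t0 v 3.17 h0 (by norm_num) (by nlinarith))
    have a3 := ptB hP3 t0 (t0 * v) h0 h50 1 le_rfl
    rw [mul_one] at a3
    have a4 : ‖4 * sinh (((c : ℂ) + tt t0 (t0 * v)) / 2) ^ 2‖ ≤ 1.01 * (t0 ^ 2 * (0.00016 + 9)) := by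
      refine (sinh4_le _ ((hynorm v hv).trans (by norm_num))).trans ?_
      rw [hyn]
      gcongr
    calc ‖cexp (-tt t0 (t0 * v))‖ * ‖1 - cexp (-tt t0 (t0 * v))‖ *
          ‖pt (cexp (-tt t0 (t0 * v))) (cexp (-tt t0 (t0 * v)) ^ 2)‖ *
          ‖4 * sinh (((c : ℂ) + tt t0 (t0 * v)) / 2) ^ 2‖ ≤
        1 * (t0 * 3.17) * (1 / t0) * (1.01 * (t0 ^ 2 * (0.00016 + 9))) := by gcongr
      _ = 3.17 * (1.01 * (0.00016 + 9)) * t0 ^ 2 := by field_simp
      _ ≤ 29 * t0 ^ 2 := by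
        have : 0 < t0 ^ 2 := by positivity
        nlinarith
      _ = t0 ^ 3 / 2 * (58 / t0) := by field_simp; norm_num
  · intro θ hθ1 hθ
    rw [hR]; simp only
    rw [norm_mul, norm_mul, norm_mul]
    have a1 : ‖cexp (-tt t0 θ)‖ ≤ 1 := by
      rw [q_norm]; exact Real.exp_le_one_iff.2 (by linarith)
    have a2 : ‖1 - cexp (-tt t0 θ)‖ ≤ 2 := by
      refine (norm_sub_le _ _).trans ?_
      rw [norm_one]; linarith
    have a3 := ptB hP3 t0 θ h0 h50 1 le_rfl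
    rw [mul_one] at a3
    have a4 : ‖4 * sinh (((c : ℂ) + tt t0 θ) / 2) ^ 2‖ ≤ 4.1 := by
      apply sinh4_crude
      rw [Complex.add_re, Complex.ofReal_re, tt_re, hc, abs_mul, abs_of_pos h0]
      nlinarith [abs_nonneg d]
    calc ‖cexp (-tt t0 θ)‖ * ‖1 - cexp (-tt t0 θ)‖ *
          ‖pt (cexp (-tt t0 θ)) (cexp (-tt t0 θ) ^ 2)‖ *
          ‖4 * sinh (((c : ℂ) + tt t0 θ) / 2) ^ 2‖ ≤ 1 * 2 * (1 / t0) * 4.1 := by gcongr
      _ = 8.2 / t0 := by ring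

/-- B0 -/
theorem b0 (hE : EtaStatement) (hM : MinorStatement) (hP1 : Ptb1Statement)
    (hP2 : Ptb2Statement) (hP3 : Ptb3Statement) (hLm : LapmStatement) (hL : Lap0Statement)
    (hC : ContStatement) : B0Statement := by
  intro t0 c N h0 h50 ht
  have hz := zz_lower t0 h0 h50
  have hz0 : 0 < zz t0 := by linarith
  have hW := W0_pos t0 h0
  have ha1 : 1 / zz t0 ≤ 1 / 328.9 := one_div_le_one_div_of_le (by norm_num) hz
  have ha0 : 0 < 1 / zz t0 := by positivity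
  constructor
  · intro hc
    have hdz : 0.62 * t0 ≤ 4.08 * (1 / zz t0) := by
      unfold zz
      rw [one_div_div, mul_div_assoc', le_div_iff₀ (by positivity)]
      have h4 := Real.pi_lt_d4
      have h3 := Real.pi_gt_three
      have h5 : Real.pi ^ 2 ≤ 9.86966 := by nlinarith
      nlinarith
    set d := (c + t0) / t0 with hd
    have hcd : c + t0 = t0 * d := by rw [hd]; field_simp
    have hdabs : |d| ≤ 4.08 * (1 / zz t0) := by
      have : |d| ≤ 0.62 * t0 := by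
        rw [hd, abs_div, abs_of_pos h0, div_le_iff₀ h0]
        nlinarith
      linarith
    have hd1 : |d| ≤ 0.0125 := by
      refine hdabs.trans ?_
      calc 4.08 * (1 / zz t0) ≤ 4.08 * (1 / 328.9) := by gcongr
        _ ≤ 0.0125 := by norm_num
    have key := b0_master hE hM hP1 hP2 hP3 hLm hL hC t0 c d N h0 h50 ht hcd hd1
    refine key.trans ?_
    set a := 1 / zz t0
    have hd2 : d ^ 2 ≤ 16.65 * a ^ 2 := by
      rw [← sq_abs]
      nlinarith [abs_nonneg d]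
    have hneg : (d ^ 2 * (1 + 5 * a) + 4.5 * |d| * a
      - (1 - 4 * |d|) * a + 56.03 * a ^ 2) +
      0.0901 * (1.05 * d ^ 2 + 1.14 * a) + 0.0027 * a ≤ 0 := by
      have h1 : d ^ 2 * (1 + 5 * a) ≤ 16.65 * a ^ 2 * 1.02 := by
        have : 1 + 5 * a ≤ 1.02 := by
          have : (1 : ℝ) / 328.9 ≤ 0.0031 := by norm_num
          linarith
        exact mul_le_mul hd2 this (by positivity) (by positivity)
      have h2 : 8.5 * |d| * a ≤ 34.7 * a ^ 2 := by nlinarith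
      have h3 : a ^ 2 ≤ 0.00305 * a := by
        have : (1 : ℝ) / 328.9 ≤ 0.00305 := by norm_num
        nlinarith
      nlinarith
    exact mul_nonpos_of_nonneg_of_nonpos hW.le hneg
  · intro hc
    have key := b0_master hE hM hP1 hP2 hP3 hLm hL hC t0 c 0 N h0 h50 ht (by rw [hc]; ring)
      (by norm_num)
    refine key.trans ?_
    set a := 1 / zz t0 with ha
    have h3 : a ^ 2 ≤ 0.00305 * a := by
      have : (1 : ℝ) / 328.9 ≤ 0.00305 := by norm_num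
      nlinarith
    have e : -(0.7 * W0 t0 / zz t0) = W0 t0 * (-(0.7 * a)) := by rw [ha]; ring
    rw [e]
    apply mul_le_mul_of_nonneg_left _ hW.le
    simp only [abs_zero]
    nlinarith

end Pool.Agent.Helper21_UR
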