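import Pool.Agent.Helper21_UR.ASM

/-!
# Laplace core for the modules B0, B1, B2 (MP_c97607_co)
-/

namespace Pool.Agent.Helper21_UR

open Complex MeasureTheory

theorem one_add_ne (v : ℝ) : (1 + (v : ℂ) * I) ≠ 0 := by
  intro h
  have := congrArg Complex.re h
  simp at this

theorem tt_eq (t0 v : ℝ) : tt t0 (t0 * v) = (t0 : ℂ) * (1 + (v : ℂ) * I) := by
  unfold tt; push_cast; ring

/-- The exponent identity. -/
theorem expo_id (t0 v X : ℝ) (h0 : 0 < t0) (hX : 3 * t0 ^ 2 * X = Real.pi ^ 2) :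
    cexp ((Real.pi : ℂ) ^ 2 / (3 * tt t0 (t0 * v)) + (X : ℂ) * tt t0 (t0 * v)) =
      Real.exp (zz t0) * KK (zz t0) v * cexp (I * psi (zz t0) v) := by
  have hXe : X = Real.pi ^ 2 / (3 * t0 ^ 2) := by
    rw [eq_div_iff (by positivity)]; linarith
  have hv : (1 + (v : ℂ) * I) ≠ 0 := one_add_ne v
  have hv2 : (1 + (v : ℂ) ^ 2) ≠ 0 := by
    have : (0 : ℝ) < 1 + v ^ 2 := by positivity
    exact_mod_cast this.ne'
  have ht : (t0 : ℂ) ≠ 0 := by exact_mod_cast h0.ne'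
  unfold KK psi
  rw [Complex.ofReal_exp, Complex.ofReal_exp, ← Complex.exp_add, ← Complex.exp_add, tt_eq, hXe]
  congr 1
  unfold zz
  push_cast
  field_simp
  have hI : (I : ℂ) ^ 2 = -1 := I_sq
  ring_nf
  rw [hI]
  ring

theorem core_id (hE : EtaStatement) (t0 v : ℝ) (N : ℕ) (h0 : 0 < t0) (h50 : t0 ≤ 1 / 50)
    (hv : |v| ≤ 3) (ht : 3 * t0 ^ 2 * ((N : ℝ) - 1 / 12) = Real.pi ^ 2) :
    ∃ ε : ℂ, ‖ε‖ ≤ 1 / 1000 ∧
      (QP (cexp (-tt t0 (t0 * v))))⁻¹ ^ 2 * cexp ((N : ℂ) * tt t0 (t0 * v)) =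
      (t0 : ℂ) * (1 + (v : ℂ) * I) / (2 * (Real.pi : ℂ)) *
        (Real.exp (zz t0) * KK (zz t0) v * cexp (I * psi (zz t0) v)) * (1 + ε) := by
  obtain ⟨ε, h1, h2⟩ := hE t0 v h0 h50 hv _ rfl
  refine ⟨ε, h1, ?_⟩
  rw [h2, ← expo_id t0 v _ h0 ht]
  have e1 : cexp ((Real.pi : ℂ) ^ 2 / (3 * tt t0 (t0 * v)) - tt t0 (t0 * v) / 12) *
      cexp ((N : ℂ) * tt t0 (t0 * v)) =
      cexp ((Real.pi : ℂ) ^ 2 / (3 * tt t0 (t0 * v)) +
        (((N : ℝ) - 1 / 12 : ℝ) : ℂ) * tt t0 (t0 * v)) := by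
    rw [← Complex.exp_add]; congr 1; push_cast; ring
  rw [← e1, tt_eq]
  ring

theorem norm_tau_le (v b : ℝ) (hb : 0 ≤ b) (h : 1 + v ^ 2 ≤ b ^ 2) : ‖(1 + (v : ℂ) * I)‖ ≤ b := by
  have h1 : ‖(1 + (v : ℂ) * I)‖ = Real.sqrt (1 + v ^ 2) := by
    rw [Complex.norm_def, Complex.normSq_apply]
    simp
    ring_nf
  rw [h1]
  exact Real.sqrt_le_iff.2 ⟨hb, h⟩

theorem KK_pos (z v : ℝ) : 0 < KK z v := Real.exp_pos _

theorem KK_le (z v a : ℝ) (hz : 0 ≤ z) (h : a * (1 + v ^ 2) ≤ v ^ 2) :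
    KK z v ≤ Real.exp (-(z / 2) * a) := by
  unfold KK
  apply Real.exp_le_exp.2
  have h1 : a ≤ v ^ 2 / (1 + v ^ 2) := by
    rw [le_div_iff₀ (by positivity)]; exact h
  nlinarith

/-- norm of the core. -/
theorem core_norm (hE : EtaStatement) (t0 v a b : ℝ) (N : ℕ) (h0 : 0 < t0) (h50 : t0 ≤ 1 / 50)
    (hv : |v| ≤ 3) (ht : 3 * t0 ^ 2 * ((N : ℝ) - 1 / 12) = Real.pi ^ 2)
    (ha : a * (1 + v ^ 2) ≤ v ^ 2) (hb : 0 ≤ b) (hb2 : 1 + v ^ 2 ≤ b ^ 2) :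
    ‖(QP (cexp (-tt t0 (t0 * v))))⁻¹ ^ 2 * cexp ((N : ℂ) * tt t0 (t0 * v))‖ ≤
      t0 * b / (2 * Real.pi) * (Real.exp (zz t0) * Real.exp (-(zz t0 / 2) * a)) * 1.001 := by
  obtain ⟨ε, h1, h2⟩ := core_id hE t0 v N h0 h50 hv ht
  have hz : 0 ≤ zz t0 := by unfold zz; positivity
  have hpi := Real.pi_pos
  rw [h2, norm_mul, norm_mul, norm_mul, norm_mul, norm_div, norm_mul, norm_mul,
    Complex.norm_real, Complex.norm_real, Complex.norm_real, Complex.norm_real]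
  have n1 : ‖cexp (I * psi (zz t0) v)‖ = 1 := by
    rw [mul_comm]; exact Complex.norm_exp_ofReal_mul_I _
  rw [n1, mul_one, Real.norm_of_nonneg h0.le, Real.norm_of_nonneg hpi.le,
    Real.norm_of_nonneg (Real.exp_pos _).le, Real.norm_of_nonneg (KK_pos _ _).le]
  have n2 : ‖(1 : ℂ) + ε‖ ≤ 1.001 := by
    refine (norm_add_le _ _).trans ?_
    rw [norm_one]; linarith
  have n3 := norm_tau_le v b hb hb2
  have n4 := KK_le (zz t0) v a hz ha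
  have n5 : ‖(2 : ℂ)‖ = 2 := by simp
  have n6 : 0 ≤ Real.exp (zz t0) * KK (zz t0) v := by
    have := (KK_pos (zz t0) v).le
    positivity
  rw [n5]
  gcongr

/-- Exponential decay beats powers. -/
theorem pow_mul_exp_le (x x0 a : ℝ) (p : ℕ) (hx0 : 0 < x0) (hx : x0 ≤ x) (ha : (p : ℝ) ≤ a * x0) :
    x ^ p * Real.exp (-(a * x)) ≤ x0 ^ p * Real.exp (-(a * x0)) := by
  have h1 : x = x0 * (1 + (x - x0) / x0) := by field_simp; ring
  have h2 : 0 ≤ (x - x0) / x0 := div_nonneg (by linarith) hx0.le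
  have h3 : (1 + (x - x0) / x0) ^ p ≤ Real.exp ((p : ℝ) * ((x - x0) / x0)) := by
    rw [Real.exp_nat_mul]
    gcongr
    linarith [Real.add_one_le_exp ((x - x0) / x0)]
  have h4 : (p : ℝ) * ((x - x0) / x0) ≤ a * (x - x0) := by
    rw [mul_div_assoc', div_le_iff₀ hx0]
    nlinarith
  have h5 : x ^ p = x0 ^ p * (1 + (x - x0) / x0) ^ p := by rw [← mul_pow, ← h1]
  calc x ^ p * Real.exp (-(a * x)) = x0 ^ p * ((1 + (x - x0) / x0) ^ p * Real.exp (-(a * x))) := by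
        rw [h5]; ring
    _ ≤ x0 ^ p * (Real.exp (a * (x - x0)) * Real.exp (-(a * x))) := by
        gcongr
        exact h3.trans (Real.exp_le_exp.2 h4)
    _ = x0 ^ p * Real.exp (-(a * x0)) := by
        rw [← Real.exp_add]; congr 2; ring

end Pool.Agent.Helper21_UR
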