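import Pool.Agent.Helper21_UR.BCore

/-!
# Laplace core, second part (MP_c97607_co)
-/

namespace Pool.Agent.Helper21_UR

open Complex MeasureTheory intervalIntegral

theorem KK_continuous (z : ℝ) : Continuous (KK z) := by
  unfold KK
  refine Real.continuous_exp.comp (continuous_const.mul ?_)
  refine (continuous_pow 2).div (by fun_prop) fun v => ?_
  positivity

theorem psi_continuous (z : ℝ) : Continuous (psi z) := by
  unfold psi
  refine continuous_const.mul ?_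
  refine (continuous_pow 3).div (by fun_prop) fun v => ?_
  positivity

theorem KKe_continuous (z : ℝ) :
    Continuous fun v : ℝ => (KK z v : ℂ) * cexp (I * psi z v) := by
  have h1 : Continuous fun v : ℝ => (KK z v : ℂ) := Complex.continuous_ofReal.comp (KK_continuous z)
  have h2 : Continuous fun v : ℝ => (psi z v : ℂ) :=
    Complex.continuous_ofReal.comp (psi_continuous z)
  exact h1.mul (continuous_const.mul h2).cexp

theorem zz_lower (t0 : ℝ) (h0 : 0 < t0) (h1 : t0 ≤ 1 / 50) : 328.9 ≤ zz t0 := by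
  unfold zz
  rw [le_div_iff₀ (by positivity)]
  have := Real.pi_gt_d4
  nlinarith

/-- tail 1 -/
theorem tail1 (z : ℝ) (hz : 328.9 ≤ z) :
    0.71 * Real.exp (-(z / 2) * (9 / 109)) * z ≤ 0.003 * Real.sqrt (2 * Real.pi / z) := by
  have hz0 : 0 < z := by linarith
  have hpi := Real.pi_gt_three
  have h1 : z ^ 2 * Real.exp (-((9 / 218) * z)) ≤ 328.9 ^ 2 * Real.exp (-((9 / 218) * 328.9)) :=
    pow_mul_exp_le z 328.9 (9 / 218) 2 (by norm_num) hz (by norm_num)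
  have h2 : Real.exp (-((9 / 218 : ℝ) * 328.9)) ≤ 1.4e-6 := by
    have e1 : (2.718 : ℝ) ^ 13 ≤ Real.exp 13 := by
      have : Real.exp 13 = Real.exp 1 ^ 13 := by rw [← Real.exp_nat_mul]; norm_num
      rw [this]
      exact pow_le_pow_left₀ (by norm_num) (by linarith [Real.exp_one_gt_d9]) 13
    have e2 : (1.72 : ℝ) ≤ Real.exp 0.57 := by
      have := Real.quadratic_le_exp_of_nonneg (x := 0.57) (by norm_num)
      norm_num at this ⊢
      linarith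
    have e3 : (9 / 218 : ℝ) * 328.9 = 13 + 0.57 + (9 / 218 * 328.9 - 13.57) := by ring
    have e4 : Real.exp ((9 / 218 : ℝ) * 328.9) = Real.exp 13 * Real.exp 0.57 *
        Real.exp (9 / 218 * 328.9 - 13.57) := by
      rw [← Real.exp_add, ← Real.exp_add, ← e3]
    have e5 : (1 : ℝ) ≤ Real.exp (9 / 218 * 328.9 - 13.57) := Real.one_le_exp (by norm_num)
    rw [Real.exp_neg, inv_le_comm₀ (Real.exp_pos _) (by norm_num), e4]
    have e6 : (2.718 : ℝ) ^ 13 * 1.72 * 1 ≤ Real.exp 13 * Real.exp 0.57 *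
        Real.exp (9 / 218 * 328.9 - 13.57) := by gcongr
    refine le_trans ?_ e6
    norm_num
  have h3 : z ^ 2 * Real.exp (-(z / 2) * (9 / 109)) ≤ 0.1515 := by
    have e : -(z / 2) * (9 / 109) = -((9 / 218) * z) := by ring
    rw [e]
    refine h1.trans ?_
    calc (328.9 : ℝ) ^ 2 * Real.exp (-((9 / 218) * 328.9)) ≤ 328.9 ^ 2 * 1.4e-6 := by gcongr
      _ ≤ 0.1515 := by norm_num
  have h4 : 36 / z ≤ Real.sqrt (2 * Real.pi / z) := by
    apply Real.le_sqrt_of_sq_le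
    rw [div_pow, div_le_div_iff₀ (by positivity) hz0]
    nlinarith
  have h5 : Real.exp (-(z / 2) * (9 / 109)) * z ≤ 0.1515 / z := by
    rw [le_div_iff₀ hz0]; linarith
  have h6 : 0.71 * (0.1515 / z) ≤ 0.003 * (36 / z) := by
    rw [mul_div_assoc', mul_div_assoc']
    exact div_le_div_of_nonneg_right (by norm_num) hz0.le
  linarith

/-- tail 2 -/
theorem tail2 (z : ℝ) (hz : 328.9 ≤ z) :
    15.3 * Real.exp (-(z / 2) * (9 / 34)) * z ^ 2 ≤ 0.000001 * Real.sqrt (2 * Real.pi / z) := by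
  have hz0 : 0 < z := by linarith
  have hpi := Real.pi_gt_three
  have h1 : z ^ 3 * Real.exp (-((9 / 68) * z)) ≤ 328.9 ^ 3 * Real.exp (-((9 / 68) * 328.9)) :=
    pow_mul_exp_le z 328.9 (9 / 68) 3 (by norm_num) hz (by norm_num)
  have h2 : Real.exp (-((9 / 68 : ℝ) * 328.9)) ≤ 1e-18 := by
    have e1 : (2.7 : ℝ) ^ 43 ≤ Real.exp 43 := by
      have : Real.exp 43 = Real.exp 1 ^ 43 := by rw [← Real.exp_nat_mul]; norm_num
      rw [this]
      exact pow_le_pow_left₀ (by norm_num) (by linarith [Real.exp_one_gt_d9]) 43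
    have e4 : Real.exp 43 ≤ Real.exp ((9 / 68 : ℝ) * 328.9) := Real.exp_le_exp.2 (by norm_num)
    rw [Real.exp_neg, inv_le_comm₀ (Real.exp_pos _) (by norm_num)]
    refine le_trans ?_ (e1.trans e4)
    norm_num
  have h3 : z ^ 3 * Real.exp (-(z / 2) * (9 / 34)) ≤ 4e-11 := by
    have e : -(z / 2) * (9 / 34) = -((9 / 68) * z) := by ring
    rw [e]
    refine h1.trans ?_
    calc (328.9 : ℝ) ^ 3 * Real.exp (-((9 / 68) * 328.9)) ≤ 328.9 ^ 3 * 1e-18 := by gcongr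
      _ ≤ 4e-11 := by norm_num
  have h4 : 36 / z ≤ Real.sqrt (2 * Real.pi / z) := by
    apply Real.le_sqrt_of_sq_le
    rw [div_pow, div_le_div_iff₀ (by positivity) hz0]
    nlinarith
  have h5 : Real.exp (-(z / 2) * (9 / 34)) * z ^ 2 ≤ 4e-11 / z := by
    rw [le_div_iff₀ hz0]; linarith
  have h6 : 15.3 * (4e-11 / z) ≤ 0.000001 * (36 / z) := by
    rw [mul_div_assoc', mul_div_assoc']
    exact div_le_div_of_nonneg_right (by norm_num) hz0.le
  linarith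

/-- tail 3 -/
theorem tail3 (t0 : ℝ) (h0 : 0 < t0) (h1 : t0 ≤ 1 / 50) :
    Real.exp (-(1.3 / t0)) * 1.01 * (1 / t0) * zz t0 ≤
      0.000001 * (t0 ^ 5 / (8 * Real.pi ^ 2) * Real.sqrt (2 * Real.pi / zz t0)) := by
  have hpi := Real.pi_gt_three
  have hpi4 : Real.pi < 3.1416 := Real.pi_lt_d4
  set s : ℝ := 1 / t0 with hs
  have hs50 : 50 ≤ s := by rw [hs, le_div_iff₀ h0]; linarith
  have hs0 : 0 < s := by linarith
  have ht : t0 = 1 / s := by rw [hs]; field_simp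
  have e1 := pow_mul_exp_le s 50 1.3 8 (by norm_num) hs50 (by norm_num)
  have h2 : Real.exp (-((1.3 : ℝ) * 50)) ≤ 1e-27 := by
    have e1 : (2.7 : ℝ) ^ 65 ≤ Real.exp 65 := by
      have : Real.exp 65 = Real.exp 1 ^ 65 := by rw [← Real.exp_nat_mul]; norm_num
      rw [this]
      exact pow_le_pow_left₀ (by norm_num) (by linarith [Real.exp_one_gt_d9]) 65
    have e4 : Real.exp 65 = Real.exp ((1.3 : ℝ) * 50) := by norm_num
    rw [Real.exp_neg, inv_le_comm₀ (Real.exp_pos _) (by norm_num), ← e4]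
    refine le_trans ?_ e1
    norm_num
  have h3 : s ^ 8 * Real.exp (-(1.3 * s)) ≤ 4e-14 := by
    refine e1.trans ?_
    calc (50 : ℝ) ^ 8 * Real.exp (-(1.3 * 50)) ≤ 50 ^ 8 * 1e-27 := by gcongr
      _ ≤ 4e-14 := by norm_num
  have hz : zz t0 = 2 * Real.pi ^ 2 / 3 * s := by unfold zz; rw [hs]; field_simp
  have hsq : 1 / s ≤ Real.sqrt (2 * Real.pi / zz t0) := by
    apply Real.le_sqrt_of_sq_le
    rw [hz, div_pow, one_pow, div_le_div_iff₀ (by positivity) (by positivity)]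
    nlinarith [mul_pos hs0 hs0, mul_pos (mul_pos hs0 hs0) (by positivity : 0 < Real.pi)]
  have e13 : -(1.3 / t0) = -(1.3 * s) := by rw [hs]; ring
  rw [e13]
  have hA : t0 ^ 5 / (8 * Real.pi ^ 2) * (1 / s) ≤
      t0 ^ 5 / (8 * Real.pi ^ 2) * Real.sqrt (2 * Real.pi / zz t0) :=
    mul_le_mul_of_nonneg_left hsq (by positivity)
  have hB : Real.exp (-(1.3 * s)) * 1.01 * s * zz t0 ≤
      0.000001 * (t0 ^ 5 / (8 * Real.pi ^ 2) * (1 / s)) := by
    rw [hz, ht]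
    have : Real.exp (-(1.3 * s)) * 1.01 * s * (2 * Real.pi ^ 2 / 3 * s) =
        (s ^ 8 * Real.exp (-(1.3 * s))) * (1.01 * (2 * Real.pi ^ 2 / 3) / s ^ 6) := by
      field_simp
    rw [this]
    have e5 : 0.000001 * ((1 / s) ^ 5 / (8 * Real.pi ^ 2) * (1 / s)) =
        0.000001 / (8 * Real.pi ^ 2) / s ^ 6 := by
      field_simp
    rw [e5]
    calc (s ^ 8 * Real.exp (-(1.3 * s))) * (1.01 * (2 * Real.pi ^ 2 / 3) / s ^ 6) ≤
        4e-14 * (1.01 * (2 * Real.pi ^ 2 / 3) / s ^ 6) := by gcongr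
      _ = (4e-14 * (1.01 * (2 * Real.pi ^ 2 / 3))) / s ^ 6 := by ring
      _ ≤ 0.000001 / (8 * Real.pi ^ 2) / s ^ 6 := by
        gcongr
        rw [le_div_iff₀ (by positivity)]
        have : Real.pi ^ 2 ≤ 10 := by nlinarith
        nlinarith [sq_nonneg Real.pi, mul_self_nonneg (Real.pi ^ 2)]
  linarith


theorem Rt_pos (t0 : ℝ) (h0 : 0 < t0) : 0 < Real.sqrt (2 * Real.pi / zz t0) := by
  unfold zz
  have := Real.pi_pos
  positivity

/-- The interval pieces. -/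
theorem seven (H : ℝ → ℂ) (hH : Continuous H) (a b c d : ℝ) :
    ∫ θ in (-d)..d, H θ = (∫ θ in (-a)..a, H θ) + ((∫ θ in (-b)..(-a), H θ) + ∫ θ in a..b, H θ) +
      ((∫ θ in (-c)..(-b), H θ) + ∫ θ in b..c, H θ) +
      ((∫ θ in (-d)..(-c), H θ) + ∫ θ in c..d, H θ) := by
  have hi : ∀ x y : ℝ, IntervalIntegrable H volume x y := fun x y => hH.intervalIntegrable x y
  rw [← integral_add_adjacent_intervals (hi (-d) (-c)) (hi (-c) d),
    ← integral_add_adjacent_intervals (hi (-c) (-b)) (hi (-b) d),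
    ← integral_add_adjacent_intervals (hi (-b) (-a)) (hi (-a) d),
    ← integral_add_adjacent_intervals (hi (-a) a) (hi a d),
    ← integral_add_adjacent_intervals (hi a b) (hi b d),
    ← integral_add_adjacent_intervals (hi b c) (hi c d)]
  ring

theorem two_sided (H : ℝ → ℂ) (a b C : ℝ) (ha : 0 ≤ a) (hab : a ≤ b)
    (h : ∀ θ : ℝ, a ≤ |θ| → |θ| ≤ b → ‖H θ‖ ≤ C) :
    ‖(∫ θ in (-b)..(-a), H θ) + ∫ θ in a..b, H θ‖ ≤ 2 * (C * (b - a)) := by
  have h1 : ‖∫ θ in (-b)..(-a), H θ‖ ≤ C * |(-a) - (-b)| := by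
    apply intervalIntegral.norm_integral_le_of_norm_le_const
    intro x hx
    rw [Set.uIoc_of_le (by linarith)] at hx
    apply h x
    · rw [abs_of_nonpos (by linarith [hx.2])]; linarith [hx.2]
    · rw [abs_of_nonpos (by linarith [hx.2])]; linarith [hx.1]
  have h2 : ‖∫ θ in a..b, H θ‖ ≤ C * |b - a| := by
    apply intervalIntegral.norm_integral_le_of_norm_le_const
    intro x hx
    rw [Set.uIoc_of_le hab] at hx
    apply h x
    · rw [abs_of_nonneg (by linarith [hx.1])]; linarith [hx.1]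
    · rw [abs_of_nonneg (by linarith [hx.1])]; linarith [hx.2]
  rw [show (-a) - (-b) = b - a by ring, abs_of_nonneg (by linarith)] at h1
  rw [abs_of_nonneg (by linarith)] at h2
  refine (norm_add_le _ _).trans (by linarith)

/-- The Laplace core. -/
theorem bcore (hE : EtaStatement) (hM : MinorStatement) (t0 : ℝ) (N : ℕ) (h0 : 0 < t0)
    (h50 : t0 ≤ 1 / 50) (ht : 3 * t0 ^ 2 * ((N : ℝ) - 1 / 12) = Real.pi ^ 2)
    (H R : ℝ → ℂ) (g : ℝ → ℂ) (ρ : ℝ → ℝ) (M1 M2 M3 : ℝ) (hH : Continuous H) (hg : Continuous g)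
    (hρ : Continuous ρ)
    (hHR : ∀ θ : ℝ, H θ = (QP (cexp (-tt t0 θ)))⁻¹ ^ 2 * cexp ((N : ℂ) * tt t0 θ) * R θ)
    (h1 : ∀ v : ℝ, |v| ≤ 3 / 10 →
      ‖R (t0 * v) - (t0 ^ 3 / 2 : ℝ) * (1 + (v : ℂ) * I) * g v‖ ≤ t0 ^ 3 / 2 * ρ v)
    (h2 : ∀ v : ℝ, 3 / 10 ≤ |v| → |v| ≤ 3 / 5 → ‖R (t0 * v)‖ ≤ t0 ^ 3 / 2 * M1)
    (h3 : ∀ v : ℝ, 3 / 5 ≤ |v| → |v| ≤ 3 → ‖R (t0 * v)‖ ≤ t0 ^ 3 / 2 * (M2 / t0))
    (h4 : ∀ θ : ℝ, 3 * t0 ≤ |θ| → |θ| ≤ Real.pi → ‖R θ‖ ≤ M3 / t0)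
    (hM1 : 0 ≤ M1) (hM2 : 0 ≤ M2) (hM3 : 0 ≤ M3) :
    ‖1 / (2 * (Real.pi : ℂ)) * (∫ θ in (-Real.pi)..Real.pi, H θ) -
      W0 t0 * ((Real.sqrt (2 * Real.pi / zz t0))⁻¹ : ℝ) * ∫ v in (-(3 / 10 : ℝ))..(3 / 10),
        (KK (zz t0) v : ℂ) * cexp (I * psi (zz t0) v) * (1 + (v : ℂ) * I) ^ 2 * g v‖ ≤
      W0 t0 * ((Real.sqrt (2 * Real.pi / zz t0))⁻¹ * (∫ v in (-(3 / 10 : ℝ))..(3 / 10),
        KK (zz t0) v * (1.047 * ρ v + 0.0011 * ‖g v‖)) +
        (0.003 * M1 + 0.000001 * M2 + 0.000001 * M3) / zz t0) := by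
  have hpi := Real.pi_gt_three
  have hpi0 := Real.pi_pos
  have hz := zz_lower t0 h0 h50
  have hz0 : 0 < zz t0 := by linarith
  have hRt := Rt_pos t0 h0
  set Rt := Real.sqrt (2 * Real.pi / zz t0) with hRtdef
  set EZ := Real.exp (zz t0) with hEZ
  have hEZ0 : 0 < EZ := Real.exp_pos _
  have hW : W0 t0 = t0 ^ 5 / (8 * Real.pi ^ 2) * EZ * Rt := rfl
  -- main piece
  have main : ‖1 / (2 * (Real.pi : ℂ)) * (∫ θ in (-(3 / 10 * t0))..(3 / 10 * t0), H θ) -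
      W0 t0 * (Rt⁻¹ : ℝ) * ∫ v in (-(3 / 10 : ℝ))..(3 / 10),
        (KK (zz t0) v : ℂ) * cexp (I * psi (zz t0) v) * (1 + (v : ℂ) * I) ^ 2 * g v‖ ≤
      W0 t0 * (Rt⁻¹ * (∫ v in (-(3 / 10 : ℝ))..(3 / 10),
        KK (zz t0) v * (1.047 * ρ v + 0.0011 * ‖g v‖))) := by
    have e1 : (∫ θ in (-(3 / 10 * t0))..(3 / 10 * t0), H θ) =
        t0 * ∫ v in (-(3 / 10 : ℝ))..(3 / 10), H (t0 * v) := by
      rw [show ((t0 : ℝ) : ℂ) * ∫ v in (-(3 / 10 : ℝ))..(3 / 10), H (t0 * v) =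
        t0 • ∫ v in (-(3 / 10 : ℝ))..(3 / 10), H (t0 * v) by rw [Complex.real_smul]]
      rw [intervalIntegral.smul_integral_comp_mul_left]
      congr 1 <;> ring
    have hHc : Continuous fun v : ℝ => H (t0 * v) := hH.comp (by fun_prop)
    have hKe := KKe_continuous (zz t0)
    have hG : Continuous fun v : ℝ => (KK (zz t0) v : ℂ) * cexp (I * psi (zz t0) v) *
        (1 + (v : ℂ) * I) ^ 2 * g v := (hKe.mul (by fun_prop)).mul hg
    have hc : (W0 t0 : ℂ) * (Rt⁻¹ : ℝ) = ((t0 ^ 5 / (8 * Real.pi ^ 2) * EZ : ℝ) : ℂ) := by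
      rw [hW, ← Complex.ofReal_mul]
      congr 1
      field_simp
    have hc' : W0 t0 * Rt⁻¹ = t0 ^ 5 / (8 * Real.pi ^ 2) * EZ := by
      rw [hW]; field_simp
    have hsub : (∫ v in (-(3 / 10 : ℝ))..(3 / 10), 1 / (2 * (Real.pi : ℂ)) * t0 * H (t0 * v)) -
        (∫ v in (-(3 / 10 : ℝ))..(3 / 10), ((t0 ^ 5 / (8 * Real.pi ^ 2) * EZ : ℝ) : ℂ) *
          ((KK (zz t0) v : ℂ) * cexp (I * psi (zz t0) v) * (1 + (v : ℂ) * I) ^ 2 * g v)) =
        ∫ v in (-(3 / 10 : ℝ))..(3 / 10), (1 / (2 * (Real.pi : ℂ)) * t0 * H (t0 * v) -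
          ((t0 ^ 5 / (8 * Real.pi ^ 2) * EZ : ℝ) : ℂ) *
          ((KK (zz t0) v : ℂ) * cexp (I * psi (zz t0) v) * (1 + (v : ℂ) * I) ^ 2 * g v)) :=
      (intervalIntegral.integral_sub
        (Continuous.intervalIntegrable (continuous_const.mul hHc) _ _)
        (Continuous.intervalIntegrable (continuous_const.mul hG) _ _)).symm
    rw [e1, hc, ← mul_assoc, ← mul_assoc (W0 t0), hc', ← intervalIntegral.integral_const_mul,
      ← intervalIntegral.integral_const_mul, ← intervalIntegral.integral_const_mul, hsub]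
    refine intervalIntegral.norm_integral_le_of_norm_le (by norm_num) ?_ ?_
    · refine Filter.Eventually.of_forall fun v hv => ?_
      have hv' : |v| ≤ 3 / 10 := abs_le.2 ⟨hv.1.le, hv.2⟩
      have hv2 : v ^ 2 ≤ 9 / 100 := by
        rw [← sq_abs]; nlinarith [abs_nonneg v]
      obtain ⟨ε, hε, hid⟩ := core_id hE t0 v N h0 h50 (by linarith) ht
      have hn1 : ‖(1 + (v : ℂ) * I)‖ ≤ 1.045 := norm_tau_le v 1.045 (by norm_num) (by nlinarith)
      have hK := KK_pos (zz t0) v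
      have key : 1 / (2 * (Real.pi : ℂ)) * t0 * H (t0 * v) -
          ((t0 ^ 5 / (8 * Real.pi ^ 2) * EZ : ℝ) : ℂ) *
            ((KK (zz t0) v : ℂ) * cexp (I * psi (zz t0) v) * (1 + (v : ℂ) * I) ^ 2 * g v) =
          ((t0 ^ 2 / (4 * Real.pi ^ 2) * EZ * KK (zz t0) v : ℝ) : ℂ) *
            cexp (I * psi (zz t0) v) * (1 + (v : ℂ) * I) *
            ((R (t0 * v) - (t0 ^ 3 / 2 : ℝ) * (1 + (v : ℂ) * I) * g v) * (1 + ε) +
              (t0 ^ 3 / 2 : ℝ) * (1 + (v : ℂ) * I) * g v * ε) := by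
        rw [hHR, hid, ← hEZ]
        push_cast
        have hpc : (Real.pi : ℂ) ≠ 0 := by exact_mod_cast hpi0.ne'
        field_simp
        ring
      rw [key, norm_mul, norm_mul, norm_mul]
      have n1 : ‖cexp (I * psi (zz t0) v)‖ = 1 := by
        rw [mul_comm]; exact Complex.norm_exp_ofReal_mul_I _
      rw [n1, mul_one, Complex.norm_real, Real.norm_of_nonneg (by positivity)]
      have n2 : ‖(1 : ℂ) + ε‖ ≤ 1.001 := by
        refine (norm_add_le _ _).trans ?_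
        rw [norm_one]; linarith
      have r0 : 0 ≤ t0 ^ 3 / 2 * ρ v := (norm_nonneg _).trans (h1 v hv')
      have r1 : 0 ≤ ρ v := by
        by_contra hneg
        push Not at hneg
        have : t0 ^ 3 / 2 * ρ v < 0 := mul_neg_of_pos_of_neg (by positivity) hneg
        linarith
      have n3 : ‖(R (t0 * v) - (t0 ^ 3 / 2 : ℝ) * (1 + (v : ℂ) * I) * g v) * (1 + ε) +
              (t0 ^ 3 / 2 : ℝ) * (1 + (v : ℂ) * I) * g v * ε‖ ≤
          t0 ^ 3 / 2 * (1.001 * ρ v + 0.00105 * ‖g v‖) := by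
        refine (norm_add_le _ _).trans ?_
        have a1 : ‖(R (t0 * v) - (t0 ^ 3 / 2 : ℝ) * (1 + (v : ℂ) * I) * g v) * (1 + ε)‖ ≤
            t0 ^ 3 / 2 * ρ v * 1.001 := by
          rw [norm_mul]
          exact mul_le_mul (h1 v hv') n2 (norm_nonneg _) r0
        have a2 : ‖(t0 ^ 3 / 2 : ℝ) * (1 + (v : ℂ) * I) * g v * ε‖ ≤
            t0 ^ 3 / 2 * 1.045 * ‖g v‖ * (1 / 1000) := by
          rw [norm_mul, norm_mul, norm_mul, Complex.norm_real,
            Real.norm_of_nonneg (by positivity)]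
          gcongr
        have a3 : 0 ≤ t0 ^ 3 / 2 * ‖g v‖ := by positivity
        nlinarith
      have r2 : 0 ≤ 1.001 * ρ v + 0.00105 * ‖g v‖ := by positivity
      calc t0 ^ 2 / (4 * Real.pi ^ 2) * EZ * KK (zz t0) v * ‖(1 + (v : ℂ) * I)‖ *
            ‖(R (t0 * v) - (t0 ^ 3 / 2 : ℝ) * (1 + (v : ℂ) * I) * g v) * (1 + ε) +
              (t0 ^ 3 / 2 : ℝ) * (1 + (v : ℂ) * I) * g v * ε‖ ≤
          t0 ^ 2 / (4 * Real.pi ^ 2) * EZ * KK (zz t0) v * 1.045 *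
            (t0 ^ 3 / 2 * (1.001 * ρ v + 0.00105 * ‖g v‖)) := by gcongr
        _ = t0 ^ 5 / (8 * Real.pi ^ 2) * EZ *
            (KK (zz t0) v * (1.045 * (1.001 * ρ v + 0.00105 * ‖g v‖))) := by ring
        _ ≤ t0 ^ 5 / (8 * Real.pi ^ 2) * EZ * (KK (zz t0) v * (1.047 * ρ v + 0.0011 * ‖g v‖)) := by
          have : 1.045 * (1.001 * ρ v + 0.00105 * ‖g v‖) ≤ 1.047 * ρ v + 0.0011 * ‖g v‖ := by
            have := norm_nonneg (g v)
            nlinarith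
          gcongr
    · exact (continuous_const.mul ((KK_continuous _).mul ((continuous_const.mul hρ).add
        (continuous_const.mul hg.norm)))).intervalIntegrable _ _
  -- tails
  have q1 : ∀ v : ℝ, 3 / 10 ≤ |v| → 9 / 100 ≤ v ^ 2 := fun v hv => by
    rw [← sq_abs]; nlinarith
  have q2 : ∀ v : ℝ, 3 / 5 ≤ |v| → 9 / 25 ≤ v ^ 2 := fun v hv => by
    rw [← sq_abs]; nlinarith
  have sc : ∀ θ : ℝ, ∃ v : ℝ, θ = t0 * v ∧ |θ| = t0 * |v| := fun θ => by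
    refine ⟨θ / t0, by field_simp, ?_⟩
    rw [abs_div, abs_of_pos h0]; field_simp
  have T1 : ‖(∫ θ in (-(3 / 5 * t0))..(-(3 / 10 * t0)), H θ) +
      ∫ θ in (3 / 10 * t0)..(3 / 5 * t0), H θ‖ ≤ 2 * (t0 * 1.17 / (2 * Real.pi) *
        (EZ * Real.exp (-(zz t0 / 2) * (9 / 109))) * 1.001 * (t0 ^ 3 / 2 * M1) *
          (3 / 5 * t0 - 3 / 10 * t0)) := by
    apply two_sided H _ _ _ (by positivity) (by linarith)
    intro θ ha hb
    obtain ⟨v, hθ, hav⟩ := sc θ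
    rw [hav] at ha hb
    have ha' : 3 / 10 ≤ |v| := by nlinarith
    have hb' : |v| ≤ 3 / 5 := by nlinarith
    have hvv : v ^ 2 ≤ 9 / 25 := by rw [← sq_abs]; nlinarith [abs_nonneg v]
    rw [hHR, hθ, norm_mul]
    have := core_norm hE t0 v (9 / 109) 1.17 N h0 h50 (by linarith) ht
      (by nlinarith [q1 v ha']) (by norm_num) (by nlinarith)
    exact mul_le_mul this (h2 v ha' hb') (norm_nonneg _) (by positivity)
  have T2 : ‖(∫ θ in (-(3 * t0))..(-(3 / 5 * t0)), H θ) +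
      ∫ θ in (3 / 5 * t0)..(3 * t0), H θ‖ ≤ 2 * (t0 * 3.17 / (2 * Real.pi) *
        (EZ * Real.exp (-(zz t0 / 2) * (9 / 34))) * 1.001 * (t0 ^ 3 / 2 * (M2 / t0)) *
          (3 * t0 - 3 / 5 * t0)) := by
    apply two_sided H _ _ _ (by positivity) (by linarith)
    intro θ ha hb
    obtain ⟨v, hθ, hav⟩ := sc θ
    rw [hav] at ha hb
    have ha' : 3 / 5 ≤ |v| := by nlinarith
    have hb' : |v| ≤ 3 := by nlinarith
    have hvv : v ^ 2 ≤ 9 := by rw [← sq_abs]; nlinarith [abs_nonneg v]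
    rw [hHR, hθ, norm_mul]
    have := core_norm hE t0 v (9 / 34) 3.17 N h0 h50 hb' ht
      (by nlinarith [q2 v ha']) (by norm_num) (by nlinarith)
    exact mul_le_mul this (h3 v ha' hb') (norm_nonneg _) (by positivity)
  have T3 : ‖(∫ θ in (-Real.pi)..(-(3 * t0)), H θ) +
      ∫ θ in (3 * t0)..Real.pi, H θ‖ ≤ 2 * (EZ * Real.exp (-(1.3 / t0)) * 1.01 * (M3 / t0) *
        (Real.pi - 3 * t0)) := by
    apply two_sided H _ _ _ (by positivity) (by linarith)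
    intro θ ha hb
    rw [hHR, norm_mul, norm_mul]
    have a1 := (hM t0 θ 0 (1 / 2) h0 h50 ha hb (Or.inl rfl)).2
    have a2 : ‖cexp ((N : ℂ) * tt t0 θ)‖ = Real.exp (Real.pi ^ 2 / (3 * t0) + t0 / 12) := by
      rw [Complex.norm_exp]
      congr 1
      have : ((N : ℂ) * tt t0 θ).re = N * t0 := by simp [tt]
      rw [this]
      field_simp
      nlinarith
    have a3 : Real.exp (Real.pi ^ 2 / (3 * t0) - 1.3 / t0) *
        Real.exp (Real.pi ^ 2 / (3 * t0) + t0 / 12) ≤ EZ * Real.exp (-(1.3 / t0)) * 1.01 := by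
      have e1 : Real.exp (Real.pi ^ 2 / (3 * t0) - 1.3 / t0) *
        Real.exp (Real.pi ^ 2 / (3 * t0) + t0 / 12) = EZ * Real.exp (-(1.3 / t0)) *
          Real.exp (t0 / 12) := by
        rw [hEZ, ← Real.exp_add, ← Real.exp_add, ← Real.exp_add]
        congr 1
        unfold zz
        field_simp
        ring
      rw [e1]
      have e2 : Real.exp (t0 / 12) ≤ 1.01 := by
        have hb1 : t0 / 12 ≤ 1 / 600 := by linarith
        have hb2 := Real.exp_bound_div_one_sub_of_interval (x := 1 / 600) (by norm_num) (by norm_num)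
        have hb3 := Real.exp_le_exp.2 hb1
        norm_num at hb2 ⊢
        linarith
      gcongr
    rw [a2]
    have a4 : ‖(QP (cexp (-tt t0 θ)))⁻¹ ^ 2‖ * Real.exp (Real.pi ^ 2 / (3 * t0) + t0 / 12) ≤
        EZ * Real.exp (-(1.3 / t0)) * 1.01 := (mul_le_mul_of_nonneg_right a1 (Real.exp_pos _).le).trans a3
    exact mul_le_mul a4 (h4 θ ha hb) (norm_nonneg _) (by positivity)
  have t1 := tail1 (zz t0) hz
  have t2 := tail2 (zz t0) hz
  have t3 := tail3 t0 h0 h50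
  rw [← hRtdef] at t1 t2 t3
  have npi : ‖1 / (2 * (Real.pi : ℂ))‖ = 1 / (2 * Real.pi) := by
    rw [norm_div, norm_one, norm_mul, Complex.norm_real, Real.norm_of_nonneg hpi0.le]
    norm_num
  have U1 : ‖1 / (2 * (Real.pi : ℂ)) * ((∫ θ in (-(3 / 5 * t0))..(-(3 / 10 * t0)), H θ) +
      ∫ θ in (3 / 10 * t0)..(3 / 5 * t0), H θ)‖ ≤ W0 t0 * (0.003 * M1 / zz t0) := by
    rw [norm_mul, npi]
    calc 1 / (2 * Real.pi) * ‖(∫ θ in (-(3 / 5 * t0))..(-(3 / 10 * t0)), H θ) +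
        ∫ θ in (3 / 10 * t0)..(3 / 5 * t0), H θ‖ ≤ 1 / (2 * Real.pi) *
        (2 * (t0 * 1.17 / (2 * Real.pi) *
        (EZ * Real.exp (-(zz t0 / 2) * (9 / 109))) * 1.001 * (t0 ^ 3 / 2 * M1) *
          (3 / 5 * t0 - 3 / 10 * t0))) := by gcongr
      _ = t0 ^ 5 / (8 * Real.pi ^ 2) * EZ * M1 / zz t0 *
          (0.6 * 1.17 * 1.001 * Real.exp (-(zz t0 / 2) * (9 / 109)) * zz t0) := by
        field_simp
        ring
      _ ≤ t0 ^ 5 / (8 * Real.pi ^ 2) * EZ * M1 / zz t0 * (0.003 * Rt) := by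
        refine mul_le_mul_of_nonneg_left (le_trans ?_ t1) (by positivity)
        have := Real.exp_pos (-(zz t0 / 2) * (9 / 109))
        nlinarith [mul_pos this hz0]
      _ = W0 t0 * (0.003 * M1 / zz t0) := by rw [hW]; ring
  have U2 : ‖1 / (2 * (Real.pi : ℂ)) * ((∫ θ in (-(3 * t0))..(-(3 / 5 * t0)), H θ) +
      ∫ θ in (3 / 5 * t0)..(3 * t0), H θ)‖ ≤ W0 t0 * (0.000001 * M2 / zz t0) := by
    rw [norm_mul, npi]
    have hinv : 1 / t0 ≤ zz t0 := by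
      unfold zz
      rw [div_le_div_iff₀ h0 (by positivity)]
      have : 3 ≤ 2 * Real.pi ^ 2 := by nlinarith
      nlinarith
    calc 1 / (2 * Real.pi) * ‖(∫ θ in (-(3 * t0))..(-(3 / 5 * t0)), H θ) +
        ∫ θ in (3 / 5 * t0)..(3 * t0), H θ‖ ≤ 1 / (2 * Real.pi) *
        (2 * (t0 * 3.17 / (2 * Real.pi) *
        (EZ * Real.exp (-(zz t0 / 2) * (9 / 34))) * 1.001 * (t0 ^ 3 / 2 * (M2 / t0)) *
          (3 * t0 - 3 / 5 * t0))) := by gcongr
      _ = t0 ^ 5 / (8 * Real.pi ^ 2) * EZ * M2 / zz t0 *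
          (4.8 * 3.17 * 1.001 * Real.exp (-(zz t0 / 2) * (9 / 34)) * (1 / t0) * zz t0) := by
        field_simp
        ring
      _ ≤ t0 ^ 5 / (8 * Real.pi ^ 2) * EZ * M2 / zz t0 * (0.000001 * Rt) := by
        refine mul_le_mul_of_nonneg_left (le_trans ?_ t2) (by positivity)
        have hx := Real.exp_pos (-(zz t0 / 2) * (9 / 34))
        calc 4.8 * 3.17 * 1.001 * Real.exp (-(zz t0 / 2) * (9 / 34)) * (1 / t0) * zz t0 ≤
            4.8 * 3.17 * 1.001 * Real.exp (-(zz t0 / 2) * (9 / 34)) * zz t0 * zz t0 := by gcongr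
          _ = 4.8 * 3.17 * 1.001 * (Real.exp (-(zz t0 / 2) * (9 / 34)) * zz t0 ^ 2) := by ring
          _ ≤ 15.3 * (Real.exp (-(zz t0 / 2) * (9 / 34)) * zz t0 ^ 2) := by
            refine mul_le_mul_of_nonneg_right (by norm_num) (by positivity)
          _ = 15.3 * Real.exp (-(zz t0 / 2) * (9 / 34)) * zz t0 ^ 2 := by ring
      _ = W0 t0 * (0.000001 * M2 / zz t0) := by rw [hW]; ring
  have U3 : ‖1 / (2 * (Real.pi : ℂ)) * ((∫ θ in (-Real.pi)..(-(3 * t0)), H θ) +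
      ∫ θ in (3 * t0)..Real.pi, H θ)‖ ≤ W0 t0 * (0.000001 * M3 / zz t0) := by
    rw [norm_mul, npi]
    calc 1 / (2 * Real.pi) * ‖(∫ θ in (-Real.pi)..(-(3 * t0)), H θ) +
        ∫ θ in (3 * t0)..Real.pi, H θ‖ ≤ 1 / (2 * Real.pi) *
        (2 * (EZ * Real.exp (-(1.3 / t0)) * 1.01 * (M3 / t0) * (Real.pi - 3 * t0))) := by gcongr
      _ ≤ 1 / (2 * Real.pi) *
        (2 * (EZ * Real.exp (-(1.3 / t0)) * 1.01 * (M3 / t0) * Real.pi)) := by
          gcongr; linarith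
      _ = EZ * M3 / zz t0 * (Real.exp (-(1.3 / t0)) * 1.01 * (1 / t0) * zz t0) := by
        field_simp
      _ ≤ EZ * M3 / zz t0 * (0.000001 * (t0 ^ 5 / (8 * Real.pi ^ 2) * Rt)) :=
        mul_le_mul_of_nonneg_left t3 (by positivity)
      _ = W0 t0 * (0.000001 * M3 / zz t0) := by rw [hW]; ring
  rw [seven H hH (3 / 10 * t0) (3 / 5 * t0) (3 * t0) Real.pi]
  set X0 := ∫ θ in (-(3 / 10 * t0))..(3 / 10 * t0), H θ
  set X1 := (∫ θ in (-(3 / 5 * t0))..(-(3 / 10 * t0)), H θ) +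
      ∫ θ in (3 / 10 * t0)..(3 / 5 * t0), H θ
  set X2 := (∫ θ in (-(3 * t0))..(-(3 / 5 * t0)), H θ) + ∫ θ in (3 / 5 * t0)..(3 * t0), H θ
  set X3 := (∫ θ in (-Real.pi)..(-(3 * t0)), H θ) + ∫ θ in (3 * t0)..Real.pi, H θ
  set Y := (W0 t0 : ℂ) * (Rt⁻¹ : ℝ) * ∫ v in (-(3 / 10 : ℝ))..(3 / 10),
        (KK (zz t0) v : ℂ) * cexp (I * psi (zz t0) v) * (1 + (v : ℂ) * I) ^ 2 * g v
  have e : 1 / (2 * (Real.pi : ℂ)) * (X0 + X1 + X2 + X3) - Y =
      (1 / (2 * (Real.pi : ℂ)) * X0 - Y) + (1 / (2 * (Real.pi : ℂ)) * X1 +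
        (1 / (2 * (Real.pi : ℂ)) * X2 + 1 / (2 * (Real.pi : ℂ)) * X3)) := by ring
  rw [e]
  have s1 := norm_add_le (1 / (2 * (Real.pi : ℂ)) * X2) (1 / (2 * (Real.pi : ℂ)) * X3)
  have s2 := norm_add_le (1 / (2 * (Real.pi : ℂ)) * X1)
    (1 / (2 * (Real.pi : ℂ)) * X2 + 1 / (2 * (Real.pi : ℂ)) * X3)
  have s3 := norm_add_le (1 / (2 * (Real.pi : ℂ)) * X0 - Y) (1 / (2 * (Real.pi : ℂ)) * X1 +
        (1 / (2 * (Real.pi : ℂ)) * X2 + 1 / (2 * (Real.pi : ℂ)) * X3))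
  have e9 : W0 t0 * (Rt⁻¹ * (∫ v in (-(3 / 10 : ℝ))..(3 / 10),
        KK (zz t0) v * (1.047 * ρ v + 0.0011 * ‖g v‖)) +
        (0.003 * M1 + 0.000001 * M2 + 0.000001 * M3) / zz t0) =
      W0 t0 * (Rt⁻¹ * (∫ v in (-(3 / 10 : ℝ))..(3 / 10),
        KK (zz t0) v * (1.047 * ρ v + 0.0011 * ‖g v‖))) + W0 t0 * (0.003 * M1 / zz t0) +
        W0 t0 * (0.000001 * M2 / zz t0) + W0 t0 * (0.000001 * M3 / zz t0) := by ring
  rw [e9]
  linarith

end Pool.Agent.Helper21_UR
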