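import Pool.Agent.Helper21_UR.BTools

/-!
# The slowly varying factor in B0, B1 (MP_c97607_co)
-/

namespace Pool.Agent.Helper21_UR

open Complex MeasureTheory intervalIntegral

theorem tt_norm (t0 v b : ℝ) (h0 : 0 < t0) (hb : 0 ≤ b) (h : 1 + v ^ 2 ≤ b ^ 2) :
    ‖tt t0 (t0 * v)‖ ≤ t0 * b := by
  rw [tt_eq, norm_mul, Complex.norm_real, Real.norm_of_nonneg h0.le]
  exact mul_le_mul_of_nonneg_left (norm_tau_le v b hb h) h0.le

theorem fac (hP : Ptb1Statement) (t0 v : ℝ) (h0 : 0 < t0) (h50 : t0 ≤ 1 / 50)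
    (hv : |v| ≤ 3 / 10) (a b : ℕ) (hb1 : 1 ≤ b) (hb2 : b ≤ 2) (y : ℂ) (hy : ‖y‖ ≤ 0.03) (P : ℝ)
    (hPP : (2 * b + 1) * 0.0209 / (2 - (2 * b + 1) * 0.0209) + 0.01 ≤ P) :
    ‖cexp (-((a : ℂ) * tt t0 (t0 * v))) * (1 - cexp (-((b : ℂ) * tt t0 (t0 * v)))) *
        (2 * pt (cexp (-tt t0 (t0 * v))) (cexp (-tt t0 (t0 * v)) ^ (2 * b))) *
        (4 * sinh (y / 2) ^ 2) - (b : ℂ) * tt t0 (t0 * v) * y ^ 2‖ ≤
      ((1 + a * 0.0209) * (1 + b * 0.0157) * (1 + P) * 1.0001 - 1) *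
        ‖(b : ℂ) * tt t0 (t0 * v) * y ^ 2‖ := by
  set t : ℂ := tt t0 (t0 * v) with ht
  have hv2 : v ^ 2 ≤ 9 / 100 := by rw [← sq_abs]; nlinarith [abs_nonneg v]
  have htn : ‖t‖ ≤ 0.0209 := (tt_norm t0 v 1.045 h0 (by norm_num) (by nlinarith)).trans (by linarith)
  have htre : t.re = t0 := tt_re _ _
  have hbr : (1 : ℝ) ≤ b := by exact_mod_cast hb1
  have hbr2 : (b : ℝ) ≤ 2 := by exact_mod_cast hb2
  -- first factor
  have f1 : ‖cexp (-((a : ℂ) * t)) - 1‖ ≤ a * 0.0209 * ‖(1 : ℂ)‖ := by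
    have h1 := one_sub_exp_le ((a : ℂ) * t) (by
      have : ((a : ℂ) * t).re = a * t0 := by rw [← htre]; simp
      rw [this]; positivity)
    rw [norm_sub_rev, norm_one, mul_one]
    refine h1.trans ?_
    rw [norm_mul, Complex.norm_natCast]
    gcongr
  have hbt : ‖(b : ℂ) * t‖ ≤ b * 0.0209 := by
    rw [norm_mul, Complex.norm_natCast]; gcongr
  have f2 : ‖(1 - cexp (-((b : ℂ) * t))) - (b : ℂ) * t‖ ≤ b * 0.0157 * ‖(b : ℂ) * t‖ := by
    have hx : ‖-((b : ℂ) * t)‖ ≤ 1 := by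
      rw [norm_neg]; nlinarith
    have h1 := Complex.exp_bound hx (n := 2) (by norm_num)
    rw [norm_neg] at h1
    have e : (1 - cexp (-((b : ℂ) * t))) - (b : ℂ) * t =
        -(cexp (-((b : ℂ) * t)) - ∑ m ∈ Finset.range 2, (-((b : ℂ) * t)) ^ m / (m.factorial : ℂ)) := by
      simp [Finset.sum_range_succ, Nat.factorial]
      ring
    rw [e, norm_neg]
    refine h1.trans ?_
    have e2 : (((2 : ℕ).succ : ℝ) * (((2 : ℕ).factorial : ℝ) * (2 : ℕ))⁻¹) = 0.75 := by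
      norm_num [Nat.factorial]
    rw [e2]
    have h3 := norm_nonneg ((b : ℂ) * t)
    nlinarith
  -- third factor
  have f3 : ‖2 * pt (cexp (-t)) (cexp (-t) ^ (2 * b)) - 1‖ ≤ P * ‖(1 : ℂ)‖ := by
    rw [norm_one, mul_one]
    have hqn : ‖cexp (-t)‖ ≤ 1 := by
      rw [Complex.norm_exp, Complex.neg_re, htre]
      exact Real.exp_le_one_iff.2 (by linarith)
    have hzn : ‖cexp (-t) ^ (2 * b)‖ ≤ 1 := by
      rw [norm_pow]; exact pow_le_one₀ (norm_nonneg _) hqn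
    have harg : |arg (cexp (-t) ^ (2 * b))| ≤ 1 / 4 := by
      have e : cexp (-t) ^ (2 * b) = cexp (-(((2 * b : ℕ) : ℂ) * t)) := q_pow _ _ _
      have him : (-(((2 * b : ℕ) : ℂ) * t)).im = -(2 * b * (t0 * v)) := by
        rw [Complex.neg_im]
        have : ((((2 * b : ℕ) : ℂ)) * t).im = 2 * b * (t0 * v) := by
          rw [← tt_im t0 (t0 * v), ← ht]; push_cast; simp
        rw [this]
      have hsmall : |(-(((2 * b : ℕ) : ℂ) * t)).im| ≤ 1 / 40 := by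
        rw [him, abs_neg, abs_mul, abs_mul, abs_mul, abs_of_pos h0, abs_of_nonneg (by positivity : (0:ℝ) ≤ b),
          abs_of_pos (by norm_num : (0:ℝ) < 2)]
        have : t0 * |v| ≤ 1 / 50 * (3 / 10) := by gcongr
        nlinarith [abs_nonneg v]
      rw [e, arg_exp_eq _ (by linarith)]
      linarith
    have h1 := hP t0 v (cexp (-t) ^ (2 * b)) h0 h50 hv hzn harg (cexp (-t)) rfl
    have hq2 : cexp (-t) * cexp (-t) ^ (2 * b) = cexp (-(((2 * b + 1 : ℕ) : ℂ) * t)) := by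
      rw [← q_pow, pow_succ]; ring
    rw [hq2] at h1
    set w : ℂ := cexp (-(((2 * b + 1 : ℕ) : ℂ) * t)) with hw
    have hw1 : ‖1 - w‖ ≤ (2 * b + 1) * 0.0209 := by
      have h1 := one_sub_exp_le (((2 * b + 1 : ℕ) : ℂ) * t) (by
        have : (((2 * b + 1 : ℕ) : ℂ) * t).re = (2 * b + 1 : ℕ) * t0 := by rw [← htre]; simp
        rw [this]; positivity)
      refine h1.trans ?_
      rw [norm_mul, Complex.norm_natCast]
      push_cast
      gcongr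
    have hw2 : 2 - (2 * b + 1) * 0.0209 ≤ ‖1 + w‖ := by
      have : (2 : ℂ) = (1 + w) + (1 - w) := by ring
      have h3 : ‖(2 : ℂ)‖ ≤ ‖1 + w‖ + ‖1 - w‖ := by
        conv_lhs => rw [this]
        exact norm_add_le _ _
      rw [show ‖(2 : ℂ)‖ = 2 by simp] at h3
      linarith
    have hpos : 0 < 2 - (2 * (b : ℝ) + 1) * 0.0209 := by nlinarith
    have hne : (1 + w) ≠ 0 := by
      intro h; rw [h, norm_zero] at hw2; linarith
    have e : 2 * pt (cexp (-t)) (cexp (-t) ^ (2 * b)) - 1 =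
        2 * (pt (cexp (-t)) (cexp (-t) ^ (2 * b)) - 1 / (1 + w)) + (1 - w) / (1 + w) := by
      field_simp; ring
    rw [e]
    refine (norm_add_le _ _).trans ?_
    rw [norm_mul, norm_div, show ‖(2 : ℂ)‖ = 2 by simp]
    have h5 : ‖1 - w‖ / ‖1 + w‖ ≤ (2 * b + 1) * 0.0209 / (2 - (2 * b + 1) * 0.0209) := by
      gcongr
    linarith
  have hP0 : 0 ≤ P := by
    have : 0 ≤ P * ‖(1 : ℂ)‖ := (norm_nonneg _).trans f3
    rwa [norm_one, mul_one] at this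
  have f4 : ‖4 * sinh (y / 2) ^ 2 - y ^ 2‖ ≤ 0.0001 * ‖y ^ 2‖ := by
    refine (sinh4_sub y (by linarith)).trans ?_
    rw [norm_pow]
    have h5 : ‖y‖ ^ 2 ≤ 0.0009 := by nlinarith [norm_nonneg y]
    have : ‖y‖ ^ 4 = ‖y‖ ^ 2 * ‖y‖ ^ 2 := by ring
    rw [this]
    nlinarith [sq_nonneg ‖y‖]
  have g1 := rel_mul _ _ _ _ _ _ (by positivity) f1 f2
  have c1 : 0 ≤ (1 + (a : ℝ) * 0.0209) * (1 + b * 0.0157) - 1 := by
    have : 0 ≤ (a : ℝ) * 0.0209 := by positivity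
    nlinarith
  have g2 := rel_mul _ _ _ _ _ _ c1 g1 f3
  have c2 : 0 ≤ (1 + ((1 + (a : ℝ) * 0.0209) * (1 + b * 0.0157) - 1)) * (1 + P) - 1 := by
    nlinarith
  have g3 := rel_mul _ _ _ _ _ _ c2 g2 f4
  have e1 : (1 + ((1 + ((1 + (a : ℝ) * 0.0209) * (1 + b * 0.0157) - 1)) * (1 + P) - 1)) *
      (1 + 0.0001) - 1 = (1 + a * 0.0209) * (1 + b * 0.0157) * (1 + P) * 1.0001 - 1 := by
    norm_num
  rw [e1] at g3
  simpa using g3

/-- crude bound for the modulus of the factor. -/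
theorem ptA (hP : Ptb2Statement) (t0 v : ℝ) (h0 : 0 < t0) (h50 : t0 ≤ 1 / 50)
    (hv : |v| ≤ 3 / 5) (b : ℕ) (hb2 : b ≤ 2) :
    ‖pt (cexp (-tt t0 (t0 * v))) (cexp (-tt t0 (t0 * v)) ^ (2 * b))‖ ≤ 1 := by
  have hqn : ‖cexp (-tt t0 (t0 * v)) ^ (2 * b)‖ = Real.exp (-(2 * b * t0)) := by
    rw [q_pow, Complex.norm_exp]
    congr 1
    have : (-(((2 * b : ℕ) : ℂ) * tt t0 (t0 * v))).re = -((2 * b : ℕ) * t0) := by
      have htre := tt_re t0 (t0 * v)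
      rw [Complex.neg_re]; simp [htre]
    rw [this]; push_cast; ring
  have hbr2 : (b : ℝ) ≤ 2 := by exact_mod_cast hb2
  have hb0 : (0 : ℝ) ≤ b := by positivity
  have hbt : 2 * (b : ℝ) * t0 ≤ 0.08 := by nlinarith
  apply hP t0 v _ h0 h50 hv
  · rw [hqn]
    have := Real.one_sub_le_exp_neg (2 * b * t0)
    linarith
  · rw [hqn]; exact Real.exp_le_one_iff.2 (by nlinarith [mul_nonneg hb0 h0.le])
  · rw [q_pow]
    have him : (-(((2 * b : ℕ) : ℂ) * tt t0 (t0 * v))).im = -(2 * b * (t0 * v)) := by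
      rw [Complex.neg_im]
      have : (((2 * b : ℕ) : ℂ) * tt t0 (t0 * v)).im = 2 * b * (t0 * v) := by
        rw [← tt_im t0 (t0 * v)]; push_cast; simp [tt]
      rw [this]
    have hsmall : |(-(((2 * b : ℕ) : ℂ) * tt t0 (t0 * v))).im| ≤ 1 / 20 := by
      rw [him, abs_neg, abs_mul, abs_mul, abs_mul, abs_of_pos h0, abs_of_nonneg hb0,
        abs_of_pos (by norm_num : (0:ℝ) < 2)]
      have : t0 * |v| ≤ 1 / 50 * (3 / 5) := by gcongr
      nlinarith [abs_nonneg v]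
    rw [arg_exp_eq _ (by linarith)]
    linarith

theorem ptB (hP : Ptb3Statement) (t0 θ : ℝ) (h0 : 0 < t0) (h50 : t0 ≤ 1 / 50) (b : ℕ)
    (hb : 1 ≤ b) : ‖pt (cexp (-tt t0 θ)) (cexp (-tt t0 θ) ^ (2 * b))‖ ≤ 1 / t0 := by
  have hq : ‖cexp (-tt t0 θ)‖ = Real.exp (-t0) := q_norm _ _
  have hq1 : ‖cexp (-tt t0 θ)‖ < 1 := by rw [hq]; simpa using Real.exp_lt_exp.2 (show -t0 < 0 by linarith)
  have hz : ‖cexp (-tt t0 θ) ^ (2 * b)‖ ≤ Real.exp (-(2 * t0)) := by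
    rw [norm_pow, hq, ← Real.exp_nat_mul]
    apply Real.exp_le_exp.2
    have hbr : (1 : ℝ) ≤ b := by exact_mod_cast hb
    push_cast
    nlinarith
  have h2 := one_sub_exp_neg_ge (2 * t0) (by linarith) (by linarith)
  have hz1 : ‖cexp (-tt t0 θ) ^ (2 * b)‖ < 1 := by linarith
  refine (hP _ _ hq1 hz1).trans ?_
  apply one_div_le_one_div_of_le h0
  linarith

end Pool.Agent.Helper21_UR
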