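import Pool.Agent.Helper21_UR.BCore2

/-!
# Tools for B0, B1, B2 (MP_c97607_co)
-/

namespace Pool.Agent.Helper21_UR

open Complex MeasureTheory intervalIntegral

theorem sinh4 (y : ℂ) : 4 * sinh (y / 2) ^ 2 = cexp y + cexp (-y) - 2 := by
  have h1 : cexp y = cexp (y / 2) * cexp (y / 2) := by rw [← Complex.exp_add]; congr 1; ring
  have h2 : cexp (-y) = cexp (-(y / 2)) * cexp (-(y / 2)) := by
    rw [← Complex.exp_add]; congr 1; ring
  have h3 : cexp (y / 2) * cexp (-(y / 2)) = 1 := by rw [← Complex.exp_add]; simp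
  rw [h1, h2, Complex.sinh]
  linear_combination -2 * h3

theorem sinh4_sub (y : ℂ) (hy : ‖y‖ ≤ 1) : ‖4 * sinh (y / 2) ^ 2 - y ^ 2‖ ≤ 0.105 * ‖y‖ ^ 4 := by
  have h1 := Complex.exp_bound hy (n := 4) (by norm_num)
  have hy' : ‖-y‖ ≤ 1 := by rwa [norm_neg]
  have h2 := Complex.exp_bound hy' (n := 4) (by norm_num)
  rw [norm_neg] at h2
  have e : 4 * sinh (y / 2) ^ 2 - y ^ 2 =
      (cexp y - ∑ m ∈ Finset.range 4, y ^ m / (m.factorial : ℂ)) +
      (cexp (-y) - ∑ m ∈ Finset.range 4, (-y) ^ m / (m.factorial : ℂ)) := by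
    rw [sinh4]
    simp [Finset.sum_range_succ, Nat.factorial]
    ring
  rw [e]
  refine (norm_add_le _ _).trans ?_
  have h4 : 0 ≤ ‖y‖ ^ 4 := by positivity
  have e2 : ‖y‖ ^ 4 * (((4 : ℕ).succ : ℝ) * (((4 : ℕ).factorial : ℝ) * (4 : ℕ))⁻¹) ≤
      0.0525 * ‖y‖ ^ 4 := by
    norm_num [Nat.factorial]
    linarith
  linarith

theorem sinh4_le (y : ℂ) (hy : ‖y‖ ≤ 0.3) : ‖4 * sinh (y / 2) ^ 2‖ ≤ 1.01 * ‖y‖ ^ 2 := by
  have h1 := sinh4_sub y (by linarith)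
  have h2 : 4 * sinh (y / 2) ^ 2 = (4 * sinh (y / 2) ^ 2 - y ^ 2) + y ^ 2 := by ring
  rw [h2]
  refine (norm_add_le _ _).trans ?_
  rw [norm_pow]
  have h3 : ‖y‖ ^ 4 ≤ 0.09 * ‖y‖ ^ 2 := by
    have : ‖y‖ ^ 4 = ‖y‖ ^ 2 * ‖y‖ ^ 2 := by ring
    rw [this]
    have h5 : ‖y‖ ^ 2 ≤ 0.09 := by nlinarith [norm_nonneg y]
    exact mul_le_mul_of_nonneg_right h5 (by positivity)
  have h6 := sq_nonneg ‖y‖
  linarith

theorem exp_small : Real.exp 0.02 ≤ 1.05 := by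
  have h3 := Real.exp_bound_div_one_sub_of_interval (x := 0.02) (by norm_num) (by norm_num)
  refine h3.trans ?_
  norm_num

theorem sinh4_crude (y : ℂ) (hy : |y.re| ≤ 0.02) : ‖4 * sinh (y / 2) ^ 2‖ ≤ 4.1 := by
  rw [sinh4]
  have h1 : ‖cexp y‖ ≤ 1.05 := by
    rw [Complex.norm_exp]
    have h2 : y.re ≤ 0.02 := (abs_le.1 hy).2
    exact (Real.exp_le_exp.2 h2).trans exp_small
  have h2 : ‖cexp (-y)‖ ≤ 1.05 := by
    rw [Complex.norm_exp]
    have h2 : (-y).re ≤ 0.02 := by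
      rw [Complex.neg_re]; linarith [(abs_le.1 hy).1]
    exact (Real.exp_le_exp.2 h2).trans exp_small
  refine (norm_sub_le _ _).trans ?_
  refine (add_le_add (norm_add_le _ _) le_rfl).trans ?_
  have h3 : ‖(2 : ℂ)‖ = 2 := by simp
  rw [h3]
  linarith

/-- `|1 - e^{-x}| ≤ |x|` for `Re x ≥ 0`. -/
theorem one_sub_exp_le (x : ℂ) (hx : 0 ≤ x.re) : ‖1 - cexp (-x)‖ ≤ ‖x‖ := by
  have h := Convex.norm_image_sub_le_of_norm_hasDerivWithin_le (𝕜 := ℂ) (G := ℂ)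
    (f := fun w : ℂ => cexp (-w)) (f' := fun w : ℂ => -cexp (-w)) (C := 1)
    (s := {w : ℂ | 0 ≤ w.re}) (x := x) (y := 0)
    (fun w _ => by
      have := ((Complex.hasDerivAt_exp (-w)).comp w (hasDerivAt_neg w)).hasDerivWithinAt
        (s := {w : ℂ | 0 ≤ w.re})
      simpa [Function.comp_def] using this)
    (fun w hw => by
      rw [norm_neg, Complex.norm_exp]
      have hw' : (0 : ℝ) ≤ w.re := hw
      have : (-w).re ≤ 0 := by rw [Complex.neg_re]; linarith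
      exact Real.exp_le_one_iff.2 this)
    (convex_halfSpace_re_ge 0) hx (by simp)
  simpa using h

theorem exp_sub_one_le (x : ℂ) (hx : ‖x‖ ≤ 1) : ‖cexp x - 1‖ ≤ ‖x‖ * (1 + ‖x‖) := by
  have h1 := Complex.norm_exp_sub_one_sub_id_le hx
  have h2 : cexp x - 1 = (cexp x - 1 - x) + x := by ring
  rw [h2]
  refine (norm_add_le _ _).trans ?_
  nlinarith

theorem arg_exp_eq (x : ℂ) (hx : |x.im| ≤ 1) : arg (cexp x) = x.im := by
  have hpi := Real.pi_gt_three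
  have h := Complex.log_exp (x := x) (by linarith [(abs_le.1 hx).1]) (by linarith [(abs_le.1 hx).2])
  rw [← Complex.log_im, h]

/-- product of relative errors. -/
theorem rel_mul (a a' b b' : ℂ) (x y : ℝ) (hx : 0 ≤ x) (ha : ‖a - a'‖ ≤ x * ‖a'‖)
    (hb : ‖b - b'‖ ≤ y * ‖b'‖) : ‖a * b - a' * b'‖ ≤ ((1 + x) * (1 + y) - 1) * ‖a' * b'‖ := by
  have e : a * b - a' * b' = (a - a') * (b - b') + a' * (b - b') + (a - a') * b' := by ring
  rw [e, norm_mul a' b']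
  refine (norm_add_le _ _).trans ((add_le_add (norm_add_le _ _) le_rfl).trans ?_)
  rw [norm_mul, norm_mul, norm_mul]
  have h1 : ‖a - a'‖ * ‖b - b'‖ ≤ (x * ‖a'‖) * (y * ‖b'‖) :=
    mul_le_mul ha hb (norm_nonneg _) (by positivity)
  have h2 : ‖a'‖ * ‖b - b'‖ ≤ ‖a'‖ * (y * ‖b'‖) := mul_le_mul_of_nonneg_left hb (norm_nonneg _)
  have h3 : ‖a - a'‖ * ‖b'‖ ≤ (x * ‖a'‖) * ‖b'‖ := mul_le_mul_of_nonneg_right ha (norm_nonneg _)
  nlinarith

theorem tt_re (t0 θ : ℝ) : (tt t0 θ).re = t0 := by simp [tt]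
theorem tt_im (t0 θ : ℝ) : (tt t0 θ).im = θ := by simp [tt]

theorem q_norm (t0 θ : ℝ) : ‖cexp (-tt t0 θ)‖ = Real.exp (-t0) := by
  rw [Complex.norm_exp, Complex.neg_re, tt_re]

theorem q_pow (t0 θ : ℝ) (k : ℕ) : cexp (-tt t0 θ) ^ k = cexp (-((k : ℂ) * tt t0 θ)) := by
  rw [← Complex.exp_nat_mul]; congr 1; ring

theorem one_sub_exp_neg_ge (x : ℝ) (h0 : 0 ≤ x) (h1 : x ≤ 1) : x / 2 ≤ 1 - Real.exp (-x) := by
  have h2 : Real.exp (-x) ≤ 1 - x + x ^ 2 / 2 := by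
    have := Real.abs_exp_sub_one_sub_id_le (x := -x) (by rw [abs_neg, abs_of_nonneg h0]; exact h1)
    have h3 : Real.exp (-x) ≤ 1 / (1 + x) := by
      rw [le_div_iff₀ (by linarith), Real.exp_neg, inv_mul_le_iff₀ (Real.exp_pos _)]
      have := Real.add_one_le_exp x
      linarith
    have h4 : 1 / (1 + x) ≤ 1 - x + x ^ 2 := by
      rw [div_le_iff₀ (by linarith)]; nlinarith [pow_nonneg h0 3]
    by_contra hcon
    push Not at hcon
    have h5 : Real.exp x * Real.exp (-x) = 1 := by rw [← Real.exp_add]; simp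
    have h6 := Real.quadratic_le_exp_of_nonneg h0
    nlinarith [Real.exp_pos (-x), mul_pos (Real.exp_pos x) (Real.exp_pos (-x)), pow_nonneg h0 3,
      pow_nonneg h0 4]
  nlinarith

end Pool.Agent.Helper21_UR
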