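import Mathlib

/-!
# Strict log-concavity of the rank of unimodal sequences (MP_c97607_co): definitions
-/

namespace Pool.Agent.Helper21_UR

open Complex MeasureTheory

/-! ## The combinatorial objects -/

/-- Unimodal sequences with designated peak, of size `n` and rank `m`: triples
`(a, c, b)`, where `a` is the weakly increasing list to the left of the marked peak `c`, `b` is the
weakly decreasing list to its right, all entries are between `1` and `c`. -/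
def Uni (m : ℤ) (n : ℕ) : Set (List ℕ × ℕ × List ℕ) :=
  {x | x.1.Pairwise (· ≤ ·) ∧ x.2.2.Pairwise (· ≥ ·) ∧ 1 ≤ x.2.1 ∧
    (∀ a ∈ x.1, 1 ≤ a ∧ a ≤ x.2.1) ∧ (∀ b ∈ x.2.2, 1 ≤ b ∧ b ≤ x.2.1) ∧
    x.1.sum + x.2.1 + x.2.2.sum = n ∧ (x.2.2.length : ℤ) - x.1.length = m}

/-- The number `u(m,n)` of unimodal sequences with designated peak of size `n` and rank `m`. -/
noncomputable def u (m : ℤ) (n : ℕ) : ℕ := (Uni m n).ncard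

/-- The number of weakly monotone lists of `r` entries between `1` and `c` with sum `s`. -/
def Lc : ℕ → ℕ → ℕ → ℕ
  | 0, 0, s => if s = 0 then 1 else 0
  | 0, _ + 1, _ => 0
  | _ + 1, 0, s => if s = 0 then 1 else 0
  | c + 1, r + 1, s => Lc c (r + 1) s + (if c + 1 ≤ s then Lc (c + 1) r (s - (c + 1)) else 0)
termination_by c r _ => (c, r)

/-- The generating function of `Lc c r`, evaluated at `q`. -/
noncomputable def hh (q : ℂ) : ℕ → ℕ → ℂ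
  | 0, 0 => 1
  | 0, _ + 1 => 0
  | _ + 1, 0 => 1
  | c + 1, r + 1 => hh q c (r + 1) + q ^ (c + 1) * hh q (c + 1) r
termination_by c r => (c, r)

/-- `Y_{c,m}(q) = sum_r h_{c,r} h_{c,r+m}`. -/
noncomputable def Yf (q : ℂ) (c m : ℕ) : ℂ := ∑' r : ℕ, hh q c r * hh q c (r + m)

/-! ## q-series -/

/-- `(q)_n`. -/
noncomputable def qp (q : ℂ) (n : ℕ) : ℂ := ∏ j ∈ Finset.range n, (1 - q ^ (j + 1))

/-- `(q)_∞`. -/
noncomputable def QP (q : ℂ) : ℂ := ∏' j : ℕ, (1 - q ^ (j + 1))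

/-- `C(ζ) = 1 / ((ζ q)_∞ (q / ζ)_∞)`. -/
noncomputable def Cp (q ζ : ℂ) : ℂ :=
  ∏' j : ℕ, ((1 - ζ * q ^ (j + 1)) * (1 - ζ⁻¹ * q ^ (j + 1)))⁻¹

/-- The partial theta function `∑_j (-1)^j z^j q^{j(j+1)/2}`. -/
noncomputable def pt (q z : ℂ) : ℂ := ∑' j : ℕ, (-1) ^ j * z ^ j * q ^ (j * (j + 1) / 2)

/-- The coefficients of the partial fraction formula of `Y`. -/
noncomputable def Ac (q : ℂ) (c i : ℕ) : ℂ :=
  (-1) ^ i * q ^ (i * (i + 1) / 2) * (1 - q ^ (i + 1)) / (qp q (c - (i + 1)) * qp q (c + i + 1))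

/-- The terms of `Th`. -/
noncomputable def tk (q : ℂ) (M k : ℕ) : ℂ :=
  (-1) ^ k * q ^ ((k + 1) * M + k * (k + 1) / 2) * (1 - q ^ (k + 1)) * pt q (q ^ (2 * (k + 1)))

/-- `Th(M)`: `(q)_∞^{-2} Th(m+1)` is the generating function of `u(m, ·)`. -/
noncomputable def Th (q : ℂ) (M : ℕ) : ℂ := ∑' k : ℕ, tk q M k

/-! ## Integral representations -/

/-- The combination whose negativity gives strict log-concavity. -/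
noncomputable def SS (c : ℝ) (m n : ℕ) : ℝ :=
  Real.exp c * (u ((m : ℤ) - 1) n : ℝ) - 2 * (u (m : ℤ) n : ℝ) +
    Real.exp (-c) * (u ((m : ℤ) + 1) n : ℝ)

/-- `k`-th term of the second difference, at `q = e^{-t}`. -/
noncomputable def sk (t : ℂ) (c : ℝ) (m k : ℕ) : ℂ :=
  (-1) ^ k * cexp (-t) ^ ((k + 1) * (m + 1) + k * (k + 1) / 2) * (1 - cexp (-t) ^ (k + 1)) *
    pt (cexp (-t)) (cexp (-t) ^ (2 * (k + 1))) * (4 * sinh (((c : ℂ) + ((k : ℂ) + 1) * t) / 2) ^ 2)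

/-- `t = t0 + i θ`. -/
noncomputable def tt (t0 θ : ℝ) : ℂ := (t0 : ℂ) + (θ : ℂ) * I

/-- `w = φ - i κ t`. -/
noncomputable def ww (κ : ℝ) (t : ℂ) (φ : ℝ) : ℂ := (φ : ℂ) - I * (κ : ℂ) * t

/-- `PT(w) = e^{-iw} pt(q, e^{-2iw})`. -/
noncomputable def PT (t w : ℂ) : ℂ := cexp (-(I * w)) * pt (cexp (-t)) (cexp (-(2 * I * w)))

/-- The inner integrand. -/
noncomputable def FF (κ : ℝ) (t : ℂ) (c : ℝ) (m : ℕ) (φ : ℝ) : ℂ :=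
  cexp (-((κ : ℂ) * m * t) - I * m * φ) * PT t (ww κ t φ) *
    Cp (cexp (-t)) (cexp (I * ww κ t φ)) * (4 * sinh (((c : ℂ) + I * ww κ t φ) / 2) ^ 2)

/-- The double integral over a set of pairs `(θ, φ)`. -/
noncomputable def JR (κ t0 c : ℝ) (m n : ℕ) (A : Set (ℝ × ℝ)) : ℂ :=
  (1 / (4 * (Real.pi : ℂ) ^ 2)) *
    ∫ p in A, cexp ((n : ℂ) * tt t0 p.1) * FF κ (tt t0 p.1) c m p.2

/-- The full square. -/
def Box : Set (ℝ × ℝ) := {p | |p.1| ≤ Real.pi ∧ |p.2| ≤ Real.pi}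

/-- Regions. -/
def A0 (t0 : ℝ) : Set (ℝ × ℝ) := {p | |p.1| ≤ 3 / 10 * t0 ∧ |p.2| ≤ 5 * t0}
def A1 (t0 : ℝ) : Set (ℝ × ℝ) := {p | |p.1| ≤ 3 / 10 * t0 ∧ 5 * t0 < |p.2| ∧ |p.2| ≤ 1 / 2}
def A2 (t0 : ℝ) : Set (ℝ × ℝ) := {p | 3 / 10 * t0 < |p.1| ∧ |p.1| ≤ 3 / 5 * t0 ∧ |p.2| ≤ 1 / 2}
def A3 (t0 : ℝ) : Set (ℝ × ℝ) := {p | |p.1| ≤ 3 / 5 * t0 ∧ 1 / 2 < |p.2| ∧ |p.2| ≤ Real.pi}
def A4 (t0 : ℝ) : Set (ℝ × ℝ) := {p | 3 / 5 * t0 < |p.1| ∧ |p.1| ≤ 3 * t0 ∧ |p.2| ≤ Real.pi}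
def A5 (t0 : ℝ) : Set (ℝ × ℝ) := {p | 3 * t0 < |p.1| ∧ |p.1| ≤ Real.pi ∧ |p.2| ≤ Real.pi}

/-- `S_0`, the `k = 0` part. -/
noncomputable def S0i (t0 c : ℝ) (N : ℕ) : ℂ :=
  (1 / (2 * (Real.pi : ℂ))) * ∫ θ in (-Real.pi)..Real.pi,
    (QP (cexp (-tt t0 θ)))⁻¹ ^ 2 * cexp ((N : ℂ) * tt t0 θ) * (cexp (-tt t0 θ) *
      (1 - cexp (-tt t0 θ)) * pt (cexp (-tt t0 θ)) (cexp (-tt t0 θ) ^ 2) *
      (4 * sinh (((c : ℂ) + tt t0 θ) / 2) ^ 2))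

/-- `S_1`, the `k = 1` part. -/
noncomputable def S1i (t0 c : ℝ) (m n : ℕ) : ℂ :=
  (1 / (2 * (Real.pi : ℂ))) * ∫ θ in (-Real.pi)..Real.pi,
    (QP (cexp (-tt t0 θ)))⁻¹ ^ 2 * cexp ((n : ℂ) * tt t0 θ) * sk (tt t0 θ) c m 1

/-- `S_2`, the `k ≥ 2` part. -/
noncomputable def S2i (t0 c : ℝ) (m n : ℕ) : ℂ :=
  (1 / (2 * (Real.pi : ℂ))) * ∫ θ in (-Real.pi)..Real.pi,
    (QP (cexp (-tt t0 θ)))⁻¹ ^ 2 * cexp ((n : ℂ) * tt t0 θ) * ∑' k : ℕ, sk (tt t0 θ) c m (k + 2)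

/-! ## Real analysis -/

/-- `z = 2 π² / (3 t0)`. -/
noncomputable def zz (t0 : ℝ) : ℝ := 2 * Real.pi ^ 2 / (3 * t0)

/-- `K(v) = exp(-(z/2) v²/(1+v²))`. -/
noncomputable def KK (z v : ℝ) : ℝ := Real.exp (-(z / 2) * (v ^ 2 / (1 + v ^ 2)))

/-- `ψ(v) = (z/2) v³/(1+v²)`. -/
noncomputable def psi (z v : ℝ) : ℝ := z / 2 * (v ^ 3 / (1 + v ^ 2))

/-- `ℓ(v) = cosh(πs)/cosh(πs/(1+iv))`. -/
noncomputable def ell (s v : ℝ) : ℂ :=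
  cosh ((Real.pi : ℂ) * s) / cosh ((Real.pi : ℂ) * s / (1 + (v : ℂ) * I))

/-- `E(v) = exp(π|s| v²/(1+v²))`. -/
noncomputable def EE (s v : ℝ) : ℝ := Real.exp (Real.pi * |s| * (v ^ 2 / (1 + v ^ 2)))

/-- The normalisation `W0 = t0^5/(8π²) e^z √(2π/z)`. -/
noncomputable def W0 (t0 : ℝ) : ℝ :=
  t0 ^ 5 / (8 * Real.pi ^ 2) * Real.exp (zz t0) * Real.sqrt (2 * Real.pi / zz t0)

/-- `σ = s - iκ`. -/
noncomputable def sg (κ s : ℝ) : ℂ := (s : ℂ) - (κ : ℂ) * I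

/-- `β = ĉ + κ + i s`. -/
noncomputable def bt (κ ch s : ℝ) : ℂ := ((ch + κ : ℝ) : ℂ) + (s : ℂ) * I

/-- The sign: `i` for `κ = 1/2`, `-i` for `κ = 3/2`; `1/sinh(x - iκπ) = vs κ / cosh x`. -/
noncomputable def vs (κ : ℝ) : ℂ := if κ = 1 / 2 then I else -I

/-- The density of the main term. -/
noncomputable def mainD (κ ch x s : ℝ) : ℂ :=
  cexp (-(I * x * s)) * (vs κ * sg κ s * bt κ ch s ^ 2) / (2 * cosh ((Real.pi : ℂ) * s))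

/-- The error polynomial (in `|s|`, `|σ|`, `|β|`) of the refined region. -/
noncomputable def Qf (κ ch s : ℝ) : ℝ :=
  let a := ‖sg κ s‖
  let b := ‖bt κ ch s‖
  let S := |s|
  0.00305 * (5 * a * b ^ 2 + 2.2 * (κ * b ^ 2 + 2 * κ * a * b + a * b ^ 2 * Real.pi * S)) +
  0.0041 * (a * b ^ 2 * 0.515 * (Real.pi ^ 2 * s ^ 2 + 6.7 * S + 1.2) +
    (κ * b ^ 2 + 2 * κ * a * b) * 1.06 * Real.pi * S + 1.03 * κ ^ 2 * (2 * b + a)) +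
  0.00042 * κ ^ 3 +
  (1 / 40 + a ^ 2 / 50) * (1.14 * a * b ^ 2 + 0.056 * κ * (b ^ 2 + 2 * a * b) +
    0.0042 * κ ^ 2 * (2 * b + a) + 0.00041 * κ ^ 3)

/-- The tie between `t0` and `n`, `m`: `n - κ m - 1/12 = π²/(3 t0²)`. -/
def Tie (κ t0 : ℝ) (m n : ℕ) : Prop :=
  3 * t0 ^ 2 * ((n : ℝ) - κ * m - 1 / 12) = Real.pi ^ 2

end Pool.Agent.Helper21_UR
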