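import Pool.Agent.Helper21_UR.All
import Pool.Agent.Helper79_UR.Fin

/-!
# Strict log-concavity of the rank of unimodal sequences (MP_c97607_co): the theorem
-/

namespace Pool.Agent.Helper21_UR

/-- The module FIN. -/
theorem finS : FinStatement :=
  Pool.Agent.Helper79_UR.fin coefS Pool.Agent.Helper48_UR.p2 Pool.Agent.Helper48_UR.mono
    Pool.Agent.Helper48_UR.symm

/-- The main theorem. -/
theorem mainTheorem : MainStatement := main_of2 finS

end Pool.Agent.Helper21_UR
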